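import Mathlib

/-!
# Every ccs Delta-point is a super Delta-point

If `x` is a ccs `Δ`-point, then it is a super `Δ`-point: a weak neighbourhood of `x` is given by
finitely many functionals; take a fine finite net of the unit sphere of their span, the slices
`{g > g x - δ / 2}` for the functionals `g` of the net and the mean `C` of these slices, which
contains `x`. If `z` is in `C` and almost at distance two from `x`, then a norming functional of
`x - z` is almost `-1` at all components `y i` of `z`, hence on their convex hull, and the convex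
hull of the `y i` meets the weak neighbourhood.
-/

set_option autoImplicit false

open Set Metric Filter Topology

namespace Pool.Agent.X171.CcsDelta

variable (𝕜 : Type*) [RCLike 𝕜] {X : Type*} [NormedAddCommGroup X] [NormedSpace 𝕜 X]

/-- The slice `S(f, α)` of the closed unit ball. -/
def slice (f : X →L[𝕜] 𝕜) (α : ℝ) : Set X := {y | ‖y‖ ≤ 1 ∧ 1 - α < RCLike.re (f y)}

/-- `C` is a convex combination of slices of the closed unit ball. -/
def IsCcs (C : Set X) : Prop :=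
  ∃ (n : ℕ) (l : Fin n → ℝ) (f : Fin n → (X →L[𝕜] 𝕜)) (α : Fin n → ℝ), 1 ≤ n ∧
    (∀ i, 0 < l i) ∧ ∑ i, l i = 1 ∧ (∀ i, ‖f i‖ = 1 ∧ 0 < α i) ∧
    C = {z | ∃ y : Fin n → X, (∀ i, y i ∈ slice 𝕜 (f i) (α i)) ∧ z = ∑ i, (l i : 𝕜) • y i}

/-- `x` is a ccs `Δ`-point. -/
def IsCcsDelta (x : X) : Prop :=
  ‖x‖ = 1 ∧ ∀ C : Set X, IsCcs 𝕜 C → x ∈ C → IsLUB ((fun y => ‖x - y‖) '' C) 2

/-- `W` is a relatively weakly open subset of the closed unit ball. -/
def IsRelWeaklyOpen (W : Set X) : Prop :=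
  ∃ U : Set (WeakSpace 𝕜 X), IsOpen U ∧ W = closedBall 0 1 ∩ toWeakSpace 𝕜 X ⁻¹' U

/-- `x` is a super `Δ`-point. -/
def IsSuperDelta (x : X) : Prop :=
  ‖x‖ = 1 ∧ ∀ W : Set X, IsRelWeaklyOpen 𝕜 W → x ∈ W → IsLUB ((fun y => ‖x - y‖) '' W) 2

/-- weak neighbourhoods: real parts of finitely many functionals -/
lemma exists_re {U : Set (WeakSpace 𝕜 X)} (hU : IsOpen U) {x : X} (hx : toWeakSpace 𝕜 X x ∈ U) :
    ∃ (s : Finset (X →L[𝕜] 𝕜)) (δ : ℝ), 0 < δ ∧
      ∀ y : X, (∀ f ∈ s, |RCLike.re (f y) - RCLike.re (f x)| < δ) → toWeakSpace 𝕜 X y ∈ U := by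
  classical
  obtain ⟨V, hV, rfl⟩ := isOpen_induced_iff.1 hU
  rw [isOpen_pi_iff] at hV
  obtain ⟨I, u, hu, hI⟩ := hV _ hx
  have h1 : ∀ f ∈ I, ∃ δ : ℝ, 0 < δ ∧ ball (f x) δ ⊆ u f := by
    intro f hf
    have := hu f hf
    exact Metric.isOpen_iff.1 this.1 _ this.2
  choose! d hd0 hd using h1
  obtain ⟨δ, hδ0, hδ⟩ : ∃ δ : ℝ, 0 < δ ∧ ∀ f ∈ I, δ ≤ d f := by
    by_cases hne : I.Nonempty
    · refine ⟨I.inf' hne d, ?_, fun f hf => Finset.inf'_le _ hf⟩
      rw [Finset.lt_inf'_iff]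
      exact hd0
    · refine ⟨1, one_pos, fun f hf => (hne ⟨f, hf⟩).elim⟩
  refine ⟨I ∪ I.image (fun f => (-RCLike.I : 𝕜) • f), δ / 2, by positivity, ?_⟩
  intro y hy
  apply hI
  intro f hf
  apply hd f hf
  rw [mem_ball, dist_eq_norm]
  have e1 := hy f (Finset.mem_union_left _ hf)
  have e2 := hy ((-RCLike.I : 𝕜) • f) (Finset.mem_union_right _ (Finset.mem_image_of_mem _ hf))
  have e3 : ∀ z : X, RCLike.re (((-RCLike.I : 𝕜) • f) z) = RCLike.im (f z) := by
    intro z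
    rw [smul_apply, smul_eq_mul, neg_mul, map_neg, RCLike.I_mul_re, neg_neg]
  rw [e3, e3, ← map_sub] at e2
  rw [← map_sub] at e1
  have e4 : ‖f y - f x‖ ≤ |RCLike.re (f y - f x)| + |RCLike.im (f y - f x)| := by
    have h1 := RCLike.norm_sq_eq_def (z := f y - f x)
    refine abs_le_of_sq_le_sq' ?_ (by positivity) |>.2
    rw [h1]
    nlinarith [abs_mul_abs_self (RCLike.re (f y - f x)), abs_mul_abs_self (RCLike.im (f y - f x)),
      abs_nonneg (RCLike.re (f y - f x)), abs_nonneg (RCLike.im (f y - f x)),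
      mul_nonneg (abs_nonneg (RCLike.re (f y - f x))) (abs_nonneg (RCLike.im (f y - f x)))]
  change ‖f y - f x‖ < d f
  have := hδ f hf
  linarith

/-- The separation step: if for the functionals `c` of a fine net of the sphere there are points
`q c` with `⟪c, q c - p⟫ > -δ`, then the convex hull of the points gets close to `p`. -/
lemma exists_near {ι : Type*} [Fintype ι] (p : EuclideanSpace ℝ ι) {R δ ρ : ℝ}
    (N : Finset (EuclideanSpace ℝ ι)) (hN0 : N.Nonempty)
    (hN : ∀ c : EuclideanSpace ℝ ι, ‖c‖ = 1 → ∃ c' ∈ N, ‖c - c'‖ ≤ ρ)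
    (q : EuclideanSpace ℝ ι → EuclideanSpace ℝ ι)
    (hq : ∀ c ∈ N, -δ < inner ℝ c (q c - p)) (hR : ∀ c ∈ N, ‖q c - p‖ ≤ R) (hδ : 0 < δ)
    (hρ : 0 ≤ ρ) :
    ∃ z ∈ convexHull ℝ (q '' (N : Set (EuclideanSpace ℝ ι))), ‖z - p‖ < δ + ρ * R := by
  classical
  set s := convexHull ℝ (q '' (N : Set (EuclideanSpace ℝ ι))) with hs
  have hsne : s.Nonempty := by
    rw [hs, convexHull_nonempty_iff]
    exact (hN0.to_set).image _
  have hcpt : IsCompact s := Set.Finite.isCompact_convexHull (𝕜 := ℝ) (N.finite_toSet.image q)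
  obtain ⟨z, hz, hzm⟩ := exists_norm_eq_iInf_of_complete_convex hsne hcpt.isComplete
    (convex_convexHull ℝ _) p
  rw [norm_eq_iInf_iff_real_inner_le_zero (convex_convexHull ℝ _) hz] at hzm
  refine ⟨z, hz, ?_⟩
  have hR0 : 0 ≤ R := by
    obtain ⟨c, hc⟩ := hN0
    exact (norm_nonneg _).trans (hR c hc)
  by_cases h0 : z = p
  · subst h0
    rw [sub_self, norm_zero]
    positivity
  have hpos : 0 < ‖p - z‖ := norm_pos_iff.2 (sub_ne_zero.2 (Ne.symm h0))
  set c : EuclideanSpace ℝ ι := (‖p - z‖)⁻¹ • (p - z) with hc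
  have hc1 : ‖c‖ = 1 := by
    rw [hc, norm_smul, norm_inv, norm_norm, inv_mul_cancel₀ hpos.ne']
  obtain ⟨c', hc', hcc⟩ := hN c hc1
  have h1 := hq c' hc'
  have h2 := hzm (q c') (subset_convexHull ℝ _ (mem_image_of_mem q hc'))
  have h3 : inner ℝ c (q c' - z) ≤ 0 := by
    rw [hc, real_inner_smul_left]
    exact mul_nonpos_of_nonneg_of_nonpos (by positivity) h2
  have h4 : inner ℝ c (q c' - p) ≤ - ‖p - z‖ := by
    have : q c' - p = (q c' - z) - (p - z) := by abel
    rw [this, inner_sub_right]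
    have h5 : inner ℝ c (p - z) = ‖p - z‖ := by
      rw [hc, real_inner_smul_left, real_inner_self_eq_norm_sq]
      field_simp
    linarith
  have h6 : inner ℝ c' (q c' - p) - inner ℝ c (q c' - p) ≤ ρ * R := by
    rw [← inner_sub_left]
    calc inner ℝ (c' - c) (q c' - p) ≤ ‖c' - c‖ * ‖q c' - p‖ := real_inner_le_norm _ _
      _ ≤ ρ * R := by
        rw [norm_sub_rev]
        exact mul_le_mul hcc (hR c' hc') (norm_nonneg _) hρ
  rw [norm_sub_rev]
  linarith

/-- For every functional `g` there is a slice through `x` on which `g` is almost at least `g x`. -/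
lemma exists_slice {x : X} (hx : ‖x‖ = 1) (g : X →L[𝕜] 𝕜) {δ : ℝ} (hδ : 0 < δ) :
    ∃ (G : X →L[𝕜] 𝕜) (α : ℝ), ‖G‖ = 1 ∧ 0 < α ∧ x ∈ slice 𝕜 G α ∧
      ∀ y ∈ slice 𝕜 G α, RCLike.re (g x) - δ < RCLike.re (g y) := by
  by_cases hg : g = 0
  · have hx0 : x ≠ 0 := by
      intro h
      rw [h, norm_zero] at hx
      exact one_ne_zero hx.symm
    obtain ⟨G, hG1, hG2⟩ := exists_dual_vector 𝕜 x (norm_ne_zero_iff.2 hx0)
    refine ⟨G, 1, hG1, one_pos, ⟨hx.le, ?_⟩, ?_⟩
    · rw [hG2, hx]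
      simp
    · intro y _
      rw [hg]
      simpa using hδ
  · have hg0 : 0 < ‖g‖ := norm_pos_iff.2 hg
    have hgx : RCLike.re (g x) ≤ ‖g‖ := by
      calc RCLike.re (g x) ≤ ‖g x‖ := RCLike.re_le_norm _
        _ ≤ ‖g‖ * ‖x‖ := g.le_opNorm x
        _ = ‖g‖ := by rw [hx, mul_one]
    have hre : ∀ y : X, RCLike.re ((((‖g‖⁻¹ : ℝ) : 𝕜) • g) y) = ‖g‖⁻¹ * RCLike.re (g y) := by
      intro y
      rw [smul_apply, smul_eq_mul, RCLike.re_ofReal_mul]
    refine ⟨((‖g‖⁻¹ : ℝ) : 𝕜) • g, 1 - ‖g‖⁻¹ * (RCLike.re (g x) - δ), ?_, ?_, ⟨hx.le, ?_⟩, ?_⟩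
    · rw [norm_smul, RCLike.norm_ofReal, abs_of_pos (inv_pos.2 hg0), inv_mul_cancel₀ hg0.ne']
    · have : ‖g‖⁻¹ * (RCLike.re (g x) - δ) < ‖g‖⁻¹ * ‖g‖ := by
        apply mul_lt_mul_of_pos_left _ (inv_pos.2 hg0)
        linarith
      rw [inv_mul_cancel₀ hg0.ne'] at this
      linarith
    · rw [hre, sub_sub_cancel]
      apply mul_lt_mul_of_pos_left _ (inv_pos.2 hg0)
      linarith
    · rintro y ⟨-, hy⟩
      rw [hre, sub_sub_cancel] at hy
      exact lt_of_mul_lt_mul_left hy (inv_pos.2 hg0).le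

theorem main (x : X) (hx : IsCcsDelta 𝕜 x) : IsSuperDelta 𝕜 x := by
  classical
  obtain ⟨hx1, hx2⟩ := hx
  refine ⟨hx1, ?_⟩
  rintro W ⟨U, hU, rfl⟩ ⟨-, hxU⟩
  let _ : NormedSpace ℝ X := NormedSpace.restrictScalars ℝ 𝕜 X
  have _ : IsScalarTower ℝ 𝕜 X := RestrictScalars.isScalarTower ℝ 𝕜 X
  obtain ⟨s, δ, hδ, hs⟩ := exists_re 𝕜 hU hxU
  -- the finite-dimensional image
  let T : X →ₗ[ℝ] EuclideanSpace ℝ s :=
    { toFun := fun y => WithLp.toLp 2 (fun f : s => RCLike.re (f.1 y))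
      map_add' := by
        intro a b
        ext f
        simp
      map_smul' := by
        intro r a
        ext f
        simp [RCLike.smul_re] }
  have hT : ∀ y (f : s), T y f = RCLike.re (f.1 y) := fun y f => rfl
  set R : ℝ := Real.sqrt (∑ f : s, (2 * ‖f.1‖) ^ 2) with hR
  have hR0 : 0 ≤ R := Real.sqrt_nonneg _
  have hTR : ∀ y : X, ‖y‖ ≤ 1 → ‖T y - T x‖ ≤ R := by
    intro y hy
    rw [← map_sub, EuclideanSpace.norm_eq, hR]
    apply Real.sqrt_le_sqrt
    apply Finset.sum_le_sum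
    intro f _
    rw [hT]
    apply pow_le_pow_left₀ (norm_nonneg _)
    calc ‖RCLike.re (f.1 (y - x))‖ ≤ ‖f.1 (y - x)‖ := by
          rw [Real.norm_eq_abs]; exact RCLike.abs_re_le_norm _
      _ ≤ ‖f.1‖ * ‖y - x‖ := f.1.le_opNorm _
      _ ≤ ‖f.1‖ * 2 := by
          apply mul_le_mul_of_nonneg_left _ (norm_nonneg _)
          calc ‖y - x‖ ≤ ‖y‖ + ‖x‖ := norm_sub_le _ _
            _ ≤ 2 := by linarith
      _ = 2 * ‖f.1‖ := mul_comm _ _
  set ρ : ℝ := δ / (2 * (R + 1)) with hρ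
  have hρ0 : 0 < ρ := by positivity
  have hρR : δ / 2 + ρ * R ≤ δ := by
    have : ρ * R ≤ δ / 2 := by
      rw [hρ, div_mul_eq_mul_div, div_le_div_iff₀ (by positivity) (by norm_num)]
      nlinarith
    linarith
  -- a net of the sphere
  obtain ⟨t, ht1, ht2, ht3⟩ :=
    (isCompact_sphere (0 : EuclideanSpace ℝ s) 1).finite_cover_balls hρ0
  set N : Finset (EuclideanSpace ℝ s) := insert 0 ht2.toFinset with hN
  have hNne : N.Nonempty := ⟨0, Finset.mem_insert_self _ _⟩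
  have hnet : ∀ c : EuclideanSpace ℝ s, ‖c‖ = 1 → ∃ c' ∈ N, ‖c - c'‖ ≤ ρ := by
    intro c hc
    have := ht3 (mem_sphere_zero_iff_norm.2 hc)
    simp only [mem_iUnion, mem_ball, dist_eq_norm] at this
    obtain ⟨c', hc', h⟩ := this
    exact ⟨c', Finset.mem_insert_of_mem (ht2.mem_toFinset.2 hc'), h.le⟩
  -- the slices
  let g : EuclideanSpace ℝ s → (X →L[𝕜] 𝕜) := fun c => ∑ f : s, ((c f : ℝ) : 𝕜) • f.1
  have hg : ∀ c y, RCLike.re (g c y) = inner ℝ c (T y) := by
    intro c y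
    simp only [g, PiLp.inner_apply]
    rw [sum_apply, map_sum]
    apply Finset.sum_congr rfl
    intro f _
    rw [smul_apply, smul_eq_mul, RCLike.re_ofReal_mul, hT]
    simp [mul_comm]
  have hsl := fun c => exists_slice 𝕜 hx1 (g c) (half_pos hδ)
  choose G α hG1 hα hxG hGα using hsl
  set n := N.card with hn
  have hn0 : 0 < n := Finset.card_pos.2 hNne
  let e : Fin n ≃ N := N.equivFin.symm
  set C : Set X := {z | ∃ y : Fin n → X, (∀ i, y i ∈ slice 𝕜 (G (e i)) (α (e i))) ∧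
    z = ∑ i, (((1 / n : ℝ)) : 𝕜) • y i} with hC
  have hnR : (0 : ℝ) < n := by exact_mod_cast hn0
  have hCcs : IsCcs 𝕜 C := by
    refine ⟨n, fun _ => 1 / n, fun i => G (e i), fun i => α (e i), hn0, fun _ => by positivity,
      ?_, fun i => ⟨hG1 _, hα _⟩, hC⟩
    rw [Finset.sum_const, Finset.card_univ, Fintype.card_fin, nsmul_eq_mul]
    field_simp
  have hxC : x ∈ C := by
    refine ⟨fun _ => x, fun i => hxG _, ?_⟩
    rw [Finset.sum_const, Finset.card_univ, Fintype.card_fin, ← Nat.cast_smul_eq_nsmul 𝕜, smul_smul]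
    have : (n : 𝕜) * ((1 / n : ℝ) : 𝕜) = 1 := by
      rw [← RCLike.ofReal_natCast, ← RCLike.ofReal_mul]
      rw [mul_one_div_cancel hnR.ne']
      simp
    rw [this, one_smul]
  have hlub := hx2 C hCcs hxC
  constructor
  · rintro _ ⟨y, ⟨hy, -⟩, rfl⟩
    rw [mem_closedBall_zero_iff] at hy
    calc ‖x - y‖ ≤ ‖x‖ + ‖y‖ := norm_sub_le _ _
      _ ≤ 2 := by linarith
  · intro b hb
    by_contra hb2
    push Not at hb2
    set η : ℝ := (2 - b) / (n + 1) with hη
    have hη0 : 0 < η := by apply div_pos <;> linarith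
    have hηn : (n + 1) * η = 2 - b := by
      rw [hη]; field_simp
    obtain ⟨_, ⟨z, ⟨y, hy, rfl⟩, rfl⟩, hz1, -⟩ := hlub.exists_between (show 2 - η < 2 by linarith)
    simp only at hz1
    have hz0 : x - ∑ i, (((1 / n : ℝ)) : 𝕜) • y i ≠ 0 := by
      intro h
      rw [h, norm_zero] at hz1
      have : b ≥ 0 := (norm_nonneg (x - x)).trans (hb ⟨x, ⟨by simp [hx1], hxU⟩, rfl⟩)
      have : η ≤ 2 / 2 := by
        rw [hη]
        apply div_le_div₀ <;> try linarith
        have : (1 : ℝ) ≤ n := by exact_mod_cast hn0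
        linarith
      linarith
    obtain ⟨Φ, hΦ1, hΦ2⟩ := exists_dual_vector 𝕜 _ (norm_ne_zero_iff.2 hz0)
    have hΦle : ∀ w : X, ‖w‖ ≤ 1 → |RCLike.re (Φ w)| ≤ 1 := by
      intro w hw
      calc |RCLike.re (Φ w)| ≤ ‖Φ w‖ := RCLike.abs_re_le_norm _
        _ ≤ ‖Φ‖ * ‖w‖ := Φ.le_opNorm w
        _ ≤ 1 := by rw [hΦ1, one_mul]; exact hw
    have hsum : RCLike.re (Φ (x - ∑ i, (((1 / n : ℝ)) : 𝕜) • y i)) =
        RCLike.re (Φ x) - ∑ i, (1 / n : ℝ) * RCLike.re (Φ (y i)) := by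
      rw [map_sub, map_sub, map_sum, map_sum]
      congr 1
      apply Finset.sum_congr rfl
      intro i _
      rw [map_smul, smul_eq_mul, RCLike.re_ofReal_mul]
    have hbig : 2 - η < RCLike.re (Φ x) - ∑ i, (1 / n : ℝ) * RCLike.re (Φ (y i)) := by
      rw [← hsum, hΦ2, RCLike.ofReal_re]
      exact hz1
    have hΦx := (abs_le.1 (hΦle x hx1.le)).2
    have hΦy : ∀ i, RCLike.re (Φ (y i)) < -1 + n * η := by
      intro i
      have h1 : (1 / n : ℝ) * (1 + RCLike.re (Φ (y i))) ≤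
          ∑ j, (1 / n : ℝ) * (1 + RCLike.re (Φ (y j))) := by
        apply Finset.single_le_sum (f := fun j => (1 / n : ℝ) * (1 + RCLike.re (Φ (y j))))
        · intro j _
          have := (abs_le.1 (hΦle (y j) (hy j).1)).1
          have h2 : (0 : ℝ) ≤ 1 / n := by positivity
          exact mul_nonneg h2 (by linarith)
        · exact Finset.mem_univ i
      have h2 : ∑ j, (1 / n : ℝ) * (1 + RCLike.re (Φ (y j))) =
          1 + ∑ j, (1 / n : ℝ) * RCLike.re (Φ (y j)) := by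
        simp only [mul_add, Finset.sum_add_distrib, Finset.sum_const, Finset.card_univ,
          Fintype.card_fin, nsmul_eq_mul]
        field_simp
      rw [h2] at h1
      have h3 : (1 / n : ℝ) * (1 + RCLike.re (Φ (y i))) < η := by linarith
      rw [one_div, inv_mul_lt_iff₀ hnR] at h3
      linarith
    have hΦx2 : 1 - η < RCLike.re (Φ x) := by
      have h1 : -1 ≤ ∑ j, (1 / n : ℝ) * RCLike.re (Φ (y j)) := by
        calc (-1 : ℝ) = ∑ j : Fin n, (1 / n : ℝ) * (-1) := by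
              rw [Finset.sum_const, Finset.card_univ, Fintype.card_fin, nsmul_eq_mul]
              field_simp
          _ ≤ _ := by
              apply Finset.sum_le_sum
              intro j _
              exact mul_le_mul_of_nonneg_left (abs_le.1 (hΦle (y j) (hy j).1)).1 (by positivity)
      linarith
    -- the points indexed by the net
    let Y : EuclideanSpace ℝ s → X := fun c => if h : c ∈ N then y (e.symm ⟨c, h⟩) else x
    have hY : ∀ c ∈ N, Y c ∈ slice 𝕜 (G c) (α c) ∧ RCLike.re (Φ (Y c)) < -1 + n * η := by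
      intro c hc
      simp only [Y, dif_pos hc]
      refine ⟨?_, hΦy _⟩
      have := hy (e.symm ⟨c, hc⟩)
      rwa [Equiv.apply_symm_apply] at this
    obtain ⟨z0, hz0, hz0'⟩ := exists_near (T x) (R := R) (δ := δ / 2) (ρ := ρ) N hNne hnet
      (fun c => T (Y c)) (by
        intro c hc
        have h1 := hGα c (Y c) (hY c hc).1
        rw [hg, hg] at h1
        rw [inner_sub_right]
        linarith) (fun c hc => hTR _ (hY c hc).1.1) (half_pos hδ) hρ0.le
    have himg : (fun c => T (Y c)) '' (N : Set (EuclideanSpace ℝ s)) = T '' (Y '' N) := by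
      rw [image_image]
    rw [himg, ← LinearMap.image_convexHull] at hz0
    obtain ⟨w, hw, rfl⟩ := hz0
    -- `w` is far away from `x` and in the neighbourhood
    have hwball : ‖w‖ ≤ 1 := by
      have : convexHull ℝ (Y '' (N : Set _)) ⊆ closedBall (0 : X) 1 := by
        apply convexHull_min _ (convex_closedBall _ _)
        rintro _ ⟨c, hc, rfl⟩
        rw [mem_closedBall_zero_iff]
        exact (hY c hc).1.1
      exact mem_closedBall_zero_iff.1 (this hw)
    have hwΦ : RCLike.re (Φ w) ≤ -1 + n * η := by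
      have hconv : Convex ℝ {v : X | RCLike.re (Φ v) ≤ -1 + n * η} := by
        intro a ha c hc p q hp hq hpq
        simp only [mem_ofPred_eq] at ha hc ⊢
        rw [map_add, map_add]
        have h1 : ∀ (r : ℝ) (v : X), RCLike.re (Φ (r • v)) = r * RCLike.re (Φ v) := by
          intro r v
          have : r • v = (r : 𝕜) • v := by
            rw [← RCLike.real_smul_eq_coe_smul]
          rw [this, map_smul, smul_eq_mul, RCLike.re_ofReal_mul]
        rw [h1, h1]
        nlinarith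
      have : convexHull ℝ (Y '' (N : Set _)) ⊆ {v : X | RCLike.re (Φ v) ≤ -1 + n * η} := by
        apply convexHull_min _ hconv
        rintro _ ⟨c, hc, rfl⟩
        exact (hY c hc).2.le
      exact this hw
    have hwU : toWeakSpace 𝕜 X w ∈ U := by
      apply hs
      intro f hf
      have h1 : ‖(T w - T x) ⟨f, hf⟩‖ ≤ ‖T w - T x‖ := PiLp.norm_apply_le _ _
      have h2 : (T w - T x) ⟨f, hf⟩ = RCLike.re (f w) - RCLike.re (f x) := rfl
      rw [h2, Real.norm_eq_abs] at h1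
      linarith
    have hfin := hb ⟨w, ⟨mem_closedBall_zero_iff.2 hwball, hwU⟩, rfl⟩
    simp only at hfin
    have hfin2 : RCLike.re (Φ (x - w)) ≤ ‖x - w‖ := by
      calc RCLike.re (Φ (x - w)) ≤ ‖Φ (x - w)‖ := RCLike.re_le_norm _
        _ ≤ ‖Φ‖ * ‖x - w‖ := Φ.le_opNorm _
        _ = ‖x - w‖ := by rw [hΦ1, one_mul]
    rw [map_sub, map_sub] at hfin2
    linarith

end Pool.Agent.X171.CcsDelta
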