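import Pool.Agent.X171.CcsDelta

/-!
# The spaces with the D2P and those with the DD2P form `G_δ` sets of codes

The dual unit ball of `X_μ` is the compact set `K μ` of the additive functions on `V` bounded by
`μ`. By weak* compactness, the D2P says: for all `x` with `μ x < 1`, all `n` and all `ε` there is a
finite set of pairs `(y, z)` with `μ y, μ z < 1`, `μ (y - z) > 2 - ε`, such that every `n`-tuple
of elements of `K μ` is `ε`-small on `y - x` and `z - x` for one of the pairs. For a given finite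
set of pairs this is an open condition on `μ`. Similarly for the DD2P.
-/

set_option autoImplicit false

open Set Metric Filter Topology

namespace Pool.Agent.X171.Codes

/-- The vector space over `ℚ` with countable Hamel basis. -/
abbrev V : Type := ℕ →₀ ℚ

/-- The space of all pseudonorms on `V`, with the topology of pointwise convergence. -/
abbrev Pn : Type := {μ : V → ℝ // (∀ v, 0 ≤ μ v) ∧ (∀ u v, μ (u + v) ≤ μ u + μ v) ∧
  ∀ (q : ℚ) (v : V), μ (q • v) = |(q : ℝ)| * μ v}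

/-- The real Banach space `X` is the completion of `V / {μ = 0}` through `j`. -/
structure IsCompletion {X : Type*} [NormedAddCommGroup X] [NormedSpace ℝ X] (μ : V → ℝ)
    (j : V →+ X) : Prop where
  complete : CompleteSpace X
  norm_eq : ∀ v, ‖j v‖ = μ v
  dense : DenseRange j

/-- `W` is a relatively weakly open subset of the closed unit ball. -/
def IsRelWeaklyOpen {X : Type*} [NormedAddCommGroup X] [NormedSpace ℝ X] (W : Set X) : Prop :=
  ∃ U : Set (WeakSpace ℝ X), IsOpen U ∧ W = closedBall 0 1 ∩ toWeakSpace ℝ X ⁻¹' U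

/-- The diameter two property. -/
def D2P (X : Type*) [NormedAddCommGroup X] [NormedSpace ℝ X] : Prop :=
  ∀ W : Set X, IsRelWeaklyOpen W → W.Nonempty → Metric.diam W = 2

/-- The diametral diameter two property. -/
def DD2P (X : Type*) [NormedAddCommGroup X] [NormedSpace ℝ X] : Prop :=
  ∀ W : Set X, IsRelWeaklyOpen W → ∀ x ∈ W, ∀ ε : ℝ, 0 < ε → ∃ y ∈ W, 1 + ‖x‖ - ε ≤ ‖x - y‖

/-- `n`-tuples of additive functions bounded by `μ` -/
def K (n : ℕ) (μ : V → ℝ) : Set (Fin n → V → ℝ) :=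
  {f | (∀ i u v, f i (u + v) = f i u + f i v) ∧ ∀ i v, |f i v| ≤ μ v}

/-- the functions `f i` are small on `p.1 - x` and `p.2 - x` -/
def Near {n : ℕ} (x : V) (ε : ℝ) (p : V × V) (f : Fin n → V → ℝ) : Prop :=
  ∀ i, |f i (p.1 - x)| < ε ∧ |f i (p.2 - x)| < ε

/-- the finitary condition -/
def Cov (T : Pn → V → V × V → ℝ → Prop) (n : ℕ) (x : V) (ε : ℝ) (μ : Pn) : Prop :=
  ∃ P : Finset (V × V), (∀ p ∈ P, T μ x p ε) ∧ ∀ f ∈ K n μ.1, ∃ p ∈ P, Near x ε p f

lemma isCompact_K (n : ℕ) (μ : V → ℝ) : IsCompact (K n μ) := by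
  have h1 : IsCompact (Set.pi univ fun _ : Fin n => Set.pi univ fun v : V => Icc (-μ v) (μ v)) :=
    isCompact_univ_pi fun _ => isCompact_univ_pi fun v => isCompact_Icc
  refine h1.of_isClosed_subset ?_ ?_
  · have : K n μ = (⋂ i, ⋂ u, ⋂ v, {f : Fin n → V → ℝ | f i (u + v) = f i u + f i v}) ∩
        ⋂ i, ⋂ v, {f : Fin n → V → ℝ | |f i v| ≤ μ v} := by
      ext f
      simp [K]
    rw [this]
    refine IsClosed.inter (isClosed_iInter fun i => isClosed_iInter fun u => isClosed_iInter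
      fun v => isClosed_eq (by fun_prop) (by fun_prop)) (isClosed_iInter fun i => isClosed_iInter
      fun v => isClosed_le (by fun_prop) (by fun_prop))
  · intro f hf i _ v _
    exact abs_le.1 (hf.2 i v)

lemma isOpen_near {n : ℕ} (x : V) (ε : ℝ) (p : V × V) :
    IsOpen {f : Fin n → V → ℝ | Near x ε p f} := by
  have : {f : Fin n → V → ℝ | Near x ε p f} =
      ⋂ i, ({f : Fin n → V → ℝ | |f i (p.1 - x)| < ε} ∩ {f | |f i (p.2 - x)| < ε}) := by
    ext f
    simp [Near]
  rw [this]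
  exact isOpen_iInter_of_finite fun i => (isOpen_lt (by fun_prop) (by fun_prop)).inter
    (isOpen_lt (by fun_prop) (by fun_prop))

lemma cov_iff (T : Pn → V → V × V → ℝ → Prop) (n : ℕ) (x : V) (ε : ℝ) (μ : Pn) :
    Cov T n x ε μ ↔ ∀ f ∈ K n μ.1, ∃ p, T μ x p ε ∧ Near x ε p f := by
  classical
  constructor
  · rintro ⟨P, hP, h⟩ f hf
    obtain ⟨p, hp, hn⟩ := h f hf
    exact ⟨p, hP p hp, hn⟩
  · intro h
    obtain ⟨b, hb1, hb2, hb3⟩ := (isCompact_K n μ.1).elim_finite_subcover_image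
      (b := {p : V × V | T μ x p ε}) (c := fun p => {f : Fin n → V → ℝ | Near x ε p f})
      (fun p _ => isOpen_near x ε p) (fun f hf => by
        obtain ⟨p, hp, hn⟩ := h f hf
        exact mem_iUnion₂.2 ⟨p, hp, hn⟩)
    refine ⟨hb2.toFinset, fun p hp => hb1 (hb2.mem_toFinset.1 hp), fun f hf => ?_⟩
    obtain ⟨p, hp, hn⟩ := mem_iUnion₂.1 (hb3 hf)
    exact ⟨p, hb2.mem_toFinset.2 hp, hn⟩

lemma isOpen_forall_K (n : ℕ) (x : V) (ε : ℝ) (P : Finset (V × V)) :
    IsOpen {μ : Pn | ∀ f ∈ K n μ.1, ∃ p ∈ P, Near x ε p f} := by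
  classical
  rw [← isClosed_compl_iff]
  set A : Set (Pn × (Fin n → V → Icc (-1 : ℝ) 1)) :=
    {q | (∀ i u v, q.1.1 (u + v) * (q.2 i (u + v) : ℝ) =
      q.1.1 u * (q.2 i u : ℝ) + q.1.1 v * (q.2 i v : ℝ)) ∧
      ∀ p ∈ P, ∃ i, ε ≤ |q.1.1 (p.1 - x) * (q.2 i (p.1 - x) : ℝ)| ∨
        ε ≤ |q.1.1 (p.2 - x) * (q.2 i (p.2 - x) : ℝ)|} with hAdef
  have hc1 : ∀ v : V, Continuous fun q : Pn × (Fin n → V → Icc (-1 : ℝ) 1) => q.1.1 v :=
    fun v => (continuous_apply v).comp (continuous_subtype_val.comp continuous_fst)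
  have hc2 : ∀ (i : Fin n) (v : V),
      Continuous fun q : Pn × (Fin n → V → Icc (-1 : ℝ) 1) => ((q.2 i v : Icc (-1 : ℝ) 1) : ℝ) :=
    fun i v => continuous_subtype_val.comp ((continuous_apply v).comp
      ((continuous_apply i).comp continuous_snd))
  have hA : IsClosed A := by
    have : A = (⋂ i, ⋂ u, ⋂ v, {q : Pn × (Fin n → V → Icc (-1 : ℝ) 1) |
        q.1.1 (u + v) * (q.2 i (u + v) : ℝ) =
        q.1.1 u * (q.2 i u : ℝ) + q.1.1 v * (q.2 i v : ℝ)}) ∩
        ⋂ p ∈ P, ⋃ i, ({q : Pn × (Fin n → V → Icc (-1 : ℝ) 1) |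
          ε ≤ |q.1.1 (p.1 - x) * (q.2 i (p.1 - x) : ℝ)|} ∪
        {q | ε ≤ |q.1.1 (p.2 - x) * (q.2 i (p.2 - x) : ℝ)|}) := by
      ext q
      simp [hAdef]
    rw [this]
    refine IsClosed.inter (isClosed_iInter fun i => isClosed_iInter fun u => isClosed_iInter
      fun v => isClosed_eq ((hc1 _).mul (hc2 _ _)) (((hc1 _).mul (hc2 _ _)).add
        ((hc1 _).mul (hc2 _ _)))) (isClosed_biInter fun p _ => isClosed_iUnion_of_finite fun i =>
      IsClosed.union ?_ ?_)
    · exact isClosed_le continuous_const ((hc1 _).mul (hc2 _ _)).abs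
    · exact isClosed_le continuous_const ((hc1 _).mul (hc2 _ _)).abs
  have hpr : {μ : Pn | ∀ f ∈ K n μ.1, ∃ p ∈ P, Near x ε p f}ᶜ = Prod.fst '' A := by
    ext μ
    constructor
    · intro h
      rw [mem_compl_iff, mem_ofPred_eq] at h
      push Not at h
      obtain ⟨f, hf, h⟩ := h
      have hb : ∀ i v, f i v / μ.1 v ∈ Icc (-1 : ℝ) 1 := by
        intro i v
        rw [mem_Icc, ← abs_le, abs_div, abs_of_nonneg (μ.2.1 v)]
        exact div_le_one_of_le₀ (hf.2 i v) (μ.2.1 v)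
      have hm : ∀ i v, μ.1 v * (f i v / μ.1 v) = f i v := by
        intro i v
        by_cases h0 : μ.1 v = 0
        · have := hf.2 i v
          rw [h0, abs_nonpos_iff] at this
          rw [h0, this, zero_mul]
        · field_simp
      refine ⟨(μ, fun i v => ⟨f i v / μ.1 v, hb i v⟩), ⟨?_, ?_⟩, rfl⟩
      · intro i u v
        dsimp only
        rw [hm, hm, hm]
        exact hf.1 i u v
      · intro p hp
        have := h p hp
        unfold Near at this
        push Not at this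
        obtain ⟨i, hi⟩ := this
        refine ⟨i, ?_⟩
        dsimp only
        rw [hm, hm]
        by_cases h1 : |f i (p.1 - x)| < ε
        · exact Or.inr (hi h1)
        · exact Or.inl (not_lt.1 h1)
    · rintro ⟨⟨μ, g⟩, hq, rfl⟩
      rw [mem_compl_iff, mem_ofPred_eq]
      intro h
      obtain ⟨p, hp, hn⟩ := h (fun i v => μ.1 v * (g i v : ℝ)) ⟨hq.1, fun i v => by
        rw [abs_mul, abs_of_nonneg (μ.2.1 v)]
        exact mul_le_of_le_one_right (μ.2.1 v) (abs_le.2 (g i v).2)⟩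
      obtain ⟨i, hi⟩ := hq.2 p hp
      have := hn i
      dsimp only at this hi
      rcases hi with hi | hi
      · linarith [this.1]
      · linarith [this.2]
  rw [hpr]
  exact isClosedMap_fst_of_compactSpace _ hA

lemma isGδ_cov (T : Pn → V → V × V → ℝ → Prop) (hT : ∀ x p ε, IsOpen {μ : Pn | T μ x p ε}) :
    IsGδ {μ : Pn | ∀ (x : V) (n k : ℕ), μ.1 x < 1 → Cov T n x (1 / ((k : ℝ) + 1)) μ} := by
  classical
  have : {μ : Pn | ∀ (x : V) (n k : ℕ), μ.1 x < 1 → Cov T n x (1 / ((k : ℝ) + 1)) μ} =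
      ⋂ x, ⋂ n, ⋂ k : ℕ, ({μ : Pn | 1 ≤ μ.1 x} ∪ ⋃ P : Finset (V × V),
        ((⋂ p ∈ P, {μ : Pn | T μ x p (1 / ((k : ℝ) + 1))}) ∩
        {μ : Pn | ∀ f ∈ K n μ.1, ∃ p ∈ P, Near x (1 / ((k : ℝ) + 1)) p f})) := by
    ext μ
    simp only [mem_ofPred_eq, mem_iInter, mem_union, mem_iUnion, mem_inter_iff, Cov]
    refine forall_congr' fun x => forall_congr' fun n => forall_congr' fun k => ?_
    rw [← not_lt, imp_iff_not_or]
  rw [this]
  refine IsGδ.iInter fun x => IsGδ.iInter fun n => IsGδ.iInter fun k => IsGδ.union ?_ ?_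
  · have h1 : IsGδ (Ici (1 : ℝ)) := isClosed_Ici.isGδ
    exact h1.preimage ((continuous_apply x).comp continuous_subtype_val)
  · refine (isOpen_iUnion fun P => IsOpen.inter ?_ (isOpen_forall_K n x _ P)).isGδ
    exact isOpen_biInter_finset fun p _ => hT x p _

section Model

variable {X : Type*} [NormedAddCommGroup X] [NormedSpace ℝ X]

lemma exists_ext {j : V →+ X} (hj : DenseRange j) {f : V → ℝ}
    (hadd : ∀ u v, f (u + v) = f u + f v) (hf : ∀ v, |f v| ≤ ‖j v‖) :
    ∃ F : X →L[ℝ] ℝ, ‖F‖ ≤ 1 ∧ ∀ v, F (j v) = f v := by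
  classical
  have hsub : ∀ u v, f (u - v) = f u - f v := by
    intro u v
    have := hadd (u - v) v
    rw [sub_add_cancel] at this
    linarith
  have hl : ∀ u v, |f u - f v| ≤ ‖j u - j v‖ := by
    intro u v
    rw [← hsub, ← map_sub]
    exact hf _
  set g : X → ℝ := fun x => if h : ∃ v, j v = x then f h.choose else 0 with hgdef
  have hg : ∀ v, g (j v) = f v := by
    intro v
    have h : ∃ w, j w = j v := ⟨v, rfl⟩
    have h0 : g (j v) = f h.choose := dif_pos h
    rw [h0]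
    have h1 := hl h.choose v
    rw [h.choose_spec, sub_self, norm_zero] at h1
    have := abs_nonpos_iff.1 h1
    linarith
  have hgl : LipschitzOnWith 1 g (range j) := by
    apply LipschitzOnWith.of_dist_le_mul
    rintro _ ⟨u, rfl⟩ _ ⟨v, rfl⟩
    rw [hg, hg, Real.dist_eq, dist_eq_norm]
    simpa using hl u v
  obtain ⟨G, hG1, hG2⟩ := hgl.extend_real
  have hG : ∀ v, G (j v) = f v := fun v => by rw [← hG2 ⟨v, rfl⟩, hg]
  have hadd' : ∀ x y, G (x + y) = G x + G y := by
    intro x y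
    refine hj.induction_on₂ (p := fun x y => G (x + y) = G x + G y) ?_ ?_ x y
    · exact isClosed_eq (hG1.continuous.comp (continuous_fst.add continuous_snd))
        ((hG1.continuous.comp continuous_fst).add (hG1.continuous.comp continuous_snd))
    · intro u v
      rw [← map_add, hG, hG, hG, hadd]
  let A : X →+ ℝ := AddMonoidHom.mk' G hadd'
  have hA : ∀ x, A x = G x := fun _ => rfl
  let F : X →L[ℝ] ℝ := A.toRealLinearMap hG1.continuous
  refine ⟨F, ?_, fun v => hG v⟩
  refine ContinuousLinearMap.opNorm_le_bound _ zero_le_one fun x => ?_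
  have h1 := hG1.dist_le_mul x 0
  have h0 : G 0 = 0 := by rw [← hA, map_zero]
  rw [h0, dist_zero_right, dist_zero_right, NNReal.coe_one] at h1
  exact h1

variable {μ : Pn} {j : V →+ X}

/-- approximation of a point of the unit ball by an element of `V` of norm less than one -/
lemma exists_approx (hj : IsCompletion μ.1 j) {O : Set X} (hO : IsOpen O) {x : X} (hx : x ∈ O)
    (hx1 : ‖x‖ ≤ 1) : ∃ v, μ.1 v < 1 ∧ j v ∈ O := by
  have h1 : x ∈ closure (ball (0 : X) 1) := by
    rw [closure_ball _ one_ne_zero, mem_closedBall_zero_iff]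
    exact hx1
  obtain ⟨y, hyO, hyb⟩ := mem_closure_iff.1 h1 O hO hx
  obtain ⟨v, hv⟩ := hj.dense.exists_mem_open (hO.inter isOpen_ball) ⟨y, hyO, hyb⟩
  refine ⟨v, ?_, hv.1⟩
  rw [← hj.norm_eq]
  exact mem_ball_zero_iff.1 hv.2

/-- approximation of pairs -/
lemma exists_approx₂ (hj : IsCompletion μ.1 j) {O : Set (X × X)} (hO : IsOpen O) {x y : X}
    (hx : (x, y) ∈ O) (hx1 : ‖x‖ ≤ 1) (hy1 : ‖y‖ ≤ 1) :
    ∃ u v, μ.1 u < 1 ∧ μ.1 v < 1 ∧ (j u, j v) ∈ O := by
  have h1 : (x, y) ∈ closure (ball (0 : X) 1 ×ˢ ball (0 : X) 1) := by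
    rw [closure_prod_eq, closure_ball _ one_ne_zero]
    exact ⟨mem_closedBall_zero_iff.2 hx1, mem_closedBall_zero_iff.2 hy1⟩
  obtain ⟨z, hzO, hzb⟩ := mem_closure_iff.1 h1 O hO hx
  have hd : DenseRange (Prod.map j j) := hj.dense.prodMap hj.dense
  obtain ⟨w, hw⟩ := hd.exists_mem_open (hO.inter (isOpen_ball.prod isOpen_ball)) ⟨z, hzO, hzb⟩
  refine ⟨w.1, w.2, ?_, ?_, hw.1⟩
  · rw [← hj.norm_eq]
    exact mem_ball_zero_iff.1 hw.2.1
  · rw [← hj.norm_eq]
    exact mem_ball_zero_iff.1 hw.2.2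

/-- the test for the D2P -/
def T1 (μ : Pn) (_ : V) (p : V × V) (ε : ℝ) : Prop :=
  μ.1 p.1 < 1 ∧ μ.1 p.2 < 1 ∧ 2 - ε < μ.1 (p.1 - p.2)

/-- the test for the DD2P -/
def T2 (μ : Pn) (x : V) (p : V × V) (ε : ℝ) : Prop :=
  μ.1 p.1 < 1 ∧ 1 + μ.1 x - ε < μ.1 (x - p.1)

lemma isOpen_T1 (x : V) (p : V × V) (ε : ℝ) : IsOpen {μ : Pn | T1 μ x p ε} := by
  have hc : ∀ v : V, Continuous fun μ : Pn => μ.1 v :=
    fun v => (continuous_apply v).comp continuous_subtype_val
  exact (isOpen_lt (hc _) continuous_const).inter ((isOpen_lt (hc _) continuous_const).inter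
    (isOpen_lt continuous_const (hc _)))

lemma isOpen_T2 (x : V) (p : V × V) (ε : ℝ) : IsOpen {μ : Pn | T2 μ x p ε} := by
  have hc : ∀ v : V, Continuous fun μ : Pn => μ.1 v :=
    fun v => (continuous_apply v).comp continuous_subtype_val
  exact (isOpen_lt (hc _) continuous_const).inter
    (isOpen_lt ((continuous_const.add (hc _)).sub continuous_const) (hc _))

/-- the basic relatively weakly open sets -/
lemma isRelWeaklyOpen_basic {n : ℕ} (F : Fin n → (X →L[ℝ] ℝ)) (x : X) (ε : ℝ) :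
    IsRelWeaklyOpen (closedBall 0 1 ∩ {y : X | ∀ i, |F i (y - x)| < ε}) := by
  refine ⟨⋂ i, {y : WeakSpace ℝ X | |(topDualPairing ℝ X).flip y (F i) - F i x| < ε}, ?_, ?_⟩
  · refine isOpen_iInter_of_finite fun i => isOpen_lt ?_ continuous_const
    exact ((WeakBilin.eval_continuous (topDualPairing ℝ X).flip (F i)).sub continuous_const).abs
  · ext y
    simp only [mem_inter_iff, mem_ofPred_eq, mem_preimage, mem_iInter, map_sub]
    rfl

/-- weak neighbourhoods contain basic ones given by `K μ` -/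
lemma exists_basic {W : Set X} (hW : IsRelWeaklyOpen W) {x : X}
    (hx : x ∈ W) : ∃ (n : ℕ) (F : Fin n → (X →L[ℝ] ℝ)) (δ : ℝ), 0 < δ ∧ (∀ i, ‖F i‖ ≤ 1) ∧
      ∀ y : X, ‖y‖ ≤ 1 → (∀ i, |F i (y - x)| < δ) → y ∈ W := by
  classical
  obtain ⟨U, hU, rfl⟩ := hW
  obtain ⟨s, δ, hδ, hs⟩ := CcsDelta.exists_re ℝ hU hx.2
  set M : ℝ := 1 + ∑ f ∈ s, ‖f‖ with hM
  have hM0 : 0 < M := by positivity
  have hMf : ∀ f ∈ s, ‖f‖ ≤ M := by
    intro f hf
    have := Finset.single_le_sum (f := fun f : X →L[ℝ] ℝ => ‖f‖) (fun f _ => norm_nonneg f) hf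
    linarith
  refine ⟨s.card, fun i => M⁻¹ • (s.equivFin.symm i).1, δ / M, by positivity, ?_, ?_⟩
  · intro i
    rw [norm_smul, norm_inv, Real.norm_of_nonneg hM0.le, inv_mul_le_iff₀ hM0, mul_one]
    exact hMf _ (s.equivFin.symm i).2
  · intro y hy h
    refine ⟨mem_closedBall_zero_iff.2 hy, hs y fun f hf => ?_⟩
    have := h (s.equivFin ⟨f, hf⟩)
    beta_reduce at this
    rw [Equiv.symm_apply_apply, smul_apply, smul_eq_mul, abs_mul, abs_inv, abs_of_pos hM0,
      inv_mul_lt_iff₀ hM0, mul_div_cancel₀ _ hM0.ne', map_sub] at this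
    exact this

lemma mem_K (hj : IsCompletion μ.1 j) {n : ℕ} {F : Fin n → (X →L[ℝ] ℝ)} (hF : ∀ i, ‖F i‖ ≤ 1) :
    (fun i v => F i (j v)) ∈ K n μ.1 := by
  refine ⟨fun i u v => by simp only [map_add], fun i v => ?_⟩
  rw [← hj.norm_eq, ← Real.norm_eq_abs]
  exact (F i).le_of_opNorm_le (hF i) _ |>.trans (by rw [one_mul])

lemma d2p_iff (hj : IsCompletion μ.1 j) :
    D2P X ↔ ∀ (x : V) (n k : ℕ), μ.1 x < 1 → Cov T1 n x (1 / ((k : ℝ) + 1)) μ := by
  constructor
  · intro h x n k hx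
    rw [cov_iff]
    intro f hf
    have hF : ∀ i, ∃ F : X →L[ℝ] ℝ, ‖F‖ ≤ 1 ∧ ∀ v, F (j v) = f i v := fun i =>
      exists_ext hj.dense (hf.1 i) (fun v => by rw [hj.norm_eq]; exact hf.2 i v)
    choose F hF1 hF2 using hF
    set ε : ℝ := 1 / ((k : ℝ) + 1) with hε
    have hε0 : 0 < ε := by positivity
    have hε1 : ε ≤ 1 := by
      rw [hε, div_le_one (by positivity)]
      linarith [(Nat.cast_nonneg k : (0 : ℝ) ≤ k)]
    set W : Set X := closedBall 0 1 ∩ {y : X | ∀ i, |F i (y - j x)| < ε} with hW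
    have hjx : j x ∈ W := by
      refine ⟨mem_closedBall_zero_iff.2 (by rw [hj.norm_eq]; exact hx.le), fun i => ?_⟩
      rw [sub_self, map_zero, abs_zero]
      exact hε0
    have hd := h W (isRelWeaklyOpen_basic F (j x) ε) ⟨j x, hjx⟩
    obtain ⟨y, hy, z, hz, hyz⟩ : ∃ y ∈ W, ∃ z ∈ W, 2 - ε < dist y z := by
      by_contra hcon
      push Not at hcon
      have := Metric.diam_le_of_forall_dist_le (C := 2 - ε) (by linarith) hcon
      linarith
    have hO : IsOpen {p : X × X | 2 - ε < dist p.1 p.2 ∧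
        ∀ i, |F i (p.1 - j x)| < ε ∧ |F i (p.2 - j x)| < ε} := by
      refine IsOpen.inter (show IsOpen {p : X × X | 2 - ε < dist p.1 p.2} from
        isOpen_lt continuous_const (by fun_prop)) ?_
      have : {p : X × X | ∀ i, |F i (p.1 - j x)| < ε ∧ |F i (p.2 - j x)| < ε} =
          ⋂ i, ({p : X × X | |F i (p.1 - j x)| < ε} ∩ {p : X × X | |F i (p.2 - j x)| < ε}) := by
        ext p
        simp
      change IsOpen {p : X × X | ∀ i, |F i (p.1 - j x)| < ε ∧ |F i (p.2 - j x)| < ε}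
      rw [this]
      exact isOpen_iInter_of_finite fun i => (isOpen_lt (by fun_prop) continuous_const).inter
        (isOpen_lt (by fun_prop) continuous_const)
    obtain ⟨u, v, hu, hv, huv⟩ := exists_approx₂ hj hO (x := y) (y := z)
      ⟨hyz, fun i => ⟨hy.2 i, hz.2 i⟩⟩ (mem_closedBall_zero_iff.1 hy.1)
      (mem_closedBall_zero_iff.1 hz.1)
    refine ⟨(u, v), ⟨hu, hv, ?_⟩, fun i => ?_⟩
    · have := huv.1
      rw [dist_eq_norm] at this
      dsimp only at this
      rwa [← map_sub, hj.norm_eq] at this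
    · have := huv.2 i
      dsimp only at this
      rwa [← map_sub, ← map_sub, hF2, hF2] at this
  · intro h W hW hne
    obtain ⟨x0, hx0⟩ := hne
    have hWb : W ⊆ closedBall 0 1 := by
      obtain ⟨U, _, rfl⟩ := hW
      exact inter_subset_left
    have hbdd : Bornology.IsBounded W := isBounded_closedBall.subset hWb
    apply le_antisymm
    · calc Metric.diam W ≤ Metric.diam (closedBall (0 : X) 1) :=
          Metric.diam_mono hWb isBounded_closedBall
        _ ≤ 2 * 1 := Metric.diam_closedBall zero_le_one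
        _ = 2 := by norm_num
    obtain ⟨n, F, δ, hδ, hF1, hF⟩ := exists_basic hW hx0
    have hx01 : ‖x0‖ ≤ 1 := mem_closedBall_zero_iff.1 (hWb hx0)
    have hO : IsOpen {y : X | ∀ i, |F i (y - x0)| < δ / 2} := by
      have : {y : X | ∀ i, |F i (y - x0)| < δ / 2} = ⋂ i, {y : X | |F i (y - x0)| < δ / 2} := by
        ext p
        simp
      rw [this]
      exact isOpen_iInter_of_finite fun i => isOpen_lt (by fun_prop) continuous_const
    obtain ⟨x, hx, hxO⟩ := exists_approx hj hO (x := x0)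
      (by intro i; rw [sub_self, map_zero, abs_zero]; positivity) hx01
    apply le_of_forall_pos_lt_add
    intro η hη
    obtain ⟨k, hk⟩ := exists_nat_one_div_lt (show 0 < min η (δ / 2) by positivity)
    have h1 := (cov_iff _ _ _ _ _).1 (h x n k hx) _ (mem_K hj hF1)
    obtain ⟨p, ⟨hp1, hp2, hp3⟩, hn⟩ := h1
    have key : ∀ y : V, μ.1 y < 1 → (∀ i, |F i (j (y - x))| < 1 / ((k : ℝ) + 1)) → j y ∈ W := by
      intro y hy hFy
      refine hF _ (by rw [hj.norm_eq]; exact hy.le) fun i => ?_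
      have e1 := hFy i
      have e2 := hxO i
      have e3 : F i (j y - x0) = F i (j (y - x)) + F i (j x - x0) := by
        rw [map_sub j, ← map_add]
        congr 1
        abel
      rw [e3]
      calc |F i (j (y - x)) + F i (j x - x0)| ≤ |F i (j (y - x))| + |F i (j x - x0)| :=
            abs_add_le _ _
        _ < δ / 2 + δ / 2 := add_lt_add (e1.trans (hk.trans_le (min_le_right _ _))) e2
        _ = δ := by ring
    have hy := key p.1 hp1 fun i => (hn i).1
    have hz := key p.2 hp2 fun i => (hn i).2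
    have hd := Metric.dist_le_diam_of_mem hbdd hy hz
    rw [dist_eq_norm, ← map_sub, hj.norm_eq] at hd
    have := hk.trans_le (min_le_left _ _)
    linarith

lemma dd2p_iff (hj : IsCompletion μ.1 j) :
    DD2P X ↔ ∀ (x : V) (n k : ℕ), μ.1 x < 1 → Cov T2 n x (1 / ((k : ℝ) + 1)) μ := by
  constructor
  · intro h x n k hx
    rw [cov_iff]
    intro f hf
    have hF : ∀ i, ∃ F : X →L[ℝ] ℝ, ‖F‖ ≤ 1 ∧ ∀ v, F (j v) = f i v := fun i =>
      exists_ext hj.dense (hf.1 i) (fun v => by rw [hj.norm_eq]; exact hf.2 i v)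
    choose F hF1 hF2 using hF
    set ε : ℝ := 1 / ((k : ℝ) + 1) with hε
    have hε0 : 0 < ε := by positivity
    set W : Set X := closedBall 0 1 ∩ {y : X | ∀ i, |F i (y - j x)| < ε} with hW
    have hjx : j x ∈ W := by
      refine ⟨mem_closedBall_zero_iff.2 (by rw [hj.norm_eq]; exact hx.le), fun i => ?_⟩
      rw [sub_self, map_zero, abs_zero]
      exact hε0
    obtain ⟨y, hy, hyx⟩ := h W (isRelWeaklyOpen_basic F (j x) ε) (j x) hjx (ε / 2) (by positivity)
    have hO : IsOpen {y : X | 1 + ‖j x‖ - ε < ‖j x - y‖ ∧ ∀ i, |F i (y - j x)| < ε} := by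
      refine IsOpen.inter (show IsOpen {y : X | 1 + ‖j x‖ - ε < ‖j x - y‖} from
        isOpen_lt continuous_const (by fun_prop)) ?_
      have : {y : X | ∀ i, |F i (y - j x)| < ε} = ⋂ i, {y : X | |F i (y - j x)| < ε} := by
        ext p
        simp
      change IsOpen {y : X | ∀ i, |F i (y - j x)| < ε}
      rw [this]
      exact isOpen_iInter_of_finite fun i => isOpen_lt (by fun_prop) continuous_const
    obtain ⟨u, hu, huO⟩ := exists_approx hj hO (x := y)
      ⟨by linarith, hy.2⟩ (mem_closedBall_zero_iff.1 hy.1)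
    refine ⟨(u, u), ⟨hu, ?_⟩, fun i => ?_⟩
    · have := huO.1
      rwa [← map_sub, hj.norm_eq, hj.norm_eq] at this
    · have := huO.2 i
      rw [← map_sub, hF2] at this
      exact ⟨this, this⟩
  · intro h W hW x0 hx0 η hη
    have hWb : W ⊆ closedBall 0 1 := by
      obtain ⟨U, _, rfl⟩ := hW
      exact inter_subset_left
    obtain ⟨n, F, δ, hδ, hF1, hF⟩ := exists_basic hW hx0
    have hx01 : ‖x0‖ ≤ 1 := mem_closedBall_zero_iff.1 (hWb hx0)
    obtain ⟨x, hx, hxO⟩ := exists_approx hj (isOpen_ball (x := x0) (ε := min (δ / 2) (η / 4)))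
      (x := x0) (mem_ball_self (by positivity)) hx01
    rw [mem_ball, dist_eq_norm] at hxO
    obtain ⟨k, hk⟩ := exists_nat_one_div_lt (show 0 < min (η / 4) (δ / 2) by positivity)
    have h1 := (cov_iff _ _ _ _ _).1 (h x n k hx) _ (mem_K hj hF1)
    obtain ⟨p, ⟨hp1, hp2⟩, hn⟩ := h1
    refine ⟨j p.1, ?_, ?_⟩
    · refine hF _ (by rw [hj.norm_eq]; exact hp1.le) fun i => ?_
      have e1 := (hn i).1
      have e2 : |F i (j x - x0)| < δ / 2 := by
        have h3 : |F i (j x - x0)| ≤ ‖j x - x0‖ := by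
          rw [← Real.norm_eq_abs]
          exact (F i).le_of_opNorm_le (hF1 i) _ |>.trans (by rw [one_mul])
        exact h3.trans_lt (hxO.trans_le (min_le_left _ _))
      have e3 : F i (j p.1 - x0) = F i (j (p.1 - x)) + F i (j x - x0) := by
        rw [map_sub j, ← map_add]
        congr 1
        abel
      rw [e3]
      calc |F i (j (p.1 - x)) + F i (j x - x0)| ≤ |F i (j (p.1 - x))| + |F i (j x - x0)| :=
            abs_add_le _ _
        _ < δ / 2 + δ / 2 := add_lt_add (e1.trans (hk.trans_le (min_le_right _ _))) e2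
        _ = δ := by ring
    · have e1 := hk.trans_le (min_le_left _ _)
      have e2 := hxO.trans_le (min_le_right _ _)
      have e3 : μ.1 (x - p.1) = ‖j x - j p.1‖ := by rw [← hj.norm_eq, map_sub]
      have e4 : ‖j x - j p.1‖ ≤ ‖j x - x0‖ + ‖x0 - j p.1‖ := by
        have := norm_add_le (j x - x0) (x0 - j p.1)
        rwa [sub_add_sub_cancel] at this
      have e5 : ‖x0‖ ≤ ‖j x‖ + ‖j x - x0‖ := by
        have := norm_sub_le (j x) (j x - x0)
        rwa [sub_sub_cancel] at this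
      rw [hj.norm_eq] at e5
      linarith

end Model

end Pool.Agent.X171.Codes
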