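import Pool.Agent.X171.Codes

/-!
# Every pseudonorm has a completion

On `ℕ →₀ ℝ` consider the seminorm `p x = inf_u (μ u + ∑ i, |x i - u i| * μ (e i))`.
-/

set_option autoImplicit false

open Set Metric Filter Topology

namespace Pool.Agent.X171.Codes

/-- the inclusion of `V` -/
noncomputable def inc : V →+ (ℕ →₀ ℝ) :=
  Finsupp.mapRange.addMonoidHom (algebraMap ℚ ℝ : ℚ →+* ℝ).toAddMonoidHom

lemma inc_apply (v : V) (i : ℕ) : inc v i = (v i : ℝ) := rfl

lemma inc_smul (q : ℚ) (v : V) : inc (q • v) = (q : ℝ) • inc v := by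
  ext i
  simp [inc_apply]

lemma inc_single (i : ℕ) (q : ℚ) : inc (Finsupp.single i q) = Finsupp.single i (q : ℝ) := by
  ext k
  rw [inc_apply, Finsupp.single_apply, Finsupp.single_apply]
  split_ifs <;> simp

variable (μ : Pn)

/-- the weighted `ℓ₁` norm -/
noncomputable def w (x : ℕ →₀ ℝ) : ℝ := x.sum fun i a => |a| * μ.1 (Finsupp.single i 1)

lemma w_eq {x : ℕ →₀ ℝ} {s : Finset ℕ} (hs : x.support ⊆ s) :
    w μ x = ∑ i ∈ s, |x i| * μ.1 (Finsupp.single i 1) :=
  Finsupp.sum_of_support_subset _ hs _ (by simp)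

lemma w_nonneg (x : ℕ →₀ ℝ) : 0 ≤ w μ x :=
  Finset.sum_nonneg fun _ _ => mul_nonneg (abs_nonneg _) (μ.2.1 _)

lemma w_zero : w μ 0 = 0 := by simp [w]

lemma w_add_le (x y : ℕ →₀ ℝ) : w μ (x + y) ≤ w μ x + w μ y := by
  classical
  rw [w_eq μ (s := x.support ∪ y.support) Finsupp.support_add,
    w_eq μ (x := x) (s := x.support ∪ y.support) Finset.subset_union_left,
    w_eq μ (x := y) (s := x.support ∪ y.support) Finset.subset_union_right,
    ← Finset.sum_add_distrib]
  refine Finset.sum_le_sum fun i _ => ?_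
  rw [← add_mul]
  exact mul_le_mul_of_nonneg_right (abs_add_le _ _) (μ.2.1 _)

lemma w_smul (t : ℝ) (x : ℕ →₀ ℝ) : w μ (t • x) = |t| * w μ x := by
  rw [w_eq μ (s := x.support) Finsupp.support_smul, w_eq μ (x := x) (s := x.support) le_rfl,
    Finset.mul_sum]
  refine Finset.sum_congr rfl fun i _ => ?_
  rw [Finsupp.smul_apply, smul_eq_mul, abs_mul, mul_assoc]

lemma mu_zero : μ.1 0 = 0 := by
  have := μ.2.2.2 0 0
  simpa using this

lemma mu_le_w (v : V) : μ.1 v ≤ w μ (inc v) := by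
  have h1 : v = ∑ i ∈ v.support, Finsupp.single i (v i) := (Finsupp.sum_single v).symm
  have h2 : μ.1 (∑ i ∈ v.support, Finsupp.single i (v i)) ≤
      ∑ i ∈ v.support, μ.1 (Finsupp.single i (v i)) :=
    Finset.le_sum_of_subadditive _ (mu_zero μ).le μ.2.2.1 _ _
  rw [← h1] at h2
  refine h2.trans ?_
  rw [w_eq μ (x := inc v) (s := v.support) (fun i hi => by
    rw [Finsupp.mem_support_iff, inc_apply] at hi
    rw [Finsupp.mem_support_iff]
    exact fun h => hi (by rw [h, Rat.cast_zero]))]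
  refine Finset.sum_le_sum fun i _ => ?_
  have h3 : (Finsupp.single i (v i) : V) = v i • Finsupp.single i 1 := by
    rw [Finsupp.smul_single, smul_eq_mul, mul_one]
  rw [h3, μ.2.2.2, inc_apply]

/-- the seminorm -/
noncomputable def pp (x : ℕ →₀ ℝ) : ℝ := ⨅ u : V, (μ.1 u + w μ (x - inc u))

lemma pp_bdd (x : ℕ →₀ ℝ) : BddBelow (range fun u : V => μ.1 u + w μ (x - inc u)) :=
  ⟨0, by
    rintro _ ⟨u, rfl⟩
    exact add_nonneg (μ.2.1 _) (w_nonneg μ _)⟩

lemma pp_le (x : ℕ →₀ ℝ) (u : V) : pp μ x ≤ μ.1 u + w μ (x - inc u) := ciInf_le (pp_bdd μ x) u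

lemma pp_nonneg (x : ℕ →₀ ℝ) : 0 ≤ pp μ x :=
  le_ciInf fun _ => add_nonneg (μ.2.1 _) (w_nonneg μ _)

lemma pp_le_w (x : ℕ →₀ ℝ) : pp μ x ≤ w μ x := by
  have := pp_le μ x 0
  rwa [mu_zero, zero_add, map_zero, sub_zero] at this

lemma pp_inc (v : V) : pp μ (inc v) = μ.1 v := by
  apply le_antisymm
  · have := pp_le μ (inc v) v
    rwa [sub_self, w_zero, add_zero] at this
  · refine le_ciInf fun u => ?_
    rw [← map_sub]
    have h1 := mu_le_w μ (v - u)
    have h2 := μ.2.2.1 u (v - u)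
    rw [add_sub_cancel] at h2
    linarith

lemma pp_add_le (x y : ℕ →₀ ℝ) : pp μ (x + y) ≤ pp μ x + pp μ y := by
  refine le_ciInf_add_ciInf fun u v => ?_
  have h1 := pp_le μ (x + y) (u + v)
  have h2 := μ.2.2.1 u v
  have h3 := w_add_le μ (x - inc u) (y - inc v)
  have h4 : x + y - inc (u + v) = (x - inc u) + (y - inc v) := by
    rw [map_add]
    abel
  rw [h4] at h1
  linarith

lemma pp_smul_le (t : ℝ) (x : ℕ →₀ ℝ) : pp μ (t • x) ≤ ‖t‖ * pp μ x := by
  have key : ∀ u : V, pp μ (t • x) ≤ |t| * (μ.1 u + w μ (x - inc u)) := by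
    intro u
    have h : ∀ r : ℝ, pp μ (t • x) ≤ |r| * (μ.1 u + w μ (x - inc u)) + |t - r| * w μ x := by
      intro r
      refine Rat.denseRange_cast.induction_on (p := fun r : ℝ => pp μ (t • x) ≤
        |r| * (μ.1 u + w μ (x - inc u)) + |t - r| * w μ x) r
        (isClosed_le continuous_const (by fun_prop)) fun q => ?_
      have h1 := pp_le μ (t • x) (q • u)
      have h2 : t • x - inc (q • u) = (q : ℝ) • (x - inc u) + (t - q) • x := by
        rw [inc_smul, smul_sub, sub_smul]
        abel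
      have h3 := w_add_le μ ((q : ℝ) • (x - inc u)) ((t - q) • x)
      rw [w_smul, w_smul] at h3
      rw [h2, μ.2.2.2] at h1
      linarith
    have := h t
    rwa [sub_self, abs_zero, zero_mul, add_zero] at this
  rw [Real.norm_eq_abs]
  rcases eq_or_lt_of_le (abs_nonneg t) with h0 | h0
  · rw [← h0, zero_mul]
    have := key 0
    rwa [← h0, zero_mul] at this
  · rw [← div_le_iff₀' h0]
    refine le_ciInf fun u => ?_
    rw [div_le_iff₀' h0]
    exact key u

/-- the seminorm -/
noncomputable def ppSeminorm : Seminorm ℝ (ℕ →₀ ℝ) :=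
  Seminorm.ofSMulLE (pp μ) (le_antisymm ((pp_le_w μ 0).trans (w_zero μ).le) (pp_nonneg μ 0))
    (pp_add_le μ) (pp_smul_le μ)

/-- every pseudonorm has a completion -/
theorem exists_completion : ∃ (X : Type) (_ : NormedAddCommGroup X) (_ : NormedSpace ℝ X)
    (j : V →+ X), IsCompletion μ.1 j := by
  let i1 : SeminormedAddCommGroup (ℕ →₀ ℝ) :=
    (ppSeminorm μ).toAddGroupSeminorm.toSeminormedAddCommGroup
  have hn : ∀ x : ℕ →₀ ℝ, ‖x‖ = pp μ x := fun _ => rfl
  let i2 : NormedSpace ℝ (ℕ →₀ ℝ) := ⟨fun a b => by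
    rw [hn, hn]
    exact pp_smul_le μ a b⟩
  have hd : DenseRange inc := by
    have h1 : ∀ x : ℕ →₀ ℝ, x ∈ (AddMonoidHom.range inc).topologicalClosure := by
      intro x
      induction x using Finsupp.induction_linear with
      | zero => exact AddSubgroup.zero_mem _
      | add x y hx hy => exact AddSubgroup.add_mem _ hx hy
      | single i a =>
        have hc : Continuous fun a : ℝ => (Finsupp.single i a : ℕ →₀ ℝ) := by
          refine LipschitzWith.continuous (K := ⟨μ.1 (Finsupp.single i 1), μ.2.1 _⟩) ?_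
          refine LipschitzWith.of_dist_le_mul fun a b => ?_
          rw [dist_eq_norm, hn, ← Finsupp.single_sub]
          refine (pp_le_w μ _).trans ?_
          rw [w, Finsupp.sum_single_index (by simp), Real.dist_eq, mul_comm]
          rfl
        refine Rat.denseRange_cast.induction_on (p := fun a : ℝ => (Finsupp.single i a : ℕ →₀ ℝ) ∈
          (AddMonoidHom.range inc).topologicalClosure) a ?_ fun q => ?_
        · exact (AddSubgroup.isClosed_topologicalClosure _).preimage hc
        · exact AddSubgroup.le_topologicalClosure _ ⟨Finsupp.single i q, inc_single i q⟩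
    intro x
    exact h1 x
  refine ⟨UniformSpace.Completion (ℕ →₀ ℝ), inferInstance, inferInstance,
    (UniformSpace.Completion.toCompl : (ℕ →₀ ℝ) →+ _).comp inc, inferInstance, ?_, ?_⟩
  · intro v
    change ‖((inc v : ℕ →₀ ℝ) : UniformSpace.Completion (ℕ →₀ ℝ))‖ = _
    rw [UniformSpace.Completion.norm_coe, hn, pp_inc]
  · exact UniformSpace.Completion.denseRange_coe.comp hd (UniformSpace.Completion.continuous_coe _)

end Pool.Agent.X171.Codes
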