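import Pool.Agent.X171.CcsDelta

/-!
# An extreme Delta-point which is not a super Delta-point

The space: `X = {((a, f), (b, h), s) : a, b real, f, h ∈ ℓ_∞, s ∈ c_0}` with the norm
`max (|a| + ‖f‖, |b| + ‖h‖, ‖s‖, |a + b| + sup_m 2^(-m-1) |b - a - s m|)`,
and the point `((1/2, 1/2), (1/2, 1/2), 0)`.
-/

set_option autoImplicit false

open Set Metric Filter Topology

namespace Pool.Agent.X171.ExtDelta

/-- `ℓ_∞` -/
abbrev Y : Type := BoundedContinuousFunction ℕ ℝ

/-- `c_0` -/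
abbrev Z : Type := ZeroAtInftyContinuousMap ℕ ℝ

/-- the underlying vector space -/
abbrev P : Type := (ℝ × Y) × (ℝ × Y) × Z

/-- a bounded sequence -/
noncomputable def bd (u : ℕ → ℝ) (C : ℝ) (h : ∀ m, ‖u m‖ ≤ C) : Y :=
  BoundedContinuousFunction.ofNormedAddCommGroupDiscrete u C h

@[simp] lemma bd_apply (u : ℕ → ℝ) (C : ℝ) (h : ∀ m, ‖u m‖ ≤ C) (m : ℕ) : bd u C h m = u m := rfl

/-- the weights -/
noncomputable def wt : Y := bd (fun m => (1 / 2) ^ (m + 1)) (1 / 2) (by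
  intro m
  rw [Real.norm_of_nonneg (by positivity), pow_succ]
  have : (1 / 2 : ℝ) ^ m ≤ 1 := pow_le_one₀ (by norm_num) (by norm_num)
  linarith)

lemma wt_apply (m : ℕ) : wt m = (1 / 2) ^ (m + 1) := rfl

lemma norm_wt : ‖wt‖ ≤ 1 / 2 := by
  rw [BoundedContinuousFunction.norm_le (by norm_num)]
  intro m
  rw [wt_apply, Real.norm_of_nonneg (by positivity), pow_succ]
  have : (1 / 2 : ℝ) ^ m ≤ 1 := pow_le_one₀ (by norm_num) (by norm_num)
  linarith

/-- the coupling map -/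
noncomputable def K (v : P) : Y :=
  wt * (BoundedContinuousFunction.const ℕ (v.2.1.1 - v.1.1) - v.2.2.toBCF)

lemma K_apply (v : P) (m : ℕ) : K v m = (1 / 2) ^ (m + 1) * (v.2.1.1 - v.1.1 - v.2.2 m) := rfl

lemma K_add (v u : P) : K (v + u) = K v + K u := by
  ext m
  rw [BoundedContinuousFunction.add_apply, K_apply, K_apply, K_apply]
  simp only [Prod.snd_add, Prod.fst_add, ZeroAtInftyContinuousMap.add_apply]
  ring

lemma K_smul (c : ℝ) (v : P) : K (c • v) = c • K v := by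
  ext m
  rw [BoundedContinuousFunction.smul_apply, K_apply, K_apply]
  simp only [Prod.smul_snd, Prod.smul_fst, ZeroAtInftyContinuousMap.smul_apply, smul_eq_mul]
  ring

lemma K_neg (v : P) : K (-v) = -K v := by
  ext m
  rw [BoundedContinuousFunction.neg_apply, K_apply, K_apply]
  simp only [Prod.snd_neg, Prod.fst_neg, ZeroAtInftyContinuousMap.neg_apply]
  ring

lemma norm_K (v : P) : ‖K v‖ ≤ 1 / 2 * (|v.2.1.1 - v.1.1| + ‖v.2.2‖) := by
  unfold K
  refine (norm_mul_le _ _).trans ?_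
  apply mul_le_mul norm_wt _ (norm_nonneg _) (by norm_num)
  refine (norm_sub_le _ _).trans ?_
  rw [ZeroAtInftyContinuousMap.norm_toBCF_eq_norm]
  have : ‖BoundedContinuousFunction.const ℕ (v.2.1.1 - v.1.1)‖ ≤ |v.2.1.1 - v.1.1| := by
    rw [BoundedContinuousFunction.norm_le (abs_nonneg _)]
    intro m
    exact le_rfl
  linarith

/-- the norm -/
noncomputable def N (v : P) : ℝ :=
  max (max (|v.1.1| + ‖v.1.2‖) (|v.2.1.1| + ‖v.2.1.2‖)) (max ‖v.2.2‖ (|v.1.1 + v.2.1.1| + ‖K v‖))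

lemma N_le {v : P} {C : ℝ} : N v ≤ C ↔ |v.1.1| + ‖v.1.2‖ ≤ C ∧ |v.2.1.1| + ‖v.2.1.2‖ ≤ C ∧
    ‖v.2.2‖ ≤ C ∧ |v.1.1 + v.2.1.1| + ‖K v‖ ≤ C := by
  unfold N
  rw [max_le_iff, max_le_iff, max_le_iff]
  tauto

lemma N_self (v : P) : |v.1.1| + ‖v.1.2‖ ≤ N v ∧ |v.2.1.1| + ‖v.2.1.2‖ ≤ N v ∧
    ‖v.2.2‖ ≤ N v ∧ |v.1.1 + v.2.1.1| + ‖K v‖ ≤ N v := N_le.1 le_rfl

lemma N_nonneg (v : P) : 0 ≤ N v := (norm_nonneg _).trans (N_self v).2.2.1

lemma N_smul_le (c : ℝ) (v : P) : N (c • v) ≤ |c| * N v := by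
  have h := N_self v
  have h0 := abs_nonneg c
  rw [N_le]
  refine ⟨?_, ?_, ?_, ?_⟩
  · change |c * v.1.1| + ‖c • v.1.2‖ ≤ _
    rw [abs_mul, norm_smul, Real.norm_eq_abs]
    nlinarith [h.1]
  · change |c * v.2.1.1| + ‖c • v.2.1.2‖ ≤ _
    rw [abs_mul, norm_smul, Real.norm_eq_abs]
    nlinarith [h.2.1]
  · change ‖c • v.2.2‖ ≤ _
    rw [norm_smul, Real.norm_eq_abs]
    nlinarith [h.2.2.1]
  · change |c * v.1.1 + c * v.2.1.1| + ‖K (c • v)‖ ≤ _
    rw [K_smul, norm_smul, Real.norm_eq_abs, ← mul_add, abs_mul]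
    nlinarith [h.2.2.2]

lemma N_smul (c : ℝ) (v : P) : N (c • v) = |c| * N v := by
  apply le_antisymm (N_smul_le c v)
  by_cases hc : c = 0
  · subst hc
    rw [abs_zero, zero_mul]
    exact N_nonneg _
  · have h := N_smul_le c⁻¹ (c • v)
    rw [smul_smul, inv_mul_cancel₀ hc, one_smul, abs_inv] at h
    have hc' : 0 < |c| := abs_pos.2 hc
    calc |c| * N v ≤ |c| * (|c|⁻¹ * N (c • v)) := mul_le_mul_of_nonneg_left h hc'.le
      _ = N (c • v) := by rw [← mul_assoc, mul_inv_cancel₀ hc'.ne', one_mul]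

lemma N_add (v u : P) : N (v + u) ≤ N v + N u := by
  have h := N_self v
  have h' := N_self u
  rw [N_le]
  refine ⟨?_, ?_, ?_, ?_⟩
  · change |v.1.1 + u.1.1| + ‖v.1.2 + u.1.2‖ ≤ _
    linarith [abs_add_le v.1.1 u.1.1, norm_add_le v.1.2 u.1.2, h.1, h'.1]
  · change |v.2.1.1 + u.2.1.1| + ‖v.2.1.2 + u.2.1.2‖ ≤ _
    linarith [abs_add_le v.2.1.1 u.2.1.1, norm_add_le v.2.1.2 u.2.1.2, h.2.1, h'.2.1]
  · change ‖v.2.2 + u.2.2‖ ≤ _
    linarith [norm_add_le v.2.2 u.2.2, h.2.2.1, h'.2.2.1]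
  · change |(v.1.1 + u.1.1) + (v.2.1.1 + u.2.1.1)| + ‖K (v + u)‖ ≤ _
    rw [K_add, add_add_add_comm]
    linarith [abs_add_le (v.1.1 + v.2.1.1) (u.1.1 + u.2.1.1), norm_add_le (K v) (K u),
      h.2.2.2, h'.2.2.2]

lemma eq_zero_of_N {v : P} (hv : N v = 0) : v = 0 := by
  have h := N_self v
  rw [hv] at h
  have h1 : v.1.1 = 0 := by
    have := abs_nonneg v.1.1
    have := norm_nonneg v.1.2
    exact abs_eq_zero.1 (by linarith [h.1])
  have h2 : v.1.2 = 0 := by
    have := abs_nonneg v.1.1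
    have := norm_nonneg v.1.2
    exact norm_eq_zero.1 (by linarith [h.1])
  have h3 : v.2.1.1 = 0 := by
    have := abs_nonneg v.2.1.1
    have := norm_nonneg v.2.1.2
    exact abs_eq_zero.1 (by linarith [h.2.1])
  have h4 : v.2.1.2 = 0 := by
    have := abs_nonneg v.2.1.1
    have := norm_nonneg v.2.1.2
    exact norm_eq_zero.1 (by linarith [h.2.1])
  have h5 : v.2.2 = 0 := norm_eq_zero.1 (le_antisymm h.2.2.1 (norm_nonneg _))
  exact Prod.ext (Prod.ext h1 h2) (Prod.ext (Prod.ext h3 h4) h5)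

/-- the space: a copy of `P` with the norm `N` -/
structure X : Type where
  /-- the vector -/
  v : P

/-- the bijection -/
def eX : X ≃ P := ⟨X.v, X.mk, fun _ => rfl, fun _ => rfl⟩

noncomputable instance : AddCommGroup X := eX.addCommGroup
noncomputable instance : Module ℝ X := eX.module ℝ
noncomputable instance : Norm X := ⟨fun x => N x.v⟩

lemma norm_def (x : X) : ‖x‖ = N x.v := rfl
lemma add_v (x y : X) : (x + y).v = x.v + y.v := rfl
lemma sub_v (x y : X) : (x - y).v = x.v - y.v := rfl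
lemma smul_v (c : ℝ) (x : X) : (c • x).v = c • x.v := rfl
lemma zero_v : (0 : X).v = 0 := rfl

lemma core : NormedSpace.Core ℝ X where
  norm_nonneg x := N_nonneg x.v
  norm_smul c x := N_smul c x.v
  norm_triangle x y := N_add x.v y.v
  norm_eq_zero_iff x := by
    constructor
    · intro hx
      have := eq_zero_of_N hx
      exact eX.injective this
    · rintro rfl
      have := N_smul 0 (0 : P)
      rw [smul_zero, abs_zero, zero_mul] at this
      exact this

noncomputable instance : NormedAddCommGroup X := NormedAddCommGroup.ofCore core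
noncomputable instance : NormedSpace ℝ X := NormedSpace.ofCore core

/-- the linear bijection -/
noncomputable def eL : X ≃ₗ[ℝ] P :=
  { eX with
    map_add' := fun _ _ => rfl
    map_smul' := fun _ _ => rfl }

lemma eL_apply (x : X) : eL x = x.v := rfl

/-- the isomorphism of Banach spaces -/
noncomputable def eC : X ≃L[ℝ] P :=
  eL.toContinuousLinearEquivOfBounds 1 4 (by
    intro x
    rw [one_mul, norm_def, eL_apply]
    have h := N_self x.v
    have h1 := abs_nonneg x.v.1.1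
    have h2 := norm_nonneg x.v.1.2
    have h3 := abs_nonneg x.v.2.1.1
    have h4 := norm_nonneg x.v.2.1.2
    rw [Prod.norm_def, Prod.norm_def, Prod.norm_def, Prod.norm_def, Real.norm_eq_abs,
      Real.norm_eq_abs]
    refine max_le (max_le ?_ ?_) (max_le (max_le ?_ ?_) ?_)
    · linarith [h.1]
    · linarith [h.1]
    · linarith [h.2.1]
    · linarith [h.2.1]
    · exact h.2.2.1) (by
    intro v
    rw [norm_def]
    change N v ≤ _
    have h1 : |v.1.1| ≤ ‖v‖ := (norm_fst_le v.1).trans (norm_fst_le v)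
    have h2 : ‖v.1.2‖ ≤ ‖v‖ := (norm_snd_le v.1).trans (norm_fst_le v)
    have h3 : |v.2.1.1| ≤ ‖v‖ := ((norm_fst_le v.2.1).trans (norm_fst_le v.2)).trans (norm_snd_le v)
    have h4 : ‖v.2.1.2‖ ≤ ‖v‖ := ((norm_snd_le v.2.1).trans (norm_fst_le v.2)).trans (norm_snd_le v)
    have h5 : ‖v.2.2‖ ≤ ‖v‖ := (norm_snd_le v.2).trans (norm_snd_le v)
    have h6 := norm_K v
    have h8 := abs_add_le v.1.1 v.2.1.1
    have h9 := norm_nonneg v
    have h10 : |v.2.1.1 - v.1.1| ≤ |v.2.1.1| + |v.1.1| := by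
      have := abs_add_le v.2.1.1 (-v.1.1)
      rwa [abs_neg, ← sub_eq_add_neg] at this
    rw [N_le]
    refine ⟨?_, ?_, ?_, ?_⟩ <;> linarith)

instance : CompleteSpace X := by
  rw [completeSpace_congr (e := eC.toEquiv) eC.isUniformEmbedding]
  infer_instance

/-- the point -/
noncomputable def x0 : X :=
  ⟨((1 / 2, BoundedContinuousFunction.const ℕ (1 / 2)),
    (1 / 2, BoundedContinuousFunction.const ℕ (1 / 2)), 0)⟩

lemma norm_half : ‖(BoundedContinuousFunction.const ℕ (1 / 2) : Y)‖ = 1 / 2 := by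
  apply le_antisymm
  · rw [BoundedContinuousFunction.norm_le (by norm_num)]
    intro m
    change ‖(1 / 2 : ℝ)‖ ≤ 1 / 2
    rw [Real.norm_of_nonneg (by norm_num)]
  · have := (BoundedContinuousFunction.const ℕ (1 / 2) : Y).norm_coe_le_norm 0
    change ‖(1 / 2 : ℝ)‖ ≤ _ at this
    rwa [Real.norm_of_nonneg (by norm_num)] at this

lemma K_x0 : K x0.v = 0 := by
  ext m
  rw [K_apply]
  change (1 / 2 : ℝ) ^ (m + 1) * (1 / 2 - 1 / 2 - 0) = 0
  ring

lemma norm_x0 : ‖x0‖ = 1 := by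
  rw [norm_def]
  apply le_antisymm
  · rw [N_le, K_x0]
    refine ⟨?_, ?_, ?_, ?_⟩
    · change |(1 / 2 : ℝ)| + ‖(BoundedContinuousFunction.const ℕ (1 / 2) : Y)‖ ≤ 1
      rw [norm_half, abs_of_pos (by norm_num)]
      norm_num
    · change |(1 / 2 : ℝ)| + ‖(BoundedContinuousFunction.const ℕ (1 / 2) : Y)‖ ≤ 1
      rw [norm_half, abs_of_pos (by norm_num)]
      norm_num
    · change ‖(0 : Z)‖ ≤ 1
      simp
    · change |(1 / 2 : ℝ) + 1 / 2| + ‖(0 : Y)‖ ≤ 1
      rw [norm_zero, abs_of_pos (by norm_num)]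
      norm_num
  · have h := (N_self x0.v).1
    change |(1 / 2 : ℝ)| + ‖(BoundedContinuousFunction.const ℕ (1 / 2) : Y)‖ ≤ _ at h
    rw [norm_half, abs_of_pos (by norm_num)] at h
    linarith

/-- A convenient criterion for extreme points of the unit ball. -/
lemma mem_ext {E : Type*} [NormedAddCommGroup E] [NormedSpace ℝ E] {x : E} (hx : ‖x‖ ≤ 1)
    (h : ∀ u : E, ‖x + u‖ ≤ 1 → ‖x - u‖ ≤ 1 → u = 0) :
    x ∈ extremePoints ℝ (closedBall (0 : E) 1) := by
  refine ⟨mem_closedBall_zero_iff.2 hx, ?_⟩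
  rintro a ha b hb ⟨p, q, hp, hq, hpq, rfl⟩
  rw [mem_closedBall_zero_iff] at ha hb
  -- the vector `min p q • (a - b)`
  set t := min p q with ht
  have ht0 : 0 < t := lt_min hp hq
  have htp : t ≤ p := min_le_left _ _
  have htq : t ≤ q := min_le_right _ _
  have key : ∀ r : ℝ, |r| ≤ t → ‖p • a + q • b + r • (a - b)‖ ≤ 1 := by
    intro r hr
    rw [abs_le] at hr
    have e : p • a + q • b + r • (a - b) = (p + r) • a + (q - r) • b := by module
    rw [e]
    calc ‖(p + r) • a + (q - r) • b‖ ≤ ‖(p + r) • a‖ + ‖(q - r) • b‖ := norm_add_le _ _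
      _ = (p + r) * ‖a‖ + (q - r) * ‖b‖ := by
          rw [norm_smul, norm_smul, Real.norm_of_nonneg (by linarith),
            Real.norm_of_nonneg (by linarith)]
      _ ≤ (p + r) * 1 + (q - r) * 1 := by
          apply add_le_add <;> apply mul_le_mul_of_nonneg_left <;> linarith
      _ = 1 := by linarith
  have hu := h (t • (a - b)) (key t (by rw [abs_of_pos ht0])) (by
    have := key (-t) (by rw [abs_neg, abs_of_pos ht0])
    rwa [neg_smul, ← sub_eq_add_neg] at this)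
  have hab : a = b := by
    rw [smul_eq_zero] at hu
    rcases hu with hu | hu
    · exact absurd hu ht0.ne'
    · exact sub_eq_zero.1 hu
  subst hab
  rw [← add_smul, hpq, one_smul]

lemma two_le (c t : ℝ) : 2 * c ≤ |c + t| + |c - t| := by
  have h1 := le_abs_self (c + t)
  have h2 := le_abs_self (c - t)
  linarith

lemma x0_ext : x0 ∈ extremePoints ℝ (closedBall (0 : X) 1) := by
  apply mem_ext norm_x0.le
  intro u h1 h2
  rw [norm_def, N_le] at h1 h2
  obtain ⟨h1a, h1b, -, h1c⟩ := h1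
  obtain ⟨h2a, h2b, -, h2c⟩ := h2
  -- the coupling
  have k1 : K (x0 + u).v = K u.v := by
    rw [add_v, K_add, K_x0, zero_add]
  have k2 : ‖K (x0 - u).v‖ = ‖K u.v‖ := by
    rw [sub_v, sub_eq_add_neg, K_add, K_neg, K_x0, zero_add, norm_neg]
  rw [k1] at h1c
  rw [k2] at h2c
  have c1 : (x0 + u).v.1.1 + (x0 + u).v.2.1.1 = 1 + (u.v.1.1 + u.v.2.1.1) := by
    change (1 / 2 + u.v.1.1) + (1 / 2 + u.v.2.1.1) = _
    ring
  have c2 : (x0 - u).v.1.1 + (x0 - u).v.2.1.1 = 1 - (u.v.1.1 + u.v.2.1.1) := by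
    change (1 / 2 - u.v.1.1) + (1 / 2 - u.v.2.1.1) = _
    ring
  rw [c1] at h1c
  rw [c2] at h2c
  have hK : K u.v = 0 := by
    have := two_le 1 (u.v.1.1 + u.v.2.1.1)
    exact norm_eq_zero.1 (le_antisymm (by linarith) (norm_nonneg _))
  rw [hK, norm_zero, add_zero, abs_le] at h1c h2c
  have hsum : u.v.1.1 + u.v.2.1.1 = 0 := by linarith [h1c.2, h2c.2]
  have hs : ∀ m, u.v.2.2 m = u.v.2.1.1 - u.v.1.1 := by
    intro m
    have h := DFunLike.congr_fun hK m
    rw [K_apply] at h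
    have h0 : ((1 / 2 : ℝ) ^ (m + 1)) ≠ 0 := by positivity
    have h' : u.v.2.1.1 - u.v.1.1 - u.v.2.2 m = 0 := by
      rcases mul_eq_zero.1 h with h | h
      · exact absurd h h0
      · exact h
    linarith
  have hlim : u.v.2.1.1 - u.v.1.1 = 0 := by
    have h := u.v.2.2.zero_at_infty'
    rw [Filter.cocompact_eq_cofinite, Nat.cofinite_eq_atTop] at h
    have h' : Tendsto (fun m : ℕ => u.v.2.2 m) atTop (𝓝 (u.v.2.1.1 - u.v.1.1)) := by
      simp only [hs]
      exact tendsto_const_nhds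
    exact tendsto_nhds_unique h' h
  have ha : u.v.1.1 = 0 := by linarith
  have hb : u.v.2.1.1 = 0 := by linarith
  have hf : ∀ g : Y, 1 / 2 + ‖BoundedContinuousFunction.const ℕ (1 / 2) + g‖ ≤ 1 →
      1 / 2 + ‖BoundedContinuousFunction.const ℕ (1 / 2) - g‖ ≤ 1 → g = 0 := by
    intro g hg1 hg2
    ext m
    have e1 := (BoundedContinuousFunction.const ℕ (1 / 2) + g).norm_coe_le_norm m
    have e2 := (BoundedContinuousFunction.const ℕ (1 / 2) - g).norm_coe_le_norm m
    change |1 / 2 + g m| ≤ _ at e1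
    change |1 / 2 - g m| ≤ _ at e2
    have e3 := (abs_le.1 (e1.trans (by linarith : _ ≤ (1 / 2 : ℝ)))).2
    have e4 := (abs_le.1 (e2.trans (by linarith : _ ≤ (1 / 2 : ℝ)))).2
    change g m = 0
    linarith
  have hF : u.v.1.2 = 0 := by
    apply hf
    · have : |(x0 + u).v.1.1| = 1 / 2 := by
        change |1 / 2 + u.v.1.1| = 1 / 2
        rw [ha, add_zero, abs_of_pos (by norm_num)]
      rw [this] at h1a
      exact h1a
    · have : |(x0 - u).v.1.1| = 1 / 2 := by
        change |1 / 2 - u.v.1.1| = 1 / 2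
        rw [ha, sub_zero, abs_of_pos (by norm_num)]
      rw [this] at h2a
      exact h2a
  have hH : u.v.2.1.2 = 0 := by
    apply hf
    · have : |(x0 + u).v.2.1.1| = 1 / 2 := by
        change |1 / 2 + u.v.2.1.1| = 1 / 2
        rw [hb, add_zero, abs_of_pos (by norm_num)]
      rw [this] at h1b
      exact h1b
    · have : |(x0 - u).v.2.1.1| = 1 / 2 := by
        change |1 / 2 - u.v.2.1.1| = 1 / 2
        rw [hb, sub_zero, abs_of_pos (by norm_num)]
      rw [this] at h2b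
      exact h2b
  have hS : u.v.2.2 = 0 := by
    ext m
    rw [hs, hlim]
    rfl
  apply eX.injective
  exact Prod.ext (Prod.ext ha hF) (Prod.ext (Prod.ext hb hH) hS)

/-- the truncated constants -/
noncomputable def cut (c : ℝ) (n : ℕ) : Z where
  toFun := fun m => if m < n then c else 0
  continuous_toFun := continuous_of_discreteTopology
  zero_at_infty' := by
    rw [Filter.cocompact_eq_cofinite, Nat.cofinite_eq_atTop]
    apply tendsto_const_nhds.congr'
    filter_upwards [eventually_ge_atTop n] with m hm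
    rw [if_neg (by omega)]

lemma cut_apply (c : ℝ) (n m : ℕ) : cut c n m = if m < n then c else 0 := rfl

lemma norm_cut {c : ℝ} (n : ℕ) (hc : |c| ≤ 1) : ‖cut c n‖ ≤ 1 := by
  rw [← ZeroAtInftyContinuousMap.norm_toBCF_eq_norm, BoundedContinuousFunction.norm_le (by norm_num)]
  intro m
  change ‖if m < n then c else 0‖ ≤ 1
  split_ifs
  · exact hc
  · simp

/-- one dip -/
noncomputable def dip (i : ℕ) : Y := bd (fun m => if m = i then -1 else 1) 1 (by
  intro m
  split_ifs <;> simp)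

lemma norm_dip (i : ℕ) : ‖dip i‖ ≤ 1 := by
  rw [BoundedContinuousFunction.norm_le (by norm_num)]
  intro m
  change ‖if m = i then (-1 : ℝ) else 1‖ ≤ 1
  split_ifs <;> simp

/-- the far points, first kind -/
noncomputable def y1 (ε : ℝ) (n i : ℕ) : X := ⟨((0, dip i), (1 - ε, 0), cut (1 - ε) n)⟩

/-- the far points, second kind -/
noncomputable def y2 (ε : ℝ) (n i : ℕ) : X := ⟨((1 - ε, 0), (0, dip i), cut (-(1 - ε)) n)⟩

lemma norm_y1 {ε : ℝ} {n : ℕ} (i : ℕ) (h0 : 0 ≤ ε) (h1 : ε ≤ 1) (hn : (1 / 2 : ℝ) ^ (n + 1) ≤ ε) :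
    ‖y1 ε n i‖ ≤ 1 := by
  rw [norm_def, N_le]
  refine ⟨?_, ?_, ?_, ?_⟩
  · change |(0 : ℝ)| + ‖dip i‖ ≤ 1
    rw [abs_zero, zero_add]
    exact norm_dip i
  · change |1 - ε| + ‖(0 : Y)‖ ≤ 1
    rw [norm_zero, abs_of_nonneg (by linarith)]
    linarith
  · exact norm_cut n (by rw [abs_of_nonneg] <;> linarith)
  · change |0 + (1 - ε)| + _ ≤ 1
    have : ‖K (y1 ε n i).v‖ ≤ ε := by
      rw [BoundedContinuousFunction.norm_le h0]
      intro m
      rw [K_apply]
      change ‖(1 / 2 : ℝ) ^ (m + 1) * ((1 - ε) - 0 - (if m < n then (1 - ε) else 0))‖ ≤ ε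
      split_ifs with hm
      · simp [h0]
      · rw [sub_zero, sub_zero, Real.norm_of_nonneg (mul_nonneg (by positivity) (by linarith))]
        have e1 : (1 / 2 : ℝ) ^ (m + 1) ≤ (1 / 2 : ℝ) ^ (n + 1) :=
          pow_le_pow_of_le_one (by norm_num) (by norm_num) (by omega)
        have e2 : (0 : ℝ) ≤ (1 / 2 : ℝ) ^ (m + 1) := by positivity
        nlinarith
    rw [zero_add, abs_of_nonneg (by linarith)]
    linarith

lemma norm_y2 {ε : ℝ} {n : ℕ} (i : ℕ) (h0 : 0 ≤ ε) (h1 : ε ≤ 1) (hn : (1 / 2 : ℝ) ^ (n + 1) ≤ ε) :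
    ‖y2 ε n i‖ ≤ 1 := by
  rw [norm_def, N_le]
  refine ⟨?_, ?_, ?_, ?_⟩
  · change |1 - ε| + ‖(0 : Y)‖ ≤ 1
    rw [norm_zero, abs_of_nonneg (by linarith)]
    linarith
  · change |(0 : ℝ)| + ‖dip i‖ ≤ 1
    rw [abs_zero, zero_add]
    exact norm_dip i
  · exact norm_cut n (by rw [abs_neg, abs_of_nonneg] <;> linarith)
  · change |(1 - ε) + 0| + _ ≤ 1
    have : ‖K (y2 ε n i).v‖ ≤ ε := by
      rw [BoundedContinuousFunction.norm_le h0]
      intro m
      rw [K_apply]
      change ‖(1 / 2 : ℝ) ^ (m + 1) * (0 - (1 - ε) - (if m < n then -(1 - ε) else 0))‖ ≤ ε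
      split_ifs with hm
      · simp [h0]
      · rw [zero_sub, sub_zero, mul_neg, norm_neg,
          Real.norm_of_nonneg (mul_nonneg (by positivity) (by linarith))]
        have e1 : (1 / 2 : ℝ) ^ (m + 1) ≤ (1 / 2 : ℝ) ^ (n + 1) :=
          pow_le_pow_of_le_one (by norm_num) (by norm_num) (by omega)
        have e2 : (0 : ℝ) ≤ (1 / 2 : ℝ) ^ (m + 1) := by positivity
        nlinarith
    rw [add_zero, abs_of_nonneg (by linarith)]
    linarith

lemma far1 (ε : ℝ) (n i : ℕ) : 2 ≤ ‖x0 - y1 ε n i‖ := by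
  rw [norm_def]
  have h := (N_self (x0 - y1 ε n i).v).1
  change |1 / 2 - 0| + ‖BoundedContinuousFunction.const ℕ (1 / 2) - dip i‖ ≤ _ at h
  have h2 := (BoundedContinuousFunction.const ℕ (1 / 2) - dip i).norm_coe_le_norm i
  change |1 / 2 - (if i = i then (-1 : ℝ) else 1)| ≤ _ at h2
  rw [if_pos rfl, abs_of_nonneg (by norm_num)] at h2
  rw [abs_of_nonneg (by norm_num)] at h
  linarith

lemma far2 (ε : ℝ) (n i : ℕ) : 2 ≤ ‖x0 - y2 ε n i‖ := by
  rw [norm_def]
  have h := (N_self (x0 - y2 ε n i).v).2.1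
  change |1 / 2 - 0| + ‖BoundedContinuousFunction.const ℕ (1 / 2) - dip i‖ ≤ _ at h
  have h2 := (BoundedContinuousFunction.const ℕ (1 / 2) - dip i).norm_coe_le_norm i
  change |1 / 2 - (if i = i then (-1 : ℝ) else 1)| ≤ _ at h2
  rw [if_pos rfl, abs_of_nonneg (by norm_num)] at h2
  rw [abs_of_nonneg (by norm_num)] at h
  linarith

/-- The mean of the far points is close to `x0`. -/
lemma mean_close {n : ℕ} (hn : 1 ≤ n) :
    ‖(2 * n : ℝ) • x0 - ∑ i ∈ Finset.range n, (y1 (1 / n) n i + y2 (1 / n) n i)‖ ≤ 3 := by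
  have hn' : (0 : ℝ) < n := by exact_mod_cast hn
  set D := (2 * n : ℝ) • x0 - ∑ i ∈ Finset.range n, (y1 (1 / n) n i + y2 (1 / n) n i) with hD
  -- the sum of the points
  have hsum : ∀ k : ℕ, (∑ i ∈ Finset.range k, (y1 (1 / n) n i + y2 (1 / n) n i)).v =
      ((((k : ℝ) * (1 - 1 / (n : ℝ)), ∑ i ∈ Finset.range k, dip i),
        ((k : ℝ) * (1 - 1 / (n : ℝ)), ∑ i ∈ Finset.range k, dip i), 0) : P) := by
    intro k
    induction k with
    | zero =>
      simp only [Finset.range_zero, Finset.sum_empty, Nat.cast_zero, zero_mul]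
      rfl
    | succ k ih =>
      rw [Finset.sum_range_succ, add_v, ih, Finset.sum_range_succ, add_v]
      have e : cut (1 - 1 / n) n + cut (-(1 - 1 / n)) n = 0 := by
        ext m
        rw [ZeroAtInftyContinuousMap.add_apply, cut_apply, cut_apply]
        split_ifs <;> simp
      refine Prod.ext (Prod.ext ?_ ?_) (Prod.ext (Prod.ext ?_ ?_) ?_)
      · change k * (1 - 1 / (n : ℝ)) + (0 + (1 - 1 / (n : ℝ))) = ((k + 1 : ℕ) : ℝ) * (1 - 1 / n)
        push_cast
        ring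
      · change _ + (dip k + 0) = _
        rw [add_zero]
      · change k * (1 - 1 / (n : ℝ)) + ((1 - 1 / (n : ℝ)) + 0) = ((k + 1 : ℕ) : ℝ) * (1 - 1 / n)
        push_cast
        ring
      · change _ + (0 + dip k) = _
        rw [zero_add]
      · change 0 + (cut (1 - 1 / n) n + cut (-(1 - 1 / n)) n) = 0
        rw [e, zero_add]
  have hDv : D.v = ((1, (2 * n : ℝ) • BoundedContinuousFunction.const ℕ (1 / 2) -
      ∑ i ∈ Finset.range n, dip i), (1, (2 * n : ℝ) • BoundedContinuousFunction.const ℕ (1 / 2) -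
      ∑ i ∈ Finset.range n, dip i), 0) := by
    rw [hD, sub_v, smul_v, hsum]
    refine Prod.ext (Prod.ext ?_ ?_) (Prod.ext (Prod.ext ?_ ?_) ?_)
    · change (2 * n : ℝ) * (1 / 2) - n * (1 - 1 / n) = 1
      field_simp
      ring
    · rfl
    · change (2 * n : ℝ) * (1 / 2) - n * (1 - 1 / n) = 1
      field_simp
      ring
    · rfl
    · change (2 * n : ℝ) • (0 : Z) - 0 = 0
      simp
  have hY : ‖(2 * n : ℝ) • BoundedContinuousFunction.const ℕ (1 / 2) -
      ∑ i ∈ Finset.range n, dip i‖ ≤ 2 := by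
    rw [BoundedContinuousFunction.norm_le (by norm_num)]
    intro m
    have e1 : ∀ k : ℕ, (∑ i ∈ Finset.range k, dip i) m = k - (if m < k then 2 else 0) := by
      intro k
      induction k with
      | zero => simp
      | succ k ih =>
        rw [Finset.sum_range_succ, BoundedContinuousFunction.add_apply, ih]
        change _ + (if m = k then (-1 : ℝ) else 1) = _
        push_cast
        rcases lt_trichotomy m k with h | h | h
        · rw [if_pos h, if_neg h.ne, if_pos (by omega)]; ring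
        · rw [if_neg (by omega), if_pos h, if_pos (by omega)]; ring
        · rw [if_neg (by omega), if_neg (by omega), if_neg (by omega)]; ring
    rw [BoundedContinuousFunction.sub_apply, e1]
    change ‖(2 * n : ℝ) * (1 / 2) - _‖ ≤ 2
    split_ifs
    · have : (2 * n : ℝ) * (1 / 2) - (n - 2) = 2 := by ring
      rw [this]
      simp
    · have : (2 * n : ℝ) * (1 / 2) - (n - 0) = 0 := by ring
      rw [this]
      simp
  rw [norm_def, hDv, N_le]
  refine ⟨?_, ?_, ?_, ?_⟩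
  · simp only [abs_one]
    linarith
  · simp only [abs_one]
    linarith
  · simp
  · have hK : K (((1, (2 * n : ℝ) • BoundedContinuousFunction.const ℕ (1 / 2) -
      ∑ i ∈ Finset.range n, dip i), (1, (2 * n : ℝ) • BoundedContinuousFunction.const ℕ (1 / 2) -
      ∑ i ∈ Finset.range n, dip i), 0) : P) = 0 := by
      ext m
      rw [K_apply]
      simp
    rw [hK, norm_zero]
    norm_num

/-- Every slice which contains `x0` contains a point of the ball at distance at least two. -/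
lemma x0_delta (f : X →L[ℝ] ℝ) {c : ℝ} (h : c < f x0) :
    ∃ y : X, ‖y‖ ≤ 1 ∧ c < f y ∧ 2 ≤ ‖x0 - y‖ := by
  by_contra hno
  push Not at hno
  have key : ∀ n : ℕ, 1 ≤ n → (2 * n : ℝ) * (f x0 - c) ≤ 3 * ‖f‖ := by
    intro n hn
    have hn' : (1 : ℝ) ≤ n := by exact_mod_cast hn
    have he0 : (0 : ℝ) ≤ 1 / n := by positivity
    have he1 : (1 : ℝ) / n ≤ 1 := by
      rw [div_le_one (by linarith)]
      exact hn'
    have hpow : (1 / 2 : ℝ) ^ (n + 1) ≤ 1 / n := by
      rw [one_div, inv_pow, ← one_div]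
      apply one_div_le_one_div_of_le (by linarith)
      have : n < 2 ^ n := Nat.lt_two_pow_self
      have h2 : (n : ℝ) < 2 ^ n := by exact_mod_cast this
      rw [pow_succ]
      linarith
    have b1 : ∀ i, f (y1 (1 / n) n i) ≤ c := by
      intro i
      by_contra hc
      push Not at hc
      exact absurd (far1 (1 / n) n i) (not_le.2 (hno _ (norm_y1 i he0 he1 hpow) hc))
    have b2 : ∀ i, f (y2 (1 / n) n i) ≤ c := by
      intro i
      by_contra hc
      push Not at hc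
      exact absurd (far2 (1 / n) n i) (not_le.2 (hno _ (norm_y2 i he0 he1 hpow) hc))
    have s1 : f (∑ i ∈ Finset.range n, (y1 (1 / n) n i + y2 (1 / n) n i)) ≤ 2 * n * c := by
      rw [map_sum]
      calc ∑ i ∈ Finset.range n, f (y1 (1 / n) n i + y2 (1 / n) n i)
          ≤ ∑ i ∈ Finset.range n, (2 * c) := by
            apply Finset.sum_le_sum
            intro i _
            rw [map_add]
            linarith [b1 i, b2 i]
        _ = 2 * n * c := by
            rw [Finset.sum_const, Finset.card_range, nsmul_eq_mul]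
            ring
    have s2 : f ((2 * n : ℝ) • x0 - ∑ i ∈ Finset.range n, (y1 (1 / n) n i + y2 (1 / n) n i)) ≤
        3 * ‖f‖ := by
      calc _ ≤ ‖f ((2 * n : ℝ) • x0 - ∑ i ∈ Finset.range n, (y1 (1 / n) n i + y2 (1 / n) n i))‖ :=
            Real.le_norm_self _
        _ ≤ ‖f‖ * ‖(2 * n : ℝ) • x0 - ∑ i ∈ Finset.range n, (y1 (1 / n) n i + y2 (1 / n) n i)‖ :=
            f.le_opNorm _
        _ ≤ ‖f‖ * 3 := mul_le_mul_of_nonneg_left (mean_close hn) (norm_nonneg _)
        _ = 3 * ‖f‖ := mul_comm _ _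
    rw [map_sub, map_smul, smul_eq_mul] at s2
    linarith
  obtain ⟨n, hn⟩ := exists_nat_gt (3 * ‖f‖ / (f x0 - c))
  have hpos : 0 < f x0 - c := by linarith
  rw [div_lt_iff₀ hpos] at hn
  have h1 := key (n + 1) (by omega)
  push_cast at h1
  have : 0 ≤ (n : ℝ) := Nat.cast_nonneg n
  nlinarith

/-- On a weak neighbourhood of `x0` the distance to `x0` is at most `3 / 2`. -/
lemma near_x0 {y : X} (hy : ‖y‖ ≤ 1) (ha : |y.v.1.1 - 1 / 2| < 1 / 8) (hb : |y.v.2.1.1 - 1 / 2| < 1 / 8) :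
    ‖x0 - y‖ ≤ 3 / 2 := by
  rw [norm_def, N_le] at hy
  rw [norm_def, N_le]
  obtain ⟨y1, y2, y3, y4⟩ := hy
  rw [abs_lt] at ha hb
  have ha' : 3 / 8 ≤ |y.v.1.1| := le_trans (by linarith) (le_abs_self _)
  have hb' : 3 / 8 ≤ |y.v.2.1.1| := le_trans (by linarith) (le_abs_self _)
  refine ⟨?_, ?_, ?_, ?_⟩
  · change |1 / 2 - y.v.1.1| + ‖BoundedContinuousFunction.const ℕ (1 / 2) - y.v.1.2‖ ≤ _
    have h1 : |1 / 2 - y.v.1.1| ≤ 1 / 8 := by rw [abs_le]; constructor <;> linarith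
    have h2 := norm_sub_le (BoundedContinuousFunction.const ℕ (1 / 2)) y.v.1.2
    rw [norm_half] at h2
    linarith
  · change |1 / 2 - y.v.2.1.1| + ‖BoundedContinuousFunction.const ℕ (1 / 2) - y.v.2.1.2‖ ≤ _
    have h1 : |1 / 2 - y.v.2.1.1| ≤ 1 / 8 := by rw [abs_le]; constructor <;> linarith
    have h2 := norm_sub_le (BoundedContinuousFunction.const ℕ (1 / 2)) y.v.2.1.2
    rw [norm_half] at h2
    linarith
  · change ‖0 - y.v.2.2‖ ≤ _
    rw [zero_sub, norm_neg]
    linarith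
  · change |1 / 2 - y.v.1.1 + (1 / 2 - y.v.2.1.1)| + _ ≤ _
    have h1 : |1 / 2 - y.v.1.1 + (1 / 2 - y.v.2.1.1)| ≤ 1 / 4 := by
      rw [abs_le]; constructor <;> linarith
    have h2 := norm_K (x0 - y).v
    have h3 : (x0 - y).v.2.1.1 - (x0 - y).v.1.1 = y.v.1.1 - y.v.2.1.1 := by
      change (1 / 2 - y.v.2.1.1) - (1 / 2 - y.v.1.1) = _
      ring
    have h4 : ‖(x0 - y).v.2.2‖ ≤ 1 := by
      change ‖0 - y.v.2.2‖ ≤ _
      rw [zero_sub, norm_neg]
      linarith
    have h5 : |y.v.1.1 - y.v.2.1.1| ≤ 1 / 4 := by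
      rw [abs_le]; constructor <;> linarith
    rw [h3] at h2
    linarith

end Pool.Agent.X171.ExtDelta
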