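import Mathlib

/-!
# Minimal seminorms over a copy of `ℓ_1(Γ)`

If `T : E → X` is linear and `‖a‖ ≤ p₀ (T a)`, then among the seminorms `p ≤ p₀` with
`‖a‖ ≤ p (T a)` there is a minimal one, and it satisfies
`p y = sup_a (‖a‖ - p (T a - y))` for all `y`.  For `E = ℓ_1(Γ)` it follows that for every `y`
there is a countable `D ⊆ Γ` with `p (y + c T e_i) = p y + |c|` for `i ∉ D`.
-/

set_option autoImplicit false

open Set Filter Topology

namespace Pool.Agent.X171.MinSemi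

variable {E X : Type*} [NormedAddCommGroup E] [NormedSpace ℝ E] [AddCommGroup X] [Module ℝ X]

/-- infimum of a nonempty chain of seminorms -/
lemma chain_inf (c : Set (Seminorm ℝ X)) (hc : IsChain (· ≤ ·) c) (hne : c.Nonempty) :
    ∃ q : Seminorm ℝ X, (∀ p ∈ c, q ≤ p) ∧ ∀ x (r : ℝ), (∀ p ∈ c, r ≤ p x) → r ≤ q x := by
  have : Nonempty c := hne.to_subtype
  have hbdd : ∀ x, BddBelow (range fun p : c => (p : Seminorm ℝ X) x) := fun x =>
    ⟨0, by rintro _ ⟨p, rfl⟩; exact apply_nonneg _ _⟩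
  refine ⟨Seminorm.ofSMulLE (fun x => ⨅ p : c, (p : Seminorm ℝ X) x) ?_ ?_ ?_, ?_, ?_⟩
  · simp
  · intro x y
    have key : ∀ p q : c, (⨅ r : c, (r : Seminorm ℝ X) (x + y)) ≤
        (p : Seminorm ℝ X) x + (q : Seminorm ℝ X) y := by
      intro p q
      rcases hc.total p.2 q.2 with h | h
      · refine (ciInf_le (hbdd _) p).trans ((map_add_le_add _ x y).trans ?_)
        exact add_le_add le_rfl (h y)
      · refine (ciInf_le (hbdd _) q).trans ((map_add_le_add _ x y).trans ?_)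
        exact add_le_add (h x) le_rfl
    have h1 : ∀ q : c, (⨅ r : c, (r : Seminorm ℝ X) (x + y)) - (q : Seminorm ℝ X) y ≤
        ⨅ p : c, (p : Seminorm ℝ X) x := fun q => le_ciInf fun p => by linarith [key p q]
    have h2 : (⨅ r : c, (r : Seminorm ℝ X) (x + y)) - (⨅ p : c, (p : Seminorm ℝ X) x) ≤
        ⨅ q : c, (q : Seminorm ℝ X) y := le_ciInf fun q => by linarith [h1 q]
    linarith
  · intro r x
    rw [Real.mul_iInf_of_nonneg (norm_nonneg _)]
    refine ciInf_mono (hbdd _) fun p => ?_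
    rw [map_smul_eq_mul]
  · intro p hp x
    exact ciInf_le (hbdd x) ⟨p, hp⟩
  · intro x r h
    exact le_ciInf fun p => h p p.2

/-- reduce a seminorm at `y` -/
lemma reduce (p : Seminorm ℝ X) (y : X) (r : ℝ) (hr : 0 ≤ r) :
    ∃ q : Seminorm ℝ X, (∀ x (t : ℝ), q x ≤ p (x - t • y) + r * |t|) ∧
      ∀ x (s : ℝ), (∀ t : ℝ, s ≤ p (x - t • y) + r * |t|) → s ≤ q x := by
  have hnn : ∀ x (t : ℝ), 0 ≤ p (x - t • y) + r * |t| := fun x t =>
    add_nonneg (apply_nonneg _ _) (mul_nonneg hr (abs_nonneg _))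
  have hbdd : ∀ x, BddBelow (range fun t : ℝ => p (x - t • y) + r * |t|) := fun x =>
    ⟨0, by rintro _ ⟨t, rfl⟩; exact hnn x t⟩
  refine ⟨Seminorm.ofSMulLE (fun x => ⨅ t : ℝ, (p (x - t • y) + r * |t|)) ?_ ?_ ?_, ?_, ?_⟩
  · refine le_antisymm ?_ (le_ciInf fun t => hnn 0 t)
    refine (ciInf_le (hbdd 0) 0).trans ?_
    simp
  · intro x z
    have key : ∀ s t : ℝ, (⨅ t : ℝ, (p (x + z - t • y) + r * |t|)) ≤
        (p (x - s • y) + r * |s|) + (p (z - t • y) + r * |t|) := by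
      intro s t
      refine (ciInf_le (hbdd _) (s + t)).trans ?_
      have h1 : x + z - (s + t) • y = (x - s • y) + (z - t • y) := by
        rw [add_smul]
        abel
      rw [h1]
      have h2 := map_add_le_add p (x - s • y) (z - t • y)
      have h3 : r * |s + t| ≤ r * (|s| + |t|) := mul_le_mul_of_nonneg_left (abs_add_le _ _) hr
      linarith [mul_add r |s| |t|]
    have h1 : ∀ t : ℝ, (⨅ t : ℝ, (p (x + z - t • y) + r * |t|)) - (p (z - t • y) + r * |t|) ≤
        ⨅ s : ℝ, (p (x - s • y) + r * |s|) := fun t => le_ciInf fun s => by linarith [key s t]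
    have h2 : (⨅ t : ℝ, (p (x + z - t • y) + r * |t|)) - (⨅ s : ℝ, (p (x - s • y) + r * |s|)) ≤
        ⨅ t : ℝ, (p (z - t • y) + r * |t|) := le_ciInf fun t => by linarith [h1 t]
    linarith
  · intro c x
    rw [Real.mul_iInf_of_nonneg (norm_nonneg _)]
    refine le_ciInf fun t => ?_
    refine (ciInf_le (hbdd _) (c * t)).trans (le_of_eq ?_)
    rw [mul_smul, ← smul_sub, map_smul_eq_mul, abs_mul, Real.norm_eq_abs]
    ring
  · intro x t
    exact ciInf_le (hbdd x) t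
  · intro x s h
    exact le_ciInf h

theorem exists_minimal (T : E →ₗ[ℝ] X) (p₀ : Seminorm ℝ X) (h₀ : ∀ a, ‖a‖ ≤ p₀ (T a)) :
    ∃ p : Seminorm ℝ X, p ≤ p₀ ∧ (∀ a, ‖a‖ ≤ p (T a)) ∧
      ∀ y (ε : ℝ), 0 < ε → ∃ a : E, p (T a - y) + p y - ε < ‖a‖ := by
  obtain ⟨m, hm0, hm⟩ := @zorn_le_nonempty₀ (Seminorm ℝ X)ᵒᵈ _
    {p | ∀ a, ‖a‖ ≤ (OrderDual.ofDual p : Seminorm ℝ X) (T a)} (by
      intro c hcs hc y hy
      obtain ⟨q, hq1, hq2⟩ := chain_inf (X := X) c (hc.symm) ⟨y, hy⟩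
      exact ⟨q, fun a => hq2 _ _ fun p hp => hcs hp a, fun z hz => hq1 z hz⟩) p₀ h₀
  refine ⟨m, hm0, hm.1, ?_⟩
  set p : Seminorm ℝ X := m with hp
  have hp1 : ∀ a, ‖a‖ ≤ p (T a) := hm.1
  have main : ∀ y (ε : ℝ), 0 < ε → ε ≤ p y → ∃ a : E, p (T a - y) + p y - ε < ‖a‖ := by
    intro y ε hε hεy
    by_contra hcon
    push Not at hcon
    obtain ⟨q, hq1, hq2⟩ := reduce p y (p y - ε) (by linarith)
    have hqS : ∀ a, ‖a‖ ≤ q (T a) := by
      intro a
      refine hq2 _ _ fun t => ?_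
      by_cases ht : t = 0
      · rw [ht, zero_smul, sub_zero, abs_zero, mul_zero, add_zero]
        exact hp1 a
      · have h1 := hcon (t⁻¹ • a)
        have h2 : p (T a - t • y) = |t| * p (T (t⁻¹ • a) - y) := by
          rw [← Real.norm_eq_abs, ← map_smul_eq_mul, smul_sub, map_smul, smul_smul,
            mul_inv_cancel₀ ht, one_smul]
        have h3 : ‖a‖ = |t| * ‖t⁻¹ • a‖ := by
          rw [norm_smul, Real.norm_eq_abs, abs_inv, mul_inv_cancel_left₀ (abs_ne_zero.2 ht)]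
        rw [h2, h3]
        have h4 := mul_le_mul_of_nonneg_left h1 (abs_nonneg t)
        linarith [mul_add |t| (p (T (t⁻¹ • a) - y)) (p y - ε),
          mul_comm |t| (p y - ε), mul_sub |t| (p (T (t⁻¹ • a) - y) + p y) ε,
          mul_add |t| (p (T (t⁻¹ • a) - y)) (p y), mul_sub |t| (p y) ε]
    have hqp : q ≤ p := by
      intro x
      have := hq1 x 0
      simpa using this
    have h5 : p ≤ q := hm.2 (y := OrderDual.toDual q) hqS hqp
    have h6 := hq1 y 1
    rw [one_smul, sub_self, map_zero, abs_one, mul_one, zero_add] at h6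
    have := h5 y
    linarith
  intro y ε hε
  by_cases hy : p y = 0
  · refine ⟨0, ?_⟩
    rw [map_zero, zero_sub, map_neg_eq_map, hy, norm_zero]
    linarith
  · have hpos : 0 < p y := lt_of_le_of_ne (apply_nonneg _ _) (Ne.symm hy)
    obtain ⟨a, ha⟩ := main y (min ε (p y)) (lt_min hε hpos) (min_le_right _ _)
    exact ⟨a, by linarith [min_le_left ε (p y)]⟩

/-- the norm of `ℓ_1` -/
lemma norm_l1 {I : Type*} (a : lp (fun _ : I => ℝ) 1) : ‖a‖ = ∑' i, |a i| := by
  have h := lp.norm_eq_tsum_rpow (p := 1) (E := fun _ : I => ℝ) (by norm_num) a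
  simpa using h

lemma summable_l1 {I : Type*} (a : lp (fun _ : I => ℝ) 1) : Summable fun i => |a i| := by
  have h := (lp.memℓp a).summable (p := 1) (by norm_num)
  simpa using h

lemma countable_supp {I : Type*} (a : lp (fun _ : I => ℝ) 1) : {i | a i ≠ 0}.Countable := by
  have h := (summable_l1 a).countable_support
  refine h.mono fun i hi => ?_
  rw [Function.mem_support]
  exact abs_ne_zero.2 hi

lemma norm_add_single {I : Type*} [DecidableEq I] (a : lp (fun _ : I => ℝ) 1) (i : I)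
    (hi : a i = 0) (c : ℝ) : ‖a + lp.single 1 i c‖ = ‖a‖ + |c| := by
  have h1 : |c| = ‖(lp.single 1 i c : lp (fun _ : I => ℝ) 1)‖ := by
    rw [lp.norm_single (by norm_num), Real.norm_eq_abs]
  rw [h1, norm_l1, norm_l1, norm_l1, ← (summable_l1 a).tsum_add (summable_l1 _)]
  refine tsum_congr fun j => ?_
  rw [lp.coeFn_add, Pi.add_apply]
  by_cases hj : j = i
  · rw [hj, hi, zero_add, abs_zero, zero_add]
  · have : (lp.single 1 i c : lp (fun _ : I => ℝ) 1) j = 0 := by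
      rw [lp.coeFn_single, Pi.single_eq_of_ne hj]
    rw [this, add_zero, abs_zero, add_zero]

theorem exists_l1_seminorm {I : Type*} [DecidableEq I] (T : lp (fun _ : I => ℝ) 1 →ₗ[ℝ] X)
    (p₀ : Seminorm ℝ X) (h₀ : ∀ a, ‖a‖ ≤ p₀ (T a)) :
    ∃ p : Seminorm ℝ X, p ≤ p₀ ∧ (∀ a, p (T a) = ‖a‖) ∧
      ∀ y, ∃ D : Set I, D.Countable ∧ ∀ i ∉ D, ∀ c : ℝ,
        p y + |c| ≤ p (y + c • T (lp.single 1 i 1)) := by
  obtain ⟨p, hp0, hp1, hp2⟩ := exists_minimal T p₀ h₀
  refine ⟨p, hp0, fun b => le_antisymm ?_ (hp1 b), ?_⟩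
  · refine le_of_forall_pos_le_add fun ε hε => ?_
    obtain ⟨a, ha⟩ := hp2 (T b) ε hε
    rw [← map_sub] at ha
    have h1 := hp1 (a - b)
    have h2 : ‖a‖ ≤ ‖a - b‖ + ‖b‖ := by
      have := norm_add_le (a - b) b
      rwa [sub_add_cancel] at this
    linarith
  · intro y
    choose a ha using fun n : ℕ => hp2 y (1 / ((n : ℝ) + 1)) (by positivity)
    refine ⟨⋃ n, {i | a n i ≠ 0}, countable_iUnion fun n => countable_supp _, ?_⟩
    intro i hi c
    have hi' : ∀ n, a n i = 0 := by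
      intro n
      by_contra h
      exact hi (mem_iUnion.2 ⟨n, h⟩)
    refine le_of_forall_pos_le_add fun ε hε => ?_
    obtain ⟨n, hn⟩ := exists_nat_one_div_lt hε
    have h1 := hp1 (a n + lp.single 1 i c)
    rw [norm_add_single _ _ (hi' n), map_add] at h1
    have h2 : T (lp.single 1 i c) = c • T (lp.single 1 i 1) := by
      rw [← map_smul, ← lp.single_smul, smul_eq_mul, mul_one]
    rw [h2] at h1
    have h3 : p (T (a n) + c • T (lp.single 1 i 1)) ≤
        p (T (a n) - y) + p (y + c • T (lp.single 1 i 1)) := by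
      have := map_add_le_add p (T (a n) - y) (y + c • T (lp.single 1 i 1))
      have h4 : T (a n) - y + (y + c • T (lp.single 1 i 1)) =
        T (a n) + c • T (lp.single 1 i 1) := by abel
      rwa [h4] at this
    have h5 := ha n
    linarith

end Pool.Agent.X171.MinSemi

namespace Pool.Agent.X171.MinSemi

open Cardinal

/-- the renorming -/
theorem renorming {X I : Type*} [NormedAddCommGroup X] [NormedSpace ℝ X] (Z : Submodule ℝ X)
    (T : lp (fun _ : I => ℝ) 1 ≃L[ℝ] Z) :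
    ∃ N : Seminorm ℝ X, (∃ b B : ℝ, 0 < b ∧ 0 < B ∧ ∀ x, b * ‖x‖ ≤ N x ∧ N x ≤ B * ‖x‖) ∧
      ∃ e : I → X, (∀ i, N (e i) = 1) ∧ ∀ y, ∃ D : Set I, D.Countable ∧ ∀ i ∉ D, ∀ c : ℝ,
        N (y + c • e i) = N y + |c| := by
  classical
  obtain ⟨C, hC, hCT⟩ := (T.symm : Z →L[ℝ] lp (fun _ : I => ℝ) 1).bound
  obtain ⟨M, hM, hMT⟩ := (T : lp (fun _ : I => ℝ) 1 →L[ℝ] Z).bound
  set T' : lp (fun _ : I => ℝ) 1 →ₗ[ℝ] X := Z.subtype ∘ₗ (T : lp (fun _ : I => ℝ) 1 →ₗ[ℝ] Z)
    with hT'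
  have hT'mem : ∀ a, T' a ∈ Z := fun a => (T a).2
  have hlow : ∀ a, ‖a‖ ≤ C * ‖T' a‖ := by
    intro a
    have h1 := hCT (T a)
    simp only [ContinuousLinearEquiv.coe_coe, ContinuousLinearEquiv.symm_apply_apply] at h1
    exact h1
  have hup : ∀ a, ‖T' a‖ ≤ M * ‖a‖ := fun a => hMT a
  set p₀ : Seminorm ℝ X := Real.toNNReal C • normSeminorm ℝ X with hp₀
  have hp₀x : ∀ x, p₀ x = C * ‖x‖ := by
    intro x
    have h1 : p₀ x = (Real.toNNReal C : ℝ) * ‖x‖ := rfl
    rw [h1, Real.coe_toNNReal C hC.le]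
  obtain ⟨p, hp0, hp1, hp2⟩ := exists_l1_seminorm T' p₀ (fun a => (hlow a).trans (hp₀x _).ge)
  have hpC : ∀ x, p x ≤ C * ‖x‖ := fun x => (hp0 x).trans (hp₀x x).le
  set d : Seminorm ℝ X := (normSeminorm ℝ (X ⧸ Z)).comp Z.mkQ with hd
  have hdx : ∀ x, d x = ‖(Submodule.Quotient.mk x : X ⧸ Z)‖ := fun x => rfl
  have hdZ : ∀ z ∈ Z, ∀ x, d (x + z) = d x := by
    intro z hz x
    rw [hdx, hdx, Submodule.Quotient.mk_add, (Submodule.Quotient.mk_eq_zero Z).2 hz, add_zero]
  refine ⟨p + d, ⟨(C * M + 1 + M)⁻¹, C + 1, by positivity, by positivity, ?_⟩,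
    fun i => T' (lp.single 1 i 1), ?_, ?_⟩
  · intro x
    have hN : (p + d) x = p x + d x := rfl
    rw [hN]
    constructor
    · rw [inv_mul_le_iff₀ (by positivity)]
      have key : ∀ η : ℝ, 0 < η → ‖x‖ ≤ M * p x + (C * M + 1) * (d x + η) := by
        intro η hη
        obtain ⟨w, hw1, hw2⟩ := Submodule.Quotient.norm_mk_lt (Submodule.Quotient.mk x : X ⧸ Z) hη
        have hz : x - w ∈ Z := by
          rw [← Submodule.Quotient.mk_eq_zero, Submodule.Quotient.mk_sub, hw1, sub_self]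
        obtain ⟨a, ha⟩ : ∃ a, T' a = x - w := ⟨T.symm ⟨x - w, hz⟩, by
          rw [hT']
          simp⟩
        have h1 : ‖a‖ ≤ p x + C * ‖w‖ := by
          rw [← hp1 a, ha]
          have := map_sub_le_add p x w
          exact this.trans (add_le_add le_rfl (hpC w))
        have h2 : ‖x‖ ≤ ‖x - w‖ + ‖w‖ := by
          have := norm_add_le (x - w) w
          rwa [sub_add_cancel] at this
        have h3 : ‖x - w‖ ≤ M * ‖a‖ := ha ▸ hup a
        have h4 : M * ‖a‖ ≤ M * (p x + C * ‖w‖) := mul_le_mul_of_nonneg_left h1 hM.le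
        have h5 : ‖w‖ ≤ d x + η := hw2.le
        have h6 : (C * M + 1) * ‖w‖ ≤ (C * M + 1) * (d x + η) :=
          mul_le_mul_of_nonneg_left h5 (by positivity)
        have h7 : M * (p x + C * ‖w‖) + ‖w‖ = M * p x + (C * M + 1) * ‖w‖ := by ring
        linarith
      have h8 : ‖x‖ ≤ M * p x + (C * M + 1) * d x := by
        refine le_of_forall_pos_le_add fun ε hε => ?_
        have h9 := key (ε / (C * M + 1)) (by positivity)
        have h10 : (C * M + 1) * (d x + ε / (C * M + 1)) = (C * M + 1) * d x + ε := by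
          field_simp
        linarith
      have h11 : 0 ≤ p x := apply_nonneg _ _
      have h12 : 0 ≤ d x := apply_nonneg _ _
      have h13 : 0 ≤ (C * M + 1) * p x := by positivity
      have h14 : 0 ≤ M * d x := by positivity
      nlinarith
    · have h1 : d x ≤ ‖x‖ := Submodule.Quotient.norm_mk_le Z x
      linarith [hpC x]
  · intro i
    have h1 : (p + d) (T' (lp.single 1 i 1)) = p (T' (lp.single 1 i 1)) +
      d (T' (lp.single 1 i 1)) := rfl
    rw [h1, hp1, lp.norm_single (by norm_num), norm_one]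
    have h2 := hdZ _ (hT'mem (lp.single 1 i 1)) 0
    rw [zero_add, map_zero] at h2
    rw [h2, add_zero]
  · intro y
    obtain ⟨D, hD, hDy⟩ := hp2 y
    refine ⟨D, hD, fun i hi c => ?_⟩
    have h1 : (p + d) (y + c • T' (lp.single 1 i 1)) = p (y + c • T' (lp.single 1 i 1)) +
      d (y + c • T' (lp.single 1 i 1)) := rfl
    have h2 : (p + d) y = p y + d y := rfl
    rw [h1, h2, hdZ _ (Z.smul_mem c (hT'mem _))]
    have h3 := hDy i hi c
    have h4 : p (y + c • T' (lp.single 1 i 1)) ≤ p y + |c| := by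
      refine (map_add_le_add p _ _).trans ?_
      rw [map_smul_eq_mul, hp1, lp.norm_single (by norm_num), norm_one, mul_one,
        Real.norm_eq_abs]
    linarith

end Pool.Agent.X171.MinSemi
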