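import Mathlib

/-!
# A `κ`-octahedral Banach space without `ℓ_1(ω_1)`

Finitely supported functions on `ℕ × Γ` (`Γ` the ordinal `κ⁺`) with the norm
`sup_t Σ_{p ∈ t} q_n^(number of (n, ζ) ∈ t with ζ > ξ) |x p|`, `p = (n, ξ)`, `q_n = 1 - 1/(n+2)`.
-/

set_option autoImplicit false
set_option linter.unusedSectionVars false

open Set Filter Topology

namespace Pool.Agent.X171.Octa

universe u

variable {Γ : Type u} [LinearOrder Γ]

/-- the ratio of level `n` -/
noncomputable def q (n : ℕ) : ℝ := 1 - 1 / ((n : ℝ) + 2)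

lemma q_pos (n : ℕ) : 0 < q n := by
  unfold q
  have h : (0 : ℝ) < (n : ℝ) + 2 := by positivity
  rw [sub_pos, div_lt_one h]
  have : (0 : ℝ) ≤ n := Nat.cast_nonneg n
  linarith

lemma q_lt_one (n : ℕ) : q n < 1 := by
  unfold q
  have h : (0 : ℝ) < (n : ℝ) + 2 := by positivity
  have : 0 < 1 / ((n : ℝ) + 2) := by positivity
  linarith

/-- the number of points of `t` on the same level strictly above `p` -/
noncomputable def rk (t : Finset (ℕ × Γ)) (p : ℕ × Γ) : ℕ :=
  (t.filter (fun r => r.1 = p.1 ∧ p.2 < r.2)).card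

/-- the weighted sum over the finite set `t` -/
noncomputable def F (t : Finset (ℕ × Γ)) (x : (ℕ × Γ) →₀ ℝ) : ℝ :=
  ∑ p ∈ t, q p.1 ^ rk t p * |x p|

lemma rk_mono {s t : Finset (ℕ × Γ)} (h : s ⊆ t) (p : ℕ × Γ) : rk s p ≤ rk t p :=
  Finset.card_le_card (Finset.filter_subset_filter _ h)

lemma F_nonneg (t : Finset (ℕ × Γ)) (x : (ℕ × Γ) →₀ ℝ) : 0 ≤ F t x :=
  Finset.sum_nonneg fun _ _ => mul_nonneg (pow_nonneg (q_pos _).le _) (abs_nonneg _)

lemma F_le_l1 (t : Finset (ℕ × Γ)) (x : (ℕ × Γ) →₀ ℝ) : F t x ≤ ∑ p ∈ x.support, |x p| := by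
  classical
  have h1 : F t x ≤ ∑ p ∈ t, |x p| := by
    refine Finset.sum_le_sum fun _ _ => ?_
    exact mul_le_of_le_one_left (abs_nonneg _) (pow_le_one₀ (q_pos _).le (q_lt_one _).le)
  refine h1.trans ?_
  rw [← Finset.sum_filter_add_sum_filter_not t (fun p => p ∈ x.support)]
  have h2 : ∑ p ∈ t.filter (fun p => ¬ p ∈ x.support), |x p| = 0 := by
    apply Finset.sum_eq_zero
    intro p hp
    have := (Finset.mem_filter.1 hp).2
    rw [Finsupp.notMem_support_iff] at this
    rw [this, abs_zero]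
  rw [h2, add_zero]
  refine Finset.sum_le_sum_of_subset_of_nonneg ?_ fun _ _ _ => abs_nonneg _
  intro p hp
  exact (Finset.mem_filter.1 hp).2

lemma F_bdd (x : (ℕ × Γ) →₀ ℝ) : BddAbove (range fun t => F t x) :=
  ⟨_, by rintro _ ⟨t, rfl⟩; exact F_le_l1 t x⟩

lemma F_add (t : Finset (ℕ × Γ)) (x y : (ℕ × Γ) →₀ ℝ) : F t (x + y) ≤ F t x + F t y := by
  unfold F
  rw [← Finset.sum_add_distrib]
  refine Finset.sum_le_sum fun p _ => ?_
  rw [← mul_add, Finsupp.add_apply]
  exact mul_le_mul_of_nonneg_left (abs_add_le _ _) (pow_nonneg (q_pos _).le _)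

lemma F_smul (t : Finset (ℕ × Γ)) (c : ℝ) (x : (ℕ × Γ) →₀ ℝ) : F t (c • x) = |c| * F t x := by
  unfold F
  rw [Finset.mul_sum]
  refine Finset.sum_congr rfl fun p _ => ?_
  rw [Finsupp.smul_apply, smul_eq_mul, abs_mul]
  ring

lemma F_inter_support (t : Finset (ℕ × Γ)) (x : (ℕ × Γ) →₀ ℝ) :
    F t x ≤ F (t.filter (fun p => p ∈ x.support)) x := by
  classical
  unfold F
  rw [← Finset.sum_filter_add_sum_filter_not t (fun p => p ∈ x.support)]
  have h2 : ∑ p ∈ t.filter (fun p => ¬ p ∈ x.support), q p.1 ^ rk t p * |x p| = 0 := by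
    apply Finset.sum_eq_zero
    intro p hp
    have := (Finset.mem_filter.1 hp).2
    rw [Finsupp.notMem_support_iff] at this
    rw [this, abs_zero, mul_zero]
  rw [h2, add_zero]
  refine Finset.sum_le_sum fun p _ => ?_
  refine mul_le_mul_of_nonneg_right ?_ (abs_nonneg _)
  exact pow_le_pow_of_le_one (q_pos _).le (q_lt_one _).le (rk_mono (Finset.filter_subset _ _) p)

/-- the space of finitely supported functions -/
structure V (Γ : Type u) where
  /-- the function -/
  v : (ℕ × Γ) →₀ ℝ

/-- the identification -/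
def eV (Γ : Type u) : V Γ ≃ ((ℕ × Γ) →₀ ℝ) where
  toFun x := x.v
  invFun x := ⟨x⟩
  left_inv _ := rfl
  right_inv _ := rfl

noncomputable instance (Γ : Type u) : AddCommGroup (V Γ) := (eV Γ).addCommGroup

noncomputable instance (Γ : Type u) : Module ℝ (V Γ) := (eV Γ).module ℝ

lemma v_add (x y : V Γ) : (x + y).v = x.v + y.v := rfl

lemma v_smul (c : ℝ) (x : V Γ) : (c • x).v = c • x.v := rfl

lemma v_zero : (0 : V Γ).v = 0 := rfl

lemma v_inj {x y : V Γ} (h : x.v = y.v) : x = y := (eV Γ).injective h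

/-- the linear identification -/
noncomputable def lV (Γ : Type u) : V Γ ≃ₗ[ℝ] ((ℕ × Γ) →₀ ℝ) where
  toFun x := x.v
  invFun x := ⟨x⟩
  left_inv _ := rfl
  right_inv _ := rfl
  map_add' _ _ := rfl
  map_smul' _ _ := rfl

noncomputable instance : Norm (V Γ) := ⟨fun x => ⨆ t, F t x.v⟩

lemma norm_def (x : V Γ) : ‖x‖ = ⨆ t, F t x.v := rfl

lemma F_le_norm (t : Finset (ℕ × Γ)) (x : V Γ) : F t x.v ≤ ‖x‖ := le_ciSup (F_bdd x.v) t

lemma norm_le_of {x : V Γ} {C : ℝ} (h : ∀ t, F t x.v ≤ C) : ‖x‖ ≤ C := ciSup_le h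

lemma abs_le_norm (x : V Γ) (p : ℕ × Γ) : |x.v p| ≤ ‖x‖ := by
  have h := F_le_norm {p} x
  have h2 : rk {p} p = 0 := by
    unfold rk
    rw [Finset.card_eq_zero, Finset.filter_eq_empty_iff]
    intro r hr
    rw [Finset.mem_singleton] at hr
    rw [hr]
    simp
  unfold F at h
  rw [Finset.sum_singleton, h2, pow_zero, one_mul] at h
  exact h

lemma norm_le_l1 (x : V Γ) : ‖x‖ ≤ ∑ p ∈ x.v.support, |x.v p| :=
  norm_le_of fun t => F_le_l1 t x.v

noncomputable instance : NormedAddCommGroup (V Γ) :=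
  NormedAddCommGroup.ofCore (𝕜 := ℝ)
    { norm_nonneg := fun x => (F_nonneg ∅ x.v).trans (F_le_norm ∅ x)
      norm_smul := fun c x => by
        rw [norm_def, norm_def, Real.norm_eq_abs, Real.mul_iSup_of_nonneg (abs_nonneg _)]
        congr 1
        ext t
        rw [v_smul, F_smul]
      norm_triangle := fun x y => by
        refine norm_le_of fun t => ?_
        rw [v_add]
        exact (F_add t _ _).trans (add_le_add (F_le_norm t x) (F_le_norm t y))
      norm_eq_zero_iff := fun x => by
        constructor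
        · intro h
          apply v_inj
          rw [v_zero]
          ext p
          have := abs_le_norm x p
          rw [h] at this
          rw [Finsupp.zero_apply]
          exact abs_nonpos_iff.1 this
        · rintro rfl
          refine le_antisymm (norm_le_of fun t => ?_) ((F_nonneg ∅ _).trans (F_le_norm ∅ _))
          unfold F
          rw [v_zero]
          simp }

noncomputable instance : NormedSpace ℝ (V Γ) where
  norm_smul_le c x := by
    change (⨆ t, F t (c • x).v) ≤ ‖c‖ * ⨆ t, F t x.v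
    rw [Real.norm_eq_abs, Real.mul_iSup_of_nonneg (abs_nonneg _)]
    apply le_of_eq
    congr 1
    ext t
    rw [v_smul, F_smul]

/-- unit vectors -/
noncomputable def e (p : ℕ × Γ) : V Γ := ⟨Finsupp.single p 1⟩

lemma e_v (p : ℕ × Γ) : (e p).v = Finsupp.single p 1 := rfl

lemma norm_e (p : ℕ × Γ) : ‖e p‖ = 1 := by
  refine le_antisymm ?_ ?_
  · refine (norm_le_l1 _).trans ?_
    rw [e_v, Finsupp.support_single_ne_zero _ one_ne_zero, Finset.sum_singleton,
      Finsupp.single_eq_same, abs_one]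
  · have := abs_le_norm (e p) p
    rwa [e_v, Finsupp.single_eq_same, abs_one] at this

lemma octa (u : V Γ) (p : ℕ × Γ) (hp : ∀ r ∈ u.v.support, r.2 < p.2) (c : ℝ) :
    |c| + q p.1 * ‖u‖ ≤ ‖c • e p + u‖ := by
  classical
  have hpu : p ∉ u.v.support := fun h => lt_irrefl _ (hp p h)
  have hq := q_pos p.1
  have key : ‖u‖ ≤ (‖c • e p + u‖ - |c|) / q p.1 := by
    refine norm_le_of fun t => ?_
    rw [le_div_iff₀ hq]
    refine (mul_le_mul_of_nonneg_right (F_inter_support t u.v) hq.le).trans ?_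
    set s := t.filter (fun r => r ∈ u.v.support) with hs
    have hsu : ∀ r ∈ s, r ∈ u.v.support := fun r hr => (Finset.mem_filter.1 hr).2
    have hps : p ∉ s := fun h => hpu (hsu p h)
    have h1 := F_le_norm (insert p s) (c • e p + u)
    unfold F at h1
    rw [Finset.sum_insert hps] at h1
    have h2 : rk (insert p s) p = 0 := by
      unfold rk
      rw [Finset.card_eq_zero, Finset.filter_eq_empty_iff]
      intro r hr
      rw [Finset.mem_insert] at hr
      rcases hr with rfl | hr
      · simp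
      · intro h
        exact lt_asymm h.2 (hp r (hsu r hr))
    have h3 : (c • e p + u).v p = c := by
      rw [v_add, v_smul, e_v, Finsupp.add_apply, Finsupp.smul_apply, Finsupp.single_eq_same,
        Finsupp.notMem_support_iff.1 hpu, smul_eq_mul, mul_one, add_zero]
    rw [h2, pow_zero, one_mul, h3] at h1
    have h4 : F s u.v * q p.1 ≤ ∑ r ∈ s, q r.1 ^ rk (insert p s) r * |(c • e p + u).v r| := by
      unfold F
      rw [Finset.sum_mul]
      refine Finset.sum_le_sum fun r hr => ?_
      have hrp : r ≠ p := fun h => hps (h ▸ hr)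
      have h5 : (c • e p + u).v r = u.v r := by
        rw [v_add, v_smul, e_v, Finsupp.add_apply, Finsupp.smul_apply,
          Finsupp.single_eq_of_ne hrp, smul_zero, zero_add]
      rw [h5]
      have h6 : q r.1 ^ rk s r * q p.1 ≤ q r.1 ^ rk (insert p s) r := by
        by_cases hrn : r.1 = p.1
        · rw [← hrn, ← pow_succ]
          refine pow_le_pow_of_le_one (q_pos _).le (q_lt_one _).le ?_
          unfold rk
          rw [Finset.filter_insert]
          split_ifs
          · exact Finset.card_insert_le _ _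
          · exact Nat.le_succ _
        · have h7 : rk (insert p s) r = rk s r := by
            unfold rk
            rw [Finset.filter_insert, if_neg]
            rintro ⟨h8, _⟩
            exact hrn h8.symm
          rw [h7]
          exact mul_le_of_le_one_right (pow_nonneg (q_pos _).le _) (q_lt_one _).le
      calc q r.1 ^ rk s r * |u.v r| * q p.1 = (q r.1 ^ rk s r * q p.1) * |u.v r| := by ring
        _ ≤ _ := mul_le_mul_of_nonneg_right h6 (abs_nonneg _)
    linarith
  rw [le_div_iff₀ hq] at key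
  linarith [mul_comm ‖u‖ (q p.1)]

lemma geo (a : ℝ) (s : Finset Γ) :
    ∑ x ∈ s, a ^ (s.filter (fun y => x < y)).card = ∑ k ∈ Finset.range s.card, a ^ k := by
  classical
  induction s using Finset.induction_on_min with
  | empty => simp
  | insert m s hm ih =>
    have hms : m ∉ s := fun h => lt_irrefl _ (hm m h)
    rw [Finset.sum_insert hms, Finset.card_insert_of_notMem hms, Finset.sum_range_succ, add_comm,
      ← ih]
    congr 1
    · refine Finset.sum_congr rfl fun x hx => ?_
      rw [Finset.filter_insert, if_neg (fun h => lt_asymm h (hm x hx))]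
    · rw [Finset.filter_insert, if_neg (lt_irrefl m), Finset.filter_true_of_mem hm]

lemma level (t : Finset (ℕ × Γ)) (n : ℕ) :
    ∑ p ∈ t.filter (fun p => p.1 = n), q p.1 ^ rk t p ≤ (n : ℝ) + 2 := by
  classical
  set s : Finset Γ := (t.filter (fun p => p.1 = n)).image Prod.snd with hs
  have hinj : Set.InjOn Prod.snd (t.filter (fun p : ℕ × Γ => p.1 = n) : Set (ℕ × Γ)) := by
    intro a ha b hb hab
    have ha' := (Finset.mem_filter.1 ha).2
    have hb' := (Finset.mem_filter.1 hb).2
    exact Prod.ext (ha'.trans hb'.symm) hab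
  have h1 : ∑ p ∈ t.filter (fun p => p.1 = n), q p.1 ^ rk t p =
      ∑ x ∈ s, q n ^ (s.filter (fun y => x < y)).card := by
    rw [hs, Finset.sum_image hinj]
    refine Finset.sum_congr rfl fun p hp => ?_
    have hp' := (Finset.mem_filter.1 hp).2
    rw [hp']
    congr 1
    unfold rk
    rw [Finset.filter_image, Finset.card_image_of_injOn]
    · congr 1
      ext r
      simp only [Finset.mem_filter, hp', and_assoc]
    · exact hinj.mono (Finset.coe_subset.2 (Finset.filter_subset _ _))
  rw [h1, geo]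
  have h2 : ∑ k ∈ Finset.range s.card, q n ^ k ≤ (1 - q n)⁻¹ := by
    have h3 := (summable_geometric_of_lt_one (q_pos n).le (q_lt_one n)).sum_le_tsum
      (Finset.range s.card) (fun k _ => pow_nonneg (q_pos n).le k)
    rwa [tsum_geometric_of_lt_one (q_pos n).le (q_lt_one n)] at h3
  refine h2.trans (le_of_eq ?_)
  unfold q
  have h : (n : ℝ) + 2 ≠ 0 := by positivity
  field_simp
  ring

lemma norm_le_sup {N : ℕ} {M : ℝ} (hM : 0 ≤ M) {u : V Γ} (h1 : ∀ p ∈ u.v.support, p.1 < N)
    (h2 : ∀ p, |u.v p| ≤ M) : ‖u‖ ≤ (∑ n ∈ Finset.range N, ((n : ℝ) + 2)) * M := by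
  classical
  refine norm_le_of fun t => ?_
  have h3 : F t u.v ≤ ∑ p ∈ t.filter (fun p => p.1 < N), q p.1 ^ rk t p * M := by
    unfold F
    rw [← Finset.sum_filter_add_sum_filter_not t (fun p => p.1 < N)]
    have h4 : ∑ p ∈ t.filter (fun p => ¬ p.1 < N), q p.1 ^ rk t p * |u.v p| = 0 := by
      apply Finset.sum_eq_zero
      intro p hp
      have h5 := (Finset.mem_filter.1 hp).2
      have h6 : p ∉ u.v.support := fun h => h5 (h1 p h)
      rw [Finsupp.notMem_support_iff.1 h6, abs_zero, mul_zero]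
    rw [h4, add_zero]
    refine Finset.sum_le_sum fun p _ => ?_
    exact mul_le_mul_of_nonneg_left (h2 p) (pow_nonneg (q_pos _).le _)
  refine h3.trans ?_
  rw [← Finset.sum_mul]
  refine mul_le_mul_of_nonneg_right ?_ hM
  have h5 : ∑ p ∈ t.filter (fun p => p.1 < N), q p.1 ^ rk t p =
      ∑ n ∈ Finset.range N, ∑ p ∈ t.filter (fun p => p.1 = n), q p.1 ^ rk t p := by
    rw [← Finset.sum_fiberwise_of_maps_to (s := t.filter (fun p => p.1 < N))
      (t := Finset.range N) (g := fun p => p.1)]
    · refine Finset.sum_congr rfl fun n hn => ?_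
      refine Finset.sum_congr ?_ fun _ _ => rfl
      ext p
      simp only [Finset.mem_filter, Finset.mem_range] at hn ⊢
      constructor
      · rintro ⟨⟨h6, _⟩, h7⟩
        exact ⟨h6, h7⟩
      · rintro ⟨h6, h7⟩
        exact ⟨⟨h6, h7 ▸ hn⟩, h7⟩
    · intro p hp
      exact Finset.mem_range.2 (Finset.mem_filter.1 hp).2
  rw [h5]
  exact Finset.sum_le_sum fun n _ => level t n

/-- disjointly supported combinations with large coefficient sum -/
lemma greedy {I : Type*} {J : Set I} (hJ : J.Infinite) (v : I → V Γ) {M : ℝ} (hM0 : 0 ≤ M)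
    (hM : ∀ i p, |(v i).v p| ≤ M) (L : ℕ) :
    ∃ (T : Finset I) (b : I → ℝ), ↑T ⊆ J ∧ ∑ i ∈ T, |b i| = L ∧
      ∀ p, |∑ i ∈ T, b i * (v i).v p| ≤ M := by
  classical
  induction L with
  | zero => exact ⟨∅, fun _ => 0, by simp, by simp, fun p => by simpa using hM0⟩
  | succ L ih =>
    obtain ⟨T, b, hTJ, hb, hbM⟩ := ih
    set A : Finset (ℕ × Γ) := T.biUnion fun i => (v i).v.support with hA
    obtain ⟨T', hT'J, hT'c⟩ := (hJ.sdiff T.finite_toSet).exists_subset_card_eq (A.card + 1)
    set f : (T' → ℝ) →ₗ[ℝ] (A → ℝ) :=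
      Fintype.linearCombination ℝ (fun i : T' => fun p : A => (v i).v p) with hf
    have hker : LinearMap.ker f ≠ ⊥ := by
      apply LinearMap.ker_ne_bot_of_finrank_lt
      rw [Module.finrank_fintype_fun_eq_card, Module.finrank_fintype_fun_eq_card,
        Fintype.card_coe, Fintype.card_coe, hT'c]
      exact Nat.lt_succ_self _
    obtain ⟨g, hg, hg0⟩ := Submodule.exists_mem_ne_zero_of_ne_bot hker
    have hgA : ∀ p ∈ A, ∑ i : T', g i * (v i).v p = 0 := by
      intro p hp
      have h1 : f g = 0 := hg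
      have h2 := congrFun h1 ⟨p, hp⟩
      rw [hf, Fintype.linearCombination_apply, Finset.sum_apply] at h2
      simpa using h2
    set S : ℝ := ∑ i : T', |g i| with hS
    have hSpos : 0 < S := by
      obtain ⟨j, hj⟩ := Function.ne_iff.1 hg0
      have h1 : |g j| ≤ S := Finset.single_le_sum (f := fun i => |g i|)
        (fun i _ => abs_nonneg _) (Finset.mem_univ j)
      exact (abs_pos.2 hj).trans_le h1
    set b' : I → ℝ := fun i => if h : i ∈ T' then g ⟨i, h⟩ / S else b i with hb'
    have hdisj : Disjoint T T' := by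
      rw [Finset.disjoint_right]
      intro i hi hiT
      exact (hT'J (Finset.mem_coe.2 hi)).2 (Finset.mem_coe.2 hiT)
    have hbT : ∀ i ∈ T, b' i = b i := by
      intro i hi
      have : i ∉ T' := fun h => Finset.disjoint_left.1 hdisj hi h
      rw [hb']
      simp only [this, dif_neg, not_false_eq_true]
    have hsum : ∀ p, ∑ i ∈ T', b' i * (v i).v p = (∑ i : T', g i * (v i).v p) / S := by
      intro p
      rw [← Finset.sum_coe_sort T' (fun i => b' i * (v i).v p), Finset.sum_div]
      refine Finset.sum_congr rfl fun i _ => ?_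
      have : b' i = g i / S := by
        rw [hb']
        simp
      rw [this]
      ring
    have habs : ∑ i ∈ T', |b' i| = 1 := by
      rw [← Finset.sum_coe_sort T' (fun i => |b' i|)]
      have : ∀ i : T', |b' i| = |g i| / S := by
        intro i
        rw [hb']
        simp only [Finset.coe_mem, dif_pos, Subtype.coe_eta]
        rw [abs_div, abs_of_pos hSpos]
      rw [Finset.sum_congr rfl fun i _ => this i, ← Finset.sum_div, ← hS, div_self hSpos.ne']
    refine ⟨T ∪ T', b', ?_, ?_, ?_⟩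
    · rw [Finset.coe_union]
      exact union_subset hTJ fun i hi => (hT'J hi).1
    · rw [Finset.sum_union hdisj, habs, Finset.sum_congr rfl fun i hi => by rw [hbT i hi], hb]
      push_cast
      ring
    · intro p
      rw [Finset.sum_union hdisj, Finset.sum_congr rfl fun i hi => by rw [hbT i hi]]
      by_cases hp : p ∈ A
      · rw [hsum p, hgA p hp, zero_div, add_zero]
        exact hbM p
      · have h0 : ∑ i ∈ T, b i * (v i).v p = 0 := by
          apply Finset.sum_eq_zero
          intro i hi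
          have : p ∉ (v i).v.support := fun h => hp (Finset.mem_biUnion.2 ⟨i, hi, h⟩)
          rw [Finsupp.notMem_support_iff.1 this, mul_zero]
        rw [h0, zero_add]
        calc |∑ i ∈ T', b' i * (v i).v p| ≤ ∑ i ∈ T', |b' i * (v i).v p| :=
              Finset.abs_sum_le_sum_abs _ _
          _ ≤ ∑ i ∈ T', |b' i| * M := by
              refine Finset.sum_le_sum fun i _ => ?_
              rw [abs_mul]
              exact mul_le_mul_of_nonneg_left (hM i p) (abs_nonneg _)
          _ = M := by rw [← Finset.sum_mul, habs, one_mul]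

lemma infinite_fiber {I : Type*} [Uncountable I] (f : I → ℕ) : ∃ n, (f ⁻¹' {n}).Infinite := by
  by_contra h
  push Not at h
  have h1 : (⋃ n, f ⁻¹' {n}) = (univ : Set I) := by
    ext i
    simp
  have h2 : (univ : Set I).Countable := by
    rw [← h1]
    exact countable_iUnion fun n => (h n).countable
  exact not_countable_univ h2

/-- no uncountable family is equivalent to the basis of `ℓ_1` -/
lemma no_l1 {I : Type*} [Uncountable I] (v : I → V Γ) {M c : ℝ} (hM0 : 0 ≤ M) (hc : 0 < c)
    (hM : ∀ i p, |(v i).v p| ≤ M)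
    (h : ∀ (T : Finset I) (b : I → ℝ), c * ∑ i ∈ T, |b i| ≤ ‖∑ i ∈ T, b i • v i‖) : False := by
  classical
  obtain ⟨n, hn⟩ := infinite_fiber (fun i => (v i).v.support.sup Prod.fst)
  set C : ℝ := ∑ k ∈ Finset.range (n + 1), ((k : ℝ) + 2) with hC
  have hv : ∀ (T : Finset I) (b : I → ℝ) (p : ℕ × Γ),
      (∑ i ∈ T, b i • v i).v p = ∑ i ∈ T, b i * (v i).v p := by
    intro T b p
    have h1 : (∑ i ∈ T, b i • v i).v = ∑ i ∈ T, b i • (v i).v := by
      change lV Γ (∑ i ∈ T, b i • v i) = _
      rw [map_sum]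
      rfl
    rw [h1, Finsupp.finsetSum_apply]
    rfl
  have key : ∀ L : ℕ, c * L ≤ C * M := by
    intro L
    obtain ⟨T, b, hT, hb, hbM⟩ := greedy hn v hM0 hM L
    have h1 := h T b
    rw [hb] at h1
    refine h1.trans (norm_le_sup hM0 ?_ ?_)
    · intro p hp
      rw [Finsupp.mem_support_iff, hv] at hp
      obtain ⟨i, hi, hip⟩ := Finset.exists_ne_zero_of_sum_ne_zero hp
      have h2 : p ∈ (v i).v.support := by
        rw [Finsupp.mem_support_iff]
        exact right_ne_zero_of_mul hip
      have h3 : (v i).v.support.sup Prod.fst = n := hT hi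
      have h4 : p.1 ≤ n := h3 ▸ Finset.le_sup (f := Prod.fst) h2
      omega
    · intro p
      rw [hv]
      exact hbM p
  obtain ⟨L, hL⟩ := exists_nat_gt (C * M / c)
  have := key L
  rw [div_lt_iff₀ hc] at hL
  linarith [mul_comm (L : ℝ) c]

open Cardinal in
/-- `κ`-octahedral norms -/
def KappaOctahedral (κ : Cardinal.{u}) (X : Type u) [NormedAddCommGroup X] [NormedSpace ℝ X] :
    Prop :=
  ∀ ε : ℝ, 0 < ε → ∀ Y : Submodule ℝ X,
    (∃ D : Set X, D ⊆ (Y : Set X) ∧ (Y : Set X) ⊆ closure D ∧ #D ≤ κ) →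
    ∃ x : X, ‖x‖ = 1 ∧ ∀ c : ℝ, ∀ y ∈ Y, (1 - ε) * (|c| + ‖y‖) ≤ ‖c • x + y‖

open Cardinal Order in
lemma exists_bound {κ : Cardinal.{u}} (hκ : ℵ₀ ≤ κ) (S : Set (succ κ).ord.ToType) (hS : #S ≤ κ) :
    ∃ ξ, ∀ y ∈ S, y < ξ := by
  rw [← not_isCofinal_iff]
  intro h
  have h1 := Order.cof_le h
  rw [Ordinal.cof_toType, (isRegular_succ hκ).cof_ord] at h1
  exact (lt_succ κ).not_ge (h1.trans hS)

open Cardinal Order in
lemma octahedral {κ : Cardinal.{u}} (hκ : ℵ₀ ≤ κ) :
    KappaOctahedral κ (UniformSpace.Completion (V (succ κ).ord.ToType)) := by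
  intro ε hε Y hY
  obtain ⟨D, _, hYD, hD⟩ := hY
  have hdense : ∀ (d : UniformSpace.Completion (V (succ κ).ord.ToType)) (k : ℕ),
      ∃ u : V (succ κ).ord.ToType, ‖d - u‖ < 1 / ((k : ℝ) + 1) := by
    intro d k
    obtain ⟨u, hu⟩ := UniformSpace.Completion.denseRange_coe.exists_dist_lt d
      (show (0 : ℝ) < 1 / ((k : ℝ) + 1) by positivity)
    exact ⟨u, by rwa [dist_eq_norm] at hu⟩
  choose u hu using hdense
  set S : Set (succ κ).ord.ToType :=
    ⋃ x : D × ℕ, (((u x.1 x.2).v.support.image Prod.snd : Finset _) : Set _) with hS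
  have hSc : #S ≤ κ := by
    refine (mk_iUnion_le _).trans ?_
    have h1 : #(D × ℕ) ≤ κ := by
      rw [mk_prod, lift_uzero, mk_nat, lift_aleph0]
      exact (mul_le_mul' hD hκ).trans (mul_eq_self hκ).le
    refine (mul_le_mul' h1 ?_).trans (mul_eq_self hκ).le
    refine (ciSup_le' fun x => ?_ : _ ≤ ℵ₀).trans hκ
    exact (Finset.countable_toSet _).le_aleph0
  obtain ⟨ξ, hξ⟩ := exists_bound hκ S hSc
  obtain ⟨n, hn⟩ := exists_nat_one_div_lt hε
  have hqn : 1 - ε ≤ q n := by
    unfold q
    have h1 : (0 : ℝ) < (n : ℝ) + 1 := by positivity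
    have : 1 / ((n : ℝ) + 2) ≤ 1 / ((n : ℝ) + 1) := by
      apply one_div_le_one_div_of_le h1
      linarith
    linarith
  refine ⟨(e (n, ξ) : V (succ κ).ord.ToType), ?_, ?_⟩
  · rw [UniformSpace.Completion.norm_coe, norm_e]
  · intro c y hy
    set G : Set (UniformSpace.Completion (V (succ κ).ord.ToType)) :=
      {y | (1 - ε) * (|c| + ‖y‖) ≤ ‖c • ((e (n, ξ) : V (succ κ).ord.ToType) :
        UniformSpace.Completion (V (succ κ).ord.ToType)) + y‖} with hG
    have hGc : IsClosed G := by
      apply isClosed_le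
      · fun_prop
      · fun_prop
    have h1 : ∀ d ∈ D, ∀ k, ((u d k : V (succ κ).ord.ToType) :
        UniformSpace.Completion (V (succ κ).ord.ToType)) ∈ G := by
      intro d hd k
      rw [hG, mem_ofPred_eq, ← UniformSpace.Completion.coe_smul, ← UniformSpace.Completion.coe_add,
        UniformSpace.Completion.norm_coe, UniformSpace.Completion.norm_coe]
      have h2 := octa (u d k) (n, ξ) (by
        intro r hr
        apply hξ
        rw [hS]
        refine mem_iUnion.2 ⟨(⟨d, hd⟩, k), ?_⟩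
        rw [Finset.mem_coe, Finset.mem_image]
        exact ⟨r, hr, rfl⟩) c
      refine le_trans ?_ h2
      have h3 : 0 ≤ |c| + ‖u d k‖ := by positivity
      have h4 : (1 - ε) * (|c| + ‖u d k‖) ≤ q n * (|c| + ‖u d k‖) :=
        mul_le_mul_of_nonneg_right hqn h3
      refine h4.trans ?_
      rw [mul_add]
      have h5 : q n * |c| ≤ |c| := mul_le_of_le_one_left (abs_nonneg _) (q_lt_one n).le
      linarith
    have h2 : D ⊆ G := by
      intro d hd
      have h3 : Tendsto (fun k => ((u d k : V (succ κ).ord.ToType) :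
          UniformSpace.Completion (V (succ κ).ord.ToType))) atTop (𝓝 d) := by
        rw [tendsto_iff_norm_sub_tendsto_zero]
        refine squeeze_zero (fun _ => norm_nonneg _) (fun k => ?_)
          tendsto_one_div_add_atTop_nhds_zero_nat
        rw [norm_sub_rev]
        exact (hu d k).le
      exact hGc.mem_of_tendsto h3 (Eventually.of_forall fun k => h1 d hd k)
    exact closure_minimal h2 hGc (hYD hy)

/-- no copy of `ℓ_1(I)`, `I` uncountable -/
lemma no_copy {I : Type*} [Uncountable I] (Z : Submodule ℝ (UniformSpace.Completion (V Γ))) :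
    IsEmpty (lp (fun _ : I => ℝ) 1 ≃L[ℝ] Z) := by
  classical
  constructor
  intro T
  obtain ⟨K, hK, hKT⟩ := (T.symm : Z →L[ℝ] lp (fun _ : I => ℝ) 1).bound
  obtain ⟨B, hB, hBT⟩ := (T : lp (fun _ : I => ℝ) 1 →L[ℝ] Z).bound
  set c : ℝ := K⁻¹ with hc
  have hcpos : 0 < c := inv_pos.2 hK
  have hlow : ∀ a : lp (fun _ : I => ℝ) 1, c * ‖a‖ ≤ ‖(T a : UniformSpace.Completion (V Γ))‖ := by
    intro a
    have h1 := hKT (T a)
    simp only [ContinuousLinearEquiv.coe_coe, ContinuousLinearEquiv.symm_apply_apply] at h1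
    rw [hc, inv_mul_le_iff₀ hK]
    exact h1
  set x : I → UniformSpace.Completion (V Γ) := fun i => T (lp.single 1 i (1 : ℝ)) with hx
  have hdense : ∀ i, ∃ u : V Γ, ‖x i - u‖ < c / 2 := by
    intro i
    obtain ⟨u, hu⟩ := UniformSpace.Completion.denseRange_coe.exists_dist_lt (x i)
      (half_pos hcpos)
    exact ⟨u, by rwa [dist_eq_norm] at hu⟩
  choose v hv using hdense
  have hxB : ∀ i, ‖x i‖ ≤ B := by
    intro i
    have h1 := hBT (lp.single 1 i (1 : ℝ))
    rw [lp.norm_single (by norm_num), norm_one, mul_one] at h1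
    exact h1
  have hvB : ∀ i, ‖v i‖ ≤ B + c / 2 := by
    intro i
    have h1 : ‖((v i : V Γ) : UniformSpace.Completion (V Γ))‖ ≤ ‖x i‖ + ‖x i - v i‖ := by
      have := norm_sub_le (x i) (x i - v i)
      rwa [sub_sub_cancel] at this
    rw [UniformSpace.Completion.norm_coe] at h1
    have := hxB i
    have := hv i
    linarith
  refine no_l1 v (M := B + c / 2) (c := c / 2) (by positivity) (half_pos hcpos)
    (fun i p => (abs_le_norm _ _).trans (hvB i)) ?_
  intro S b
  have h1 : ‖∑ i ∈ S, b i • x i‖ ≥ c * ∑ i ∈ S, |b i| := by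
    have h2 : ∑ i ∈ S, b i • x i = (T (∑ i ∈ S, lp.single 1 i (b i)) :
        UniformSpace.Completion (V Γ)) := by
      rw [map_sum, Submodule.coe_sum]
      refine Finset.sum_congr rfl fun i _ => ?_
      rw [hx]
      simp only
      rw [← Submodule.coe_smul, ← map_smul, ← lp.single_smul, smul_eq_mul, mul_one]
    rw [h2]
    have h3 := hlow (∑ i ∈ S, lp.single 1 i (b i))
    have h4 := lp.norm_sum_single (p := 1) (E := fun _ : I => ℝ) (by norm_num) b S
    rw [ENNReal.toReal_one, Real.rpow_one] at h4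
    simp only [Real.rpow_one, Real.norm_eq_abs] at h4
    rw [h4] at h3
    exact h3
  have h2 : ‖∑ i ∈ S, b i • x i‖ ≤
      ‖∑ i ∈ S, b i • v i‖ + c / 2 * ∑ i ∈ S, |b i| := by
    have h3 : ∑ i ∈ S, b i • x i = ((∑ i ∈ S, b i • v i : V Γ) :
        UniformSpace.Completion (V Γ)) + ∑ i ∈ S, b i • (x i - v i) := by
      have h4 : ((∑ i ∈ S, b i • v i : V Γ) : UniformSpace.Completion (V Γ)) =
          ∑ i ∈ S, b i • ((v i : V Γ) : UniformSpace.Completion (V Γ)) := by
        have := map_sum (UniformSpace.Completion.toComplₗᵢ (𝕜 := ℝ) (E := V Γ)) (fun i => b i • v i) S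
        refine this.trans (Finset.sum_congr rfl fun i _ => ?_)
        rw [map_smul]
        rfl
      rw [h4, ← Finset.sum_add_distrib]
      refine Finset.sum_congr rfl fun i _ => ?_
      rw [← smul_add, add_sub_cancel]
    rw [h3]
    refine (norm_add_le _ _).trans ?_
    rw [UniformSpace.Completion.norm_coe]
    refine add_le_add le_rfl ?_
    refine (norm_sum_le _ _).trans ?_
    rw [Finset.mul_sum]
    refine Finset.sum_le_sum fun i _ => ?_
    rw [norm_smul, Real.norm_eq_abs, mul_comm]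
    exact mul_le_mul_of_nonneg_right (hv i).le (abs_nonneg _)
  linarith

end Pool.Agent.X171.Octa
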