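import Mathlib

/-!
# A strictly convex space with a Daugavet point

The space of convergent sequences `z = L + u`, `L` real, `u ∈ c_0`, with the norm
`max (√(L² + |T u|²), sup_m √((L + u m)² + 4^(-m-1) |T u|²))`, where
`T u = (2^(-k-1) u k)_k ∈ ℓ_2`; the Daugavet point is the constant sequence `1`.
-/

set_option autoImplicit false

open Set Metric Filter Topology

namespace Pool.Agent.X171.StrictDaug

/-- `c_0` -/
abbrev Z : Type := ZeroAtInftyContinuousMap ℕ ℝ

/-- the underlying vector space -/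
abbrev P : Type := ℝ × Z

/-- `ℓ_2` -/
abbrev E2 : Type := lp (fun _ : ℕ => ℝ) 2

/-- the Hilbert space -/
abbrev H : Type := WithLp 2 (ℝ × E2)

lemma abs_apply_le (u : Z) (m : ℕ) : |u m| ≤ ‖u‖ := by
  rw [← ZeroAtInftyContinuousMap.norm_toBCF_eq_norm]
  exact u.toBCF.norm_coe_le_norm m

lemma norm_le {u : Z} {C : ℝ} (hC : 0 ≤ C) (h : ∀ m, |u m| ≤ C) : ‖u‖ ≤ C := by
  rw [← ZeroAtInftyContinuousMap.norm_toBCF_eq_norm, BoundedContinuousFunction.norm_le hC]
  exact h

lemma summable_w : Summable fun k : ℕ => ((1 / 2 : ℝ) ^ (k + 1)) ^ 2 := by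
  have h : Summable fun k : ℕ => (1 / 4 : ℝ) ^ k :=
    summable_geometric_of_lt_one (by norm_num) (by norm_num)
  have h2 := h.mul_left (1 / 4 : ℝ)
  refine h2.congr fun k => ?_
  rw [← pow_mul, mul_comm (k + 1) 2, pow_mul]
  norm_num
  ring

lemma tsum_w : ∑' k : ℕ, ((1 / 2 : ℝ) ^ (k + 1)) ^ 2 ≤ 1 := by
  have e : ∀ k : ℕ, ((1 / 2 : ℝ) ^ (k + 1)) ^ 2 = 1 / 4 * (1 / 4) ^ k := by
    intro k
    rw [← pow_mul, mul_comm (k + 1) 2, pow_mul]
    norm_num
    ring
  simp only [e]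
  rw [tsum_mul_left, tsum_geometric_of_lt_one (by norm_num) (by norm_num)]
  norm_num

lemma le_w (u : Z) (k : ℕ) :
    ‖(1 / 2 : ℝ) ^ (k + 1) * u k‖ ^ (2 : ENNReal).toReal ≤ ‖u‖ ^ 2 * ((1 / 2 : ℝ) ^ (k + 1)) ^ 2 := by
  rw [ENNReal.toReal_ofNat, Real.rpow_ofNat, norm_mul, mul_pow, mul_comm]
  apply mul_le_mul
  · exact pow_le_pow_left₀ (norm_nonneg _) (abs_apply_le u k) 2
  · rw [Real.norm_of_nonneg (by positivity)]
  · positivity
  · positivity

/-- the injective operator -/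
noncomputable def T : Z →ₗ[ℝ] E2 where
  toFun u := ⟨fun k => (1 / 2) ^ (k + 1) * u k, memℓp_gen (by
    refine Summable.of_nonneg_of_le (fun k => by positivity) (le_w u) ?_
    exact summable_w.mul_left _)⟩
  map_add' u v := by
    ext k
    change (1 / 2 : ℝ) ^ (k + 1) * (u k + v k) = (1 / 2) ^ (k + 1) * u k + (1 / 2) ^ (k + 1) * v k
    ring
  map_smul' c u := by
    ext k
    change (1 / 2 : ℝ) ^ (k + 1) * (c * u k) = c * ((1 / 2) ^ (k + 1) * u k)
    ring

lemma T_apply (u : Z) (k : ℕ) : T u k = (1 / 2) ^ (k + 1) * u k := rfl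

lemma norm_T (u : Z) : ‖T u‖ ≤ ‖u‖ := by
  apply lp.norm_le_of_tsum_le (by norm_num) (norm_nonneg _)
  have h1 : ∑' k, ‖T u k‖ ^ (2 : ENNReal).toReal ≤
      ∑' k, ‖u‖ ^ 2 * ((1 / 2 : ℝ) ^ (k + 1)) ^ 2 := by
    refine Summable.tsum_le_tsum (le_w u) ?_ (summable_w.mul_left _)
    refine Summable.of_nonneg_of_le (fun k => by positivity) (le_w u) ?_
    exact summable_w.mul_left _
  refine h1.trans ?_
  rw [tsum_mul_left, ENNReal.toReal_ofNat, Real.rpow_ofNat]
  exact mul_le_of_le_one_right (by positivity) tsum_w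

lemma T_inj {u : Z} (h : T u = 0) : u = 0 := by
  ext k
  have h1 : T u k = 0 := by rw [h]; rfl
  rw [T_apply] at h1
  have h0 : ((1 / 2 : ℝ) ^ (k + 1)) ≠ 0 := by positivity
  rcases mul_eq_zero.1 h1 with h | h
  · exact absurd h h0
  · exact h

/-- the coordinate pieces of the norm -/
noncomputable def J2 (z : P) : BoundedContinuousFunction ℕ H :=
  BoundedContinuousFunction.ofNormedAddCommGroupDiscrete
    (fun m => WithLp.toLp 2 (z.1 + z.2 m, (1 / 2 : ℝ) ^ (m + 1) • T z.2)) (|z.1| + 2 * ‖z.2‖) (by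
      intro m
      have h1 : (WithLp.toLp 2 (z.1 + z.2 m, (1 / 2 : ℝ) ^ (m + 1) • T z.2) : H) =
          WithLp.toLp 2 (z.1 + z.2 m, 0) + WithLp.toLp 2 (0, (1 / 2 : ℝ) ^ (m + 1) • T z.2) := by
        rw [← WithLp.toLp_add, Prod.mk_add_mk, add_zero, zero_add]
      rw [h1]
      refine (norm_add_le _ _).trans ?_
      rw [WithLp.prod_norm_eq_of_L2, WithLp.prod_norm_eq_of_L2]
      simp only [WithLp.toLp_fst, WithLp.toLp_snd, norm_zero, zero_pow two_ne_zero, zero_add,
        add_zero, Real.sqrt_sq (norm_nonneg _)]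
      have h2 : ‖z.1 + z.2 m‖ ≤ |z.1| + ‖z.2‖ :=
        (norm_add_le _ _).trans (add_le_add le_rfl (abs_apply_le _ m))
      have h3 : ‖(1 / 2 : ℝ) ^ (m + 1) • T z.2‖ ≤ ‖z.2‖ := by
        rw [norm_smul, Real.norm_of_nonneg (by positivity)]
        calc (1 / 2 : ℝ) ^ (m + 1) * ‖T z.2‖ ≤ 1 * ‖z.2‖ := by
              apply mul_le_mul _ (norm_T _) (norm_nonneg _) (by norm_num)
              exact pow_le_one₀ (by norm_num) (by norm_num)
          _ = ‖z.2‖ := one_mul _
      linarith)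

lemma J2_apply (z : P) (m : ℕ) :
    J2 z m = WithLp.toLp 2 (z.1 + z.2 m, (1 / 2 : ℝ) ^ (m + 1) • T z.2) := rfl

/-- the embedding which defines the norm -/
noncomputable def J : P →ₗ[ℝ] H × BoundedContinuousFunction ℕ H where
  toFun z := (WithLp.toLp 2 (z.1, T z.2), J2 z)
  map_add' z w := by
    refine Prod.ext ?_ ?_
    · change WithLp.toLp 2 (z.1 + w.1, T (z.2 + w.2)) = _
      rw [map_add]
      rfl
    · ext m : 1
      change WithLp.toLp 2 ((z.1 + w.1) + (z.2 m + w.2 m), (1 / 2 : ℝ) ^ (m + 1) • T (z.2 + w.2)) =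
        WithLp.toLp 2 (z.1 + z.2 m, (1 / 2 : ℝ) ^ (m + 1) • T z.2) +
        WithLp.toLp 2 (w.1 + w.2 m, (1 / 2 : ℝ) ^ (m + 1) • T w.2)
      rw [← WithLp.toLp_add, Prod.mk_add_mk, map_add, smul_add]
      congr 2
      ring
  map_smul' c z := by
    refine Prod.ext ?_ ?_
    · change WithLp.toLp 2 (c * z.1, T (c • z.2)) = _
      rw [map_smul]
      rfl
    · ext m : 1
      change WithLp.toLp 2 (c * z.1 + c * z.2 m, (1 / 2 : ℝ) ^ (m + 1) • T (c • z.2)) =
        c • WithLp.toLp 2 (z.1 + z.2 m, (1 / 2 : ℝ) ^ (m + 1) • T z.2)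
      rw [← WithLp.toLp_smul, Prod.smul_mk, map_smul, smul_comm]
      congr 2
      rw [smul_eq_mul]
      ring

lemma J_fst (z : P) : (J z).1 = WithLp.toLp 2 (z.1, T z.2) := rfl
lemma J_snd (z : P) (m : ℕ) :
    (J z).2 m = WithLp.toLp 2 (z.1 + z.2 m, (1 / 2 : ℝ) ^ (m + 1) • T z.2) := rfl

lemma fst_zero {z : P} (h : (J z).1 = 0) : z = 0 := by
  rw [J_fst] at h
  have h1 := congrArg WithLp.fst h
  have h2 := congrArg WithLp.snd h
  exact Prod.ext h1 (T_inj h2)

lemma snd_zero {z : P} {m : ℕ} (h : (J z).2 m = 0) : z = 0 := by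
  rw [J_snd] at h
  have h1 : z.1 + z.2 m = 0 := congrArg WithLp.fst h
  have h2 : (1 / 2 : ℝ) ^ (m + 1) • T z.2 = 0 := congrArg WithLp.snd h
  have h0 : ((1 / 2 : ℝ) ^ (m + 1)) ≠ 0 := by positivity
  have h3 : z.2 = 0 := T_inj ((smul_eq_zero.1 h2).resolve_left h0)
  rw [h3] at h1
  exact Prod.ext (by simpa using h1) h3

lemma J_inj : Function.Injective J := by
  rw [injective_iff_map_eq_zero]
  intro z hz
  exact fst_zero (by rw [hz]; rfl)

/-- the space: a copy of `P` with the norm `‖J z‖` -/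
structure X : Type where
  /-- the vector -/
  v : P

/-- the bijection -/
def eX : X ≃ P := ⟨X.v, X.mk, fun _ => rfl, fun _ => rfl⟩

noncomputable instance : AddCommGroup X := eX.addCommGroup
noncomputable instance : Module ℝ X := eX.module ℝ

/-- the linear bijection -/
noncomputable def eL : X ≃ₗ[ℝ] P :=
  { eX with
    map_add' := fun _ _ => rfl
    map_smul' := fun _ _ => rfl }

lemma eL_apply (x : X) : eL x = x.v := rfl

/-- the embedding of `X` -/
noncomputable def JX : X →ₗ[ℝ] H × BoundedContinuousFunction ℕ H := J ∘ₗ eL.toLinearMap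

noncomputable instance : NormedAddCommGroup X :=
  NormedAddCommGroup.induced X (H × BoundedContinuousFunction ℕ H) JX
    (J_inj.comp eL.injective)

noncomputable instance : NormedSpace ℝ X :=
  NormedSpace.induced ℝ X (H × BoundedContinuousFunction ℕ H) JX

lemma norm_def (x : X) : ‖x‖ = ‖J x.v‖ := rfl
lemma add_v (x y : X) : (x + y).v = x.v + y.v := rfl
lemma sub_v (x y : X) : (x - y).v = x.v - y.v := rfl
lemma smul_v (c : ℝ) (x : X) : (c • x).v = c • x.v := rfl

lemma norm_le_iff {z : P} {C : ℝ} (hC : 0 ≤ C) :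
    ‖J z‖ ≤ C ↔ ‖(J z).1‖ ≤ C ∧ ∀ m, ‖(J z).2 m‖ ≤ C := by
  rw [Prod.norm_def, max_le_iff, BoundedContinuousFunction.norm_le hC]

lemma fst_le (z : P) : ‖(J z).1‖ ≤ ‖J z‖ := ((norm_le_iff (norm_nonneg _)).1 le_rfl).1
lemma snd_le (z : P) (m : ℕ) : ‖(J z).2 m‖ ≤ ‖J z‖ := ((norm_le_iff (norm_nonneg _)).1 le_rfl).2 m

lemma H_le (a : ℝ) (b : E2) : ‖(WithLp.toLp 2 (a, b) : H)‖ ≤ |a| + ‖b‖ := by
  have h1 : (WithLp.toLp 2 (a, b) : H) = WithLp.toLp 2 (a, 0) + WithLp.toLp 2 (0, b) := by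
    rw [← WithLp.toLp_add, Prod.mk_add_mk, add_zero, zero_add]
  rw [h1]
  refine (norm_add_le _ _).trans ?_
  rw [WithLp.prod_norm_eq_of_L2, WithLp.prod_norm_eq_of_L2]
  simp only [WithLp.toLp_fst, WithLp.toLp_snd, norm_zero, zero_pow two_ne_zero, zero_add,
    add_zero, Real.sqrt_sq (norm_nonneg _), Real.norm_eq_abs]
  rw [sq_abs, ← sq_abs, Real.sqrt_sq (abs_nonneg _)]

lemma le_H (a : ℝ) (b : E2) : |a| ≤ ‖(WithLp.toLp 2 (a, b) : H)‖ :=
  WithLp.norm_fst_le ℝ (WithLp.toLp 2 (a, b) : H)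

/-- the isomorphism of Banach spaces -/
noncomputable def eC : X ≃L[ℝ] P :=
  eL.toContinuousLinearEquivOfBounds 2 3 (by
    intro x
    rw [norm_def, eL_apply, Prod.norm_def]
    have h1 : |x.v.1| ≤ ‖J x.v‖ := (le_H _ _).trans (fst_le x.v)
    have h2 : ∀ m, |x.v.1 + x.v.2 m| ≤ ‖J x.v‖ := fun m => (le_H _ _).trans (snd_le x.v m)
    apply max_le
    · rw [Real.norm_eq_abs]
      linarith [norm_nonneg (J x.v)]
    · apply norm_le (by positivity)
      intro m
      have h3 : |x.v.2 m| ≤ |x.v.1 + x.v.2 m| + |x.v.1| := by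
        have := abs_add_le (x.v.1 + x.v.2 m) (-x.v.1)
        rw [abs_neg] at this
        calc |x.v.2 m| = |x.v.1 + x.v.2 m + -x.v.1| := by congr 1; ring
          _ ≤ _ := this
      linarith [h2 m]) (by
    intro z
    change ‖J z‖ ≤ _
    have h1 : |z.1| ≤ ‖z‖ := norm_fst_le z
    have h2 : ‖z.2‖ ≤ ‖z‖ := norm_snd_le z
    have h3 := norm_T z.2
    rw [norm_le_iff (by positivity)]
    refine ⟨(H_le _ _).trans (by linarith [norm_nonneg z]), fun m => (H_le _ _).trans ?_⟩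
    have h4 : |z.1 + z.2 m| ≤ |z.1| + |z.2 m| := abs_add_le _ _
    have h5 := abs_apply_le z.2 m
    have h6 : ‖(1 / 2 : ℝ) ^ (m + 1) • T z.2‖ ≤ ‖T z.2‖ := by
      rw [norm_smul, Real.norm_of_nonneg (by positivity)]
      exact mul_le_of_le_one_left (norm_nonneg _) (pow_le_one₀ (by norm_num) (by norm_num))
    linarith)

instance : CompleteSpace X := by
  rw [completeSpace_congr (e := eC.toEquiv) eC.isUniformEmbedding]
  infer_instance

lemma norm_le_three (z : P) : ‖J z‖ ≤ 3 * ‖z‖ := by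
  have h1 : |z.1| ≤ ‖z‖ := norm_fst_le z
  have h2 : ‖z.2‖ ≤ ‖z‖ := norm_snd_le z
  have h3 := norm_T z.2
  rw [norm_le_iff (by positivity)]
  refine ⟨(H_le _ _).trans (by linarith [norm_nonneg z]), fun m => (H_le _ _).trans ?_⟩
  have h4 : |z.1 + z.2 m| ≤ |z.1| + |z.2 m| := abs_add_le _ _
  have h5 := abs_apply_le z.2 m
  have h6 : ‖(1 / 2 : ℝ) ^ (m + 1) • T z.2‖ ≤ ‖T z.2‖ := by
    rw [norm_smul, Real.norm_of_nonneg (by positivity)]
    exact mul_le_of_le_one_left (norm_nonneg _) (pow_le_one₀ (by norm_num) (by norm_num))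
  linarith

/-- The Hilbert space argument. -/
lemma eq_zero_of_mid {E : Type*} [NormedAddCommGroup E] [InnerProductSpace ℝ E] {a b : E}
    (ha : ‖a‖ ≤ 1) (hb : ‖b‖ ≤ 1) (hab : 2 ≤ ‖a + b‖) : a - b = 0 := by
  have h := parallelogram_law_with_norm ℝ a b
  have h1 := norm_nonneg a
  have h2 := norm_nonneg b
  have h3 : ‖a - b‖ * ‖a - b‖ ≤ 0 := by nlinarith
  exact norm_eq_zero.1 (by nlinarith [norm_nonneg (a - b)])

lemma exists_bound (f : ℕ → ℝ) (h : ∀ m, f m < 2) (N : ℕ) : ∃ C < 2, ∀ m < N, f m ≤ C := by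
  induction N with
  | zero => exact ⟨0, by norm_num, fun m hm => absurd hm (by omega)⟩
  | succ N ih =>
    obtain ⟨C, hC, hC2⟩ := ih
    refine ⟨max C (f N), max_lt hC (h N), fun m hm => ?_⟩
    rcases Nat.lt_succ_iff_lt_or_eq.1 hm with h1 | rfl
    · exact (hC2 m h1).trans (le_max_left _ _)
    · exact le_max_right _ _

/-- The norm of `X` is strictly convex. -/
theorem strict (x y : X) (hx : ‖x‖ = 1) (hy : ‖y‖ = 1) (hxy : ‖x + y‖ = 2) : x = y := by
  rw [norm_def] at hx hy hxy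
  rw [add_v] at hxy
  have hsub : J (x.v - y.v) = J x.v - J y.v := map_sub J x.v y.v
  have hadd : J (x.v + y.v) = J x.v + J y.v := map_add J x.v y.v
  suffices h : x.v - y.v = 0 from eX.injective (sub_eq_zero.1 h)
  by_cases h1 : 2 ≤ ‖(J (x.v + y.v)).1‖
  · apply fst_zero
    rw [hsub]
    rw [hadd] at h1
    exact eq_zero_of_mid (hx ▸ fst_le x.v) (hy ▸ fst_le y.v) h1
  · by_cases h2 : ∃ m, 2 ≤ ‖(J (x.v + y.v)).2 m‖
    · obtain ⟨m, hm⟩ := h2
      apply snd_zero (m := m)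
      rw [hsub]
      rw [hadd] at hm
      exact eq_zero_of_mid (hx ▸ snd_le x.v m) (hy ▸ snd_le y.v m) hm
    · exfalso
      push Not at h1 h2
      set w : P := x.v + y.v with hw
      have hL : |w.1| < 2 := lt_of_le_of_lt (le_H _ _) h1
      -- the pieces converge to `|w.1|`
      have hT : Tendsto (fun m : ℕ => |w.1 + w.2 m| + (1 / 2 : ℝ) ^ (m + 1) * ‖T w.2‖) atTop
          (𝓝 (|w.1 + 0| + 0 * ‖T w.2‖)) := by
        apply Tendsto.add
        · apply Tendsto.abs
          apply tendsto_const_nhds.add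
          have h := w.2.zero_at_infty'
          rw [Filter.cocompact_eq_cofinite, Nat.cofinite_eq_atTop] at h
          exact h
        · apply Tendsto.mul_const
          have := tendsto_pow_atTop_nhds_zero_of_lt_one (r := (1 / 2 : ℝ)) (by norm_num)
            (by norm_num)
          exact this.comp (tendsto_add_atTop_nat 1)
      rw [add_zero, zero_mul, add_zero] at hT
      have hev := hT.eventually (gt_mem_nhds (show |w.1| < (|w.1| + 2) / 2 by linarith))
      obtain ⟨N, hN⟩ := eventually_atTop.1 hev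
      obtain ⟨C, hC, hC2⟩ := exists_bound (fun m => ‖(J w).2 m‖) h2 N
      have hbd : ‖J w‖ ≤ max (max C ((|w.1| + 2) / 2)) ‖(J w).1‖ := by
        rw [norm_le_iff (le_max_of_le_right (norm_nonneg _))]
        refine ⟨le_max_right _ _, fun m => ?_⟩
        by_cases hm : m < N
        · exact (hC2 m hm).trans ((le_max_left _ _).trans (le_max_left _ _))
        · refine (?_ : _ ≤ (|w.1| + 2) / 2).trans ((le_max_right _ _).trans (le_max_left _ _))
          refine le_trans ?_ (hN m (by omega)).le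
          rw [J_snd]
          refine (H_le _ _).trans ?_
          rw [norm_smul, Real.norm_of_nonneg (by positivity)]
      have : max (max C ((|w.1| + 2) / 2)) ‖(J w).1‖ < 2 :=
        max_lt (max_lt hC (by linarith)) h1
      linarith

/-- the Daugavet point -/
noncomputable def x0 : X := ⟨(1, 0)⟩

lemma norm_x0 : ‖x0‖ = 1 := by
  rw [norm_def]
  apply le_antisymm
  · rw [norm_le_iff zero_le_one]
    refine ⟨(H_le _ _).trans ?_, fun m => (H_le _ _).trans ?_⟩
    · change |(1 : ℝ)| + ‖T (0 : Z)‖ ≤ 1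
      rw [map_zero, norm_zero, abs_one, add_zero]
    · change |(1 : ℝ) + 0| + ‖(1 / 2 : ℝ) ^ (m + 1) • T (0 : Z)‖ ≤ 1
      rw [map_zero, smul_zero, norm_zero, add_zero, add_zero, abs_one]
  · have := (le_H x0.v.1 (T x0.v.2)).trans (fst_le x0.v)
    change |(1 : ℝ)| ≤ _ at this
    rwa [abs_one] at this

/-- a finitely supported sequence -/
noncomputable def blk (t : ℕ → ℝ) (M n : ℕ) : Z where
  toFun := fun k => if M ≤ k ∧ k < M + n then t k else 0
  continuous_toFun := continuous_of_discreteTopology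
  zero_at_infty' := by
    rw [Filter.cocompact_eq_cofinite, Nat.cofinite_eq_atTop]
    apply tendsto_const_nhds.congr'
    filter_upwards [eventually_ge_atTop (M + n)] with m hm
    rw [if_neg (by omega)]

lemma blk_apply (t : ℕ → ℝ) (M n k : ℕ) : blk t M n k = if M ≤ k ∧ k < M + n then t k else 0 := rfl

lemma blk_zero (t : ℕ → ℝ) (M : ℕ) : blk t M 0 = 0 := by
  ext k
  rw [blk_apply, if_neg (by omega)]
  rfl

lemma blk_succ (t : ℕ → ℝ) (M n : ℕ) : blk t M (n + 1) = blk t M n + blk t (M + n) 1 := by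
  ext k
  rw [ZeroAtInftyContinuousMap.add_apply, blk_apply, blk_apply, blk_apply]
  rcases lt_trichotomy k (M + n) with h | h | h
  · by_cases hM : M ≤ k
    · rw [if_pos (by omega), if_pos (by omega), if_neg (by omega), add_zero]
    · rw [if_neg (by omega), if_neg (by omega), if_neg (by omega), add_zero]
  · rw [if_pos (by omega), if_neg (by omega), if_pos (by omega), zero_add]
  · rw [if_neg (by omega), if_neg (by omega), if_neg (by omega), add_zero]

lemma norm_blk {t : ℕ → ℝ} {C : ℝ} (hC : 0 ≤ C) (ht : ∀ k, |t k| ≤ C) (M n : ℕ) :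
    ‖blk t M n‖ ≤ C := by
  apply norm_le hC
  intro k
  rw [blk_apply]
  split_ifs
  · exact ht k
  · rwa [abs_zero]

lemma norm_T_blk {t : ℕ → ℝ} (ht : ∀ k, |t k| ≤ 2) (m : ℕ) :
    ‖T (blk t m 1)‖ ≤ (1 / 2) ^ m := by
  have h : T (blk t m 1) = lp.single 2 m ((1 / 2) ^ (m + 1) * t m) := by
    ext k
    rw [T_apply, blk_apply]
    by_cases hk : k = m
    · subst hk
      rw [if_pos (by omega), lp.single_apply_self]
    · rw [if_neg (by omega), lp.single_apply_ne _ _ _ hk, mul_zero]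
  rw [h, lp.norm_single (by norm_num), norm_mul, Real.norm_of_nonneg (by positivity),
    Real.norm_eq_abs, pow_succ]
  have h1 := ht m
  have h2 : (0 : ℝ) < (1 / 2) ^ m := by positivity
  nlinarith

/-- The main point: through every `v` with `‖v‖ < 1` there are slices' far points. -/
theorem far {v : X} (hv : ‖v‖ < 1) (f : X →L[ℝ] ℝ) {c : ℝ} (hc : c < f v) {η : ℝ} (hη : 0 < η)
    (hη1 : η ≤ 1) : ∃ y : X, ‖y‖ ≤ 1 ∧ c < f y ∧ 2 - η ≤ ‖x0 - y‖ := by
  by_contra hno
  push Not at hno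
  have hv1 : ∀ k, |v.v.1 + v.v.2 k| ≤ ‖v‖ := fun k => (le_H _ _).trans (snd_le v.v k)
  set t : ℕ → ℝ := fun k => -(1 - η) - (v.v.1 + v.v.2 k) with ht
  have ht2 : ∀ k, |t k| ≤ 2 := by
    intro k
    have := hv1 k
    rw [abs_le] at this ⊢
    simp only [ht]
    constructor <;> linarith
  -- the norm of the modified point
  have hnorm : ∀ m : ℕ, (1 / 2 : ℝ) ^ m ≤ 1 - ‖v‖ → (1 / 2 : ℝ) ^ m ≤ η →
      ‖(⟨v.v + (0, blk t m 1)⟩ : X)‖ ≤ 1 := by
    intro m h1 h2
    have hTb := norm_T_blk ht2 m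
    have hTb1 : ‖T (blk t m 1)‖ ≤ 1 := hTb.trans (pow_le_one₀ (by norm_num) (by norm_num))
    rw [norm_def, norm_le_iff zero_le_one]
    constructor
    · have e : (J (v.v + (0, blk t m 1))).1 = (J v.v).1 + WithLp.toLp 2 (0, T (blk t m 1)) := by
        rw [map_add]
        rfl
      rw [e]
      refine (norm_add_le _ _).trans ?_
      have e1 : ‖(J v.v).1‖ ≤ ‖v‖ := fst_le v.v
      have e2 := H_le 0 (T (blk t m 1))
      rw [abs_zero, zero_add] at e2
      linarith
    · intro k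
      by_cases hk : k = m
      · subst hk
        have e : (J (v.v + (0, blk t k 1))).2 k =
            WithLp.toLp 2 (-(1 - η), (1 / 2 : ℝ) ^ (k + 1) • T (v.v.2 + blk t k 1)) := by
          rw [J_snd]
          congr 2
          change v.v.1 + 0 + (v.v.2 k + blk t k 1 k) = _
          rw [blk_apply, if_pos (by omega)]
          simp only [ht]
          ring
        rw [e]
        refine (H_le _ _).trans ?_
        rw [norm_smul, Real.norm_of_nonneg (by positivity), abs_neg, abs_of_nonneg (by linarith),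
          map_add]
        have e3 : ‖T v.v.2‖ ≤ 1 := by
          have h := WithLp.norm_snd_le ℝ ((J v.v).1)
          exact h.trans ((fst_le v.v).trans hv.le)
        have e4 : ‖T v.v.2 + T (blk t k 1)‖ ≤ 2 := (norm_add_le _ _).trans (by linarith)
        have e5 : (0 : ℝ) < (1 / 2) ^ k := by positivity
        rw [pow_succ]
        nlinarith
      · have e : (J (v.v + (0, blk t m 1))).2 k =
            (J v.v).2 k + WithLp.toLp 2 (0, (1 / 2 : ℝ) ^ (k + 1) • T (blk t m 1)) := by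
          rw [J_snd, J_snd, ← WithLp.toLp_add, Prod.mk_add_mk]
          congr 2
          · change v.v.1 + 0 + (v.v.2 k + blk t m 1 k) = _
            rw [blk_apply, if_neg (by omega)]
            ring
          · change (1 / 2 : ℝ) ^ (k + 1) • T (v.v.2 + blk t m 1) = _
            rw [map_add, smul_add]
        rw [e]
        refine (norm_add_le _ _).trans ?_
        have e1 : ‖(J v.v).2 k‖ ≤ ‖v‖ := snd_le v.v k
        have e2 := H_le 0 ((1 / 2 : ℝ) ^ (k + 1) • T (blk t m 1))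
        rw [abs_zero, zero_add, norm_smul, Real.norm_of_nonneg (by positivity)] at e2
        have e3 : (1 / 2 : ℝ) ^ (k + 1) * ‖T (blk t m 1)‖ ≤ ‖T (blk t m 1)‖ :=
          mul_le_of_le_one_left (norm_nonneg _) (pow_le_one₀ (by norm_num) (by norm_num))
        linarith
  -- the distance
  have hdist : ∀ m : ℕ, 2 - η ≤ ‖x0 - (⟨v.v + (0, blk t m 1)⟩ : X)‖ := by
    intro m
    rw [norm_def]
    have h := (le_H _ _).trans (snd_le (x0 - (⟨v.v + (0, blk t m 1)⟩ : X)).v m)
    refine le_trans ?_ h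
    change _ ≤ |(1 - (v.v.1 + 0)) + (0 - (v.v.2 m + blk t m 1 m))|
    rw [blk_apply, if_pos (by omega)]
    refine le_trans ?_ (le_abs_self _)
    simp only [ht]
    linarith
  -- the functional
  obtain ⟨M, hM⟩ : ∃ M : ℕ, (1 / 2 : ℝ) ^ M < min (1 - ‖v‖) η :=
    exists_pow_lt_of_lt_one (lt_min (by linarith) hη) (by norm_num)
  have hval : ∀ m, M ≤ m → f (⟨(0, blk t m 1)⟩ : X) ≤ c - f v := by
    intro m hm
    have h1 : (1 / 2 : ℝ) ^ m ≤ (1 / 2) ^ M := pow_le_pow_of_le_one (by norm_num) (by norm_num) hm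
    have h2 := hnorm m ((h1.trans hM.le).trans (min_le_left _ _))
      ((h1.trans hM.le).trans (min_le_right _ _))
    by_contra hcon
    push Not at hcon
    have h3 : f (⟨v.v + (0, blk t m 1)⟩ : X) = f v + f (⟨(0, blk t m 1)⟩ : X) := by
      rw [← map_add]
      rfl
    exact absurd (hdist m) (not_le.2 (hno _ h2 (by rw [h3]; linarith)))
  have hsum : ∀ n : ℕ, f (⟨(0, blk t M n)⟩ : X) ≤ n * (c - f v) := by
    intro n
    induction n with
    | zero =>
      rw [blk_zero, Nat.cast_zero, zero_mul]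
      have : (⟨(0, 0)⟩ : X) = 0 := rfl
      rw [this, map_zero]
    | succ n ih =>
      have e : (⟨(0, blk t M (n + 1))⟩ : X) = ⟨(0, blk t M n)⟩ + ⟨(0, blk t (M + n) 1)⟩ := by
        apply eX.injective
        change ((0 : ℝ), blk t M (n + 1)) = (0 + 0, blk t M n + blk t (M + n) 1)
        rw [blk_succ, add_zero]
      rw [e, map_add]
      push_cast
      linarith [hval (M + n) (by omega)]
  have hb : ∀ n : ℕ, ‖(⟨(0, blk t M n)⟩ : X)‖ ≤ 6 := by
    intro n
    rw [norm_def]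
    refine (norm_le_three _).trans ?_
    have : ‖((0 : ℝ), blk t M n)‖ ≤ 2 := by
      rw [Prod.norm_def, max_le_iff]
      refine ⟨by simp, norm_blk (by norm_num) ht2 M n⟩
    linarith
  obtain ⟨n, hn⟩ := exists_nat_gt (‖f‖ * 6 / (f v - c))
  rw [div_lt_iff₀ (by linarith)] at hn
  have h1 := hsum n
  have h2 : -(‖f‖ * 6) ≤ f (⟨(0, blk t M n)⟩ : X) := by
    have h3 := f.le_opNorm (⟨(0, blk t M n)⟩ : X)
    rw [Real.norm_eq_abs] at h3
    have h4 := (abs_le.1 h3).1
    have h5 : ‖f‖ * ‖(⟨(0, blk t M n)⟩ : X)‖ ≤ ‖f‖ * 6 :=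
      mul_le_mul_of_nonneg_left (hb n) (norm_nonneg _)
    linarith
  linarith

end Pool.Agent.X171.StrictDaug
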